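import Mathlib
import Pool.Agent.Helper37.IE.Defs

/-! MP_7cf8d2, piece IE-9 = the interface to the graph part (Theorem R): in a connected `K` with the
cut conditions one of the configurations occurs.

Proof from Theorem R: if no bridge configuration (2nd alternative) occurs, `K` is 2-edge-connected,
every vertex has at most one leg of `K`; a pair of adjacent leg vertices gives the 3rd, a vertex with
two neighbours that are leg vertices the 4th alternative. Otherwise suppress the leg vertices (they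
become the M-edges of a cubic graph `G_K`); take an inclusion-minimal side `Q` of a 2-edge-cut of
`G_K` if there is one (then the root is an end of the edge replacing the other side), else `Q = K`;
apply Theorem R; the good circuit gives the 5th (no M-edge on the circuit, two marks `y1`, `y2`) or
the 6th alternative (one M-edge on the circuit, a mark `y`). -/

namespace Pool.Agent.Helper37.IE

open Finset Pool.Agent.Helper49.CDC Pool.Agent.Helper37.GRT
open scoped Classical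

universe u v

variable {V : Type v} {E : Type u}

/-- the six configurations -/
def Config [Fintype E] (ends : E → Sym2 V) (K : Set V) : Prop :=
  (∃ v, K = {v}) ∨
  (∃ K1 K2, K = K1 ∪ K2 ∧ Disjoint K1 K2 ∧ K1.Nonempty ∧ K2.Nonempty ∧ Conn ends K1 ∧
    Conn ends K2 ∧ ∃ f, Between ends K1 K2 = {f}) ∨
  (∃ (K' : Set V) (u v : V) (e a c : E), K = K' ∪ {u} ∪ {v} ∧ u ∉ K' ∧ v ∉ K' ∧ u ≠ v ∧
    K'.Nonempty ∧ Conn ends K' ∧ Between ends {u} {v} = {e} ∧ Between ends K' {u} = {a} ∧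
    Between ends K' {v} = {c}) ∨
  (∃ (K' : Set V) (n1 v n2 : V) (e1 e2 g1 g2 g3 : E), K = K' ∪ {n1} ∪ {v} ∪ {n2} ∧ n1 ∉ K' ∧
    v ∉ K' ∧ n2 ∉ K' ∧ n1 ≠ v ∧ v ≠ n2 ∧ n1 ≠ n2 ∧ K'.Nonempty ∧ Conn ends K' ∧
    Between ends {n1} {v} = {e1} ∧ Between ends {v} {n2} = {e2} ∧ Between ends {n1} {n2} = ∅ ∧
    Between ends K' {n1} = {g1} ∧ Between ends K' {n2} = {g2} ∧ Between ends K' {v} = {g3}) ∨
  (∃ (X1 : Set E) (S B' R : Set V) (y1 y2 : V) (g1 g2 β1 β2 : E),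
    K = S ∪ (B' ∪ {y1} ∪ {y2}) ∪ R ∧ IsCycle ends X1 ∧ S = verts ends X1 ∧ Disjoint S B' ∧
    Disjoint S R ∧ Disjoint B' R ∧ y1 ∉ S ∧ y2 ∉ S ∧ y1 ∉ B' ∧ y2 ∉ B' ∧ y1 ∉ R ∧ y2 ∉ R ∧
    y1 ≠ y2 ∧ Between ends B' {y1} = {g1} ∧ Between ends B' {y2} = {g2} ∧
    Between ends S {y1} = {β1} ∧ Between ends S {y2} = {β2} ∧ Between ends {y1} {y2} = ∅ ∧
    Between ends (B' ∪ {y1} ∪ {y2}) R = ∅ ∧ (∀ e ∈ Legs ends K, e ∉ Touch ends R) ∧
    (∀ e ∈ Legs ends K, e ∉ Touch ends S) ∧ B'.Nonempty ∧ Conn ends B') ∨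
  (∃ (X1 : Set E) (S B' R : Set V) (y : V) (g β e0 : E),
    K = S ∪ (B' ∪ {y}) ∪ R ∧ IsCycle ends X1 ∧ S = verts ends X1 ∧ Disjoint S B' ∧
    Disjoint S R ∧ Disjoint B' R ∧ y ∉ S ∧ y ∉ B' ∧ y ∉ R ∧ Between ends B' {y} = {g} ∧
    Between ends S {y} = {β} ∧ Between ends (B' ∪ {y}) R = ∅ ∧
    (∀ e ∈ Legs ends K, e ∉ Touch ends R) ∧
    (∀ e, (e ∈ Legs ends K ∧ e ∈ Touch ends S) ↔ e = e0) ∧ B'.Nonempty ∧ Conn ends B')

end Pool.Agent.Helper37.IE
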