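import Mathlib
import Pool.Agent.Helper37.IE.Defs

/-! MP_7cf8d2, piece IE-3: the set of all nowhere-zero leg vectors with sum zero is switchable.

`sw`: for `w ≠ 0` the number of legs with `b e ≠ w` (all are `≠ 0`, so `b e ∉ {0, w}`) is even,
because the sum of all `b e` is `0` (apply `om w`: `om w x = 1` iff `x ∉ {0, w}`). A finite set of
even cardinality has a fixed point free involution; take any. A `π`-invariant subset `S` has even
cardinality, so the sum does not change when `w` is added on `S`; and `b e + w ≠ 0`. -/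

namespace Pool.Agent.Helper37.IE

open Finset Pool.Agent.Helper49.CDC Pool.Agent.Helper37.GRT
open scoped Classical

universe u v

variable {V : Type v} {E : Type u}

theorem exists_pairing {α : Type*} [DecidableEq α] (A : Finset α) (h : Even A.card) :
    ∃ π : α → α, (∀ a ∈ A, π a ∈ A ∧ π a ≠ a ∧ π (π a) = a) ∧
      ∀ S : Finset α, (∀ a ∈ S, a ∈ A ∧ π a ∈ S) → Even S.card := by
  have key : ∀ (n : ℕ) (A : Finset α), A.card = 2 * n →
      ∃ π : α → α, ∀ a ∈ A, π a ∈ A ∧ π a ≠ a ∧ π (π a) = a := by
    intro n
    induction n with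
    | zero =>
      intro A hA
      have h0 : A = ∅ := Finset.card_eq_zero.1 (by simpa using hA)
      exact ⟨id, by simp [h0]⟩
    | succ n ih =>
      intro A hA
      obtain ⟨a, ha, b, hb, hab⟩ := Finset.one_lt_card.1 (show 1 < A.card by omega)
      have hb' : b ∈ A.erase a := Finset.mem_erase.2 ⟨hab.symm, hb⟩
      have hc : ((A.erase a).erase b).card = 2 * n := by
        rw [Finset.card_erase_of_mem hb', Finset.card_erase_of_mem ha]
        omega
      obtain ⟨π, hπ⟩ := ih _ hc
      refine ⟨fun x => if x = a then b else if x = b then a else π x, ?_⟩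
      intro x hx
      by_cases h1 : x = a
      · subst h1
        simp [hb, hab.symm]
      · by_cases h2 : x = b
        · subst h2
          simp [ha, hab, hab.symm]
        · have hx' : x ∈ (A.erase a).erase b :=
            Finset.mem_erase.2 ⟨h2, Finset.mem_erase.2 ⟨h1, hx⟩⟩
          obtain ⟨h3, h4, h5⟩ := hπ x hx'
          rw [Finset.mem_erase, Finset.mem_erase] at h3
          simp only [h1, h2, if_false, h3.1, h3.2.1]
          exact ⟨h3.2.2, h4, h5⟩
  obtain ⟨n, hn⟩ := h
  obtain ⟨π, hπ⟩ := key n A (by omega)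
  refine ⟨π, hπ, fun S hS => ?_⟩
  have h1 : ∑ _x ∈ S, (1 : ZMod 2) = 0 := by
    refine Finset.sum_involution (fun a _ => π a) (fun a _ => Z_add_self 1) (fun a ha _ => ?_)
      (fun a ha => (hS a ha).2) (fun a ha => ?_)
    · exact (hπ a (hS a ha).1).2.1
    · exact (hπ a (hS a ha).1).2.2
  rw [Finset.sum_const, nsmul_eq_mul, mul_one] at h1
  exact (ZMod.natCast_eq_zero_iff_even).1 h1

theorem om_one (w x : W) (hw : w ≠ 0) (hx : x ≠ 0) : om w x = if x ≠ w then 1 else 0 := by
  revert w x
  decide

theorem allL_switch [Fintype V] [Fintype E] (ends : E → Sym2 V) (S : Set V) :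
    Switchable ends S (AllL ends S) := by
  refine ⟨?_, ?_, ?_, ?_⟩
  · rintro b ⟨h1, h2⟩ b' hb'
    refine ⟨fun e he => by rw [← hb' e he]; exact h1 e he, ?_⟩
    rw [← h2]
    refine Finset.sum_congr rfl fun e he => ?_
    exact (hb' e (Finset.mem_filter.1 he).2).symm
  · exact fun b hb => hb.1
  · rintro b ⟨h1, h2⟩ k
    refine ⟨fun e he => rotk_ne_zero k _ (h1 e he), ?_⟩
    rw [← map_sum, h2, map_zero]
  · rintro b ⟨h1, h2⟩ w hw
    have hA : Even (univ.filter (fun e => e ∈ Legs ends S ∧ b e ≠ w)).card := by
      refine (ZMod.natCast_eq_zero_iff_even).1 ?_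
      have h3 : om w (∑ e ∈ univ.filter (fun e => e ∈ Legs ends S), b e) = 0 := by
        rw [h2, om_zero_right]
      rw [om_sum_right] at h3
      rw [← h3, Finset.card_eq_sum_ones, Nat.cast_sum, Finset.sum_filter, Finset.sum_filter]
      refine Finset.sum_congr rfl fun e _ => ?_
      by_cases he : e ∈ Legs ends S
      · rw [if_pos he, om_one w (b e) hw (h1 e he)]
        by_cases hb : b e = w
        · simp [hb]
        · simp [hb, he]
      · simp [he]
    obtain ⟨π, hπ, hev⟩ := exists_pairing _ hA
    refine ⟨π, fun e he hb => ?_, fun T hT => ?_⟩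
    · have h3 := hπ e (Finset.mem_filter.2 ⟨Finset.mem_univ _, he, hb⟩)
      have h4 := (Finset.mem_filter.1 h3.1).2
      exact ⟨h4.1, h4.2, h3.2.1, h3.2.2⟩
    · have hcard : Even (univ.filter (fun e => e ∈ T)).card := by
        refine hev _ fun e he => ?_
        have h3 := hT e (Finset.mem_filter.1 he).2
        exact ⟨Finset.mem_filter.2 ⟨Finset.mem_univ _, h3.1, h3.2.1⟩,
          Finset.mem_filter.2 ⟨Finset.mem_univ _, h3.2.2⟩⟩
      refine ⟨fun e he => ?_, ?_⟩
      · by_cases heT : e ∈ T
        · simp only [heT, if_true]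
          intro h0
          exact (hT e heT).2.1 (W_eq_of_add _ _ h0)
        · simp only [heT, if_false]
          exact h1 e he
      · have h3 : ∀ e, (if e ∈ T then b e + w else b e) = b e + if e ∈ T then w else 0 := by
          intro e
          split_ifs
          · rfl
          · rw [add_zero]
        simp only [h3]
        rw [Finset.sum_add_distrib, h2, zero_add, ← Finset.sum_filter, Finset.filter_filter]
        have h4 : univ.filter (fun e => e ∈ Legs ends S ∧ e ∈ T) = univ.filter (fun e => e ∈ T) := by
          ext e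
          simp only [Finset.mem_filter, Finset.mem_univ, true_and]
          exact ⟨fun h => h.2, fun h => ⟨(hT e h).1, h⟩⟩
        rw [h4, Finset.sum_const]
        obtain ⟨m, hm⟩ := hcard
        rw [hm, add_smul]
        exact W_add_self _

end Pool.Agent.Helper37.IE
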