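import Mathlib

/-! MP_7cf8d2, piece IE-1 (pure combinatorics).
`H` is a finite set of half-edges, `π` a fixed point free involution of `H`, `σ` an involution of
`H` (it exchanges the two halves of a glued edge and fixes the free half-edges).
Then the free half-edges are paired by the trails of `π` and `σ`.

Proof: strong induction on `H.card`.  If `σ a = a` for all `a ∈ H`, take `ρ = π`, `U = S`.
Otherwise take `p ∈ H` with `q = σ p ≠ p`.
Case `π p = q`: apply the induction hypothesis to `H.erase p |>.erase q` with the same `π`, `σ`.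
Case `π p ≠ q`: put `p' = π p`, `q' = π q` (all four are different), `H' = (H.erase p).erase q`,
`π' = Function.update (Function.update π p' q') q' p'`, the same `σ`; get `ρ` and, for `S`, a set
`U'` with `p' ∈ U' ↔ q' ∈ U'`; put `U = U' ∪ {p, q}` if `p' ∈ U'`, else `U = U'`. -/

namespace Pool.Agent.Helper37.IE

theorem two_inv_aux {α : Type*} [DecidableEq α] (n : ℕ) : ∀ (H : Finset α) (π σ : α → α),
    H.card = n →
    (∀ a ∈ H, π a ∈ H ∧ π a ≠ a ∧ π (π a) = a) →
    (∀ a ∈ H, σ a ∈ H ∧ σ (σ a) = a) →
    ∃ ρ : α → α, (∀ a ∈ H, σ a = a → ρ a ∈ H ∧ σ (ρ a) = ρ a ∧ ρ a ≠ a ∧ ρ (ρ a) = a) ∧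
      ∀ S : Set α, (∀ a ∈ S, a ∈ H ∧ σ a = a ∧ ρ a ∈ S) →
        ∃ U : Set α, (∀ a ∈ U, a ∈ H ∧ π a ∈ U ∧ σ a ∈ U) ∧
          ∀ a ∈ H, σ a = a → (a ∈ U ↔ a ∈ S) := by
  induction n using Nat.strong_induction_on with
  | _ n ih =>
  intro H π σ hn hπ hσ
  by_cases hall : ∀ a ∈ H, σ a = a
  · refine ⟨π, fun a ha _ => ⟨(hπ a ha).1, hall _ (hπ a ha).1, (hπ a ha).2.1, (hπ a ha).2.2⟩, ?_⟩
    intro S hS
    refine ⟨S, fun a ha => ⟨(hS a ha).1, (hS a ha).2.2, ?_⟩, fun a _ _ => Iff.rfl⟩
    rw [(hS a ha).2.1]
    exact ha
  · push Not at hall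
    obtain ⟨p, hp, hpq⟩ := hall
    set q := σ p with hq
    have hqH : q ∈ H := (hσ p hp).1
    have hσq : σ q = p := (hσ p hp).2
    have hpq' : p ≠ q := fun h => hpq h.symm
    have hcard : ((H.erase p).erase q).card < n := by
      have h1 : (H.erase p).card = H.card - 1 := Finset.card_erase_of_mem hp
      have h2 : ((H.erase p).erase q).card ≤ (H.erase p).card := Finset.card_erase_le
      have h3 : 0 < H.card := Finset.card_pos.2 ⟨p, hp⟩
      omega
    have hmem : ∀ a, a ∈ (H.erase p).erase q ↔ a ≠ q ∧ a ≠ p ∧ a ∈ H := by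
      intro a
      rw [Finset.mem_erase, Finset.mem_erase]
    have hσ' : ∀ a ∈ (H.erase p).erase q, σ a ∈ (H.erase p).erase q ∧ σ (σ a) = a := by
      intro a ha
      rw [hmem] at ha
      obtain ⟨h1, h2, h3⟩ := ha
      refine ⟨?_, (hσ a h3).2⟩
      rw [hmem]
      refine ⟨?_, ?_, (hσ a h3).1⟩
      · intro h
        apply h2
        rw [← (hσ a h3).2, h, hσq]
      · intro h
        apply h1
        rw [← (hσ a h3).2, h]
    have hfix : ∀ a ∈ H, σ a = a → a ∈ (H.erase p).erase q := by
      intro a ha h
      rw [hmem]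
      refine ⟨?_, ?_, ha⟩
      · rintro rfl
        rw [hσq] at h
        exact hpq' h
      · rintro rfl
        exact hpq h
    by_cases hcase : π p = q
    · have hπq : π q = p := by
        rw [← hcase]
        exact (hπ p hp).2.2
      have hπ' : ∀ a ∈ (H.erase p).erase q,
          π a ∈ (H.erase p).erase q ∧ π a ≠ a ∧ π (π a) = a := by
        intro a ha
        rw [hmem] at ha
        obtain ⟨h1, h2, h3⟩ := ha
        refine ⟨?_, (hπ a h3).2.1, (hπ a h3).2.2⟩
        rw [hmem]
        refine ⟨?_, ?_, (hπ a h3).1⟩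
        · intro h
          apply h2
          rw [← (hπ a h3).2.2, h, hπq]
        · intro h
          apply h1
          rw [← (hπ a h3).2.2, h, hcase]
      obtain ⟨ρ, hρ, hS⟩ := ih _ hcard ((H.erase p).erase q) π σ rfl hπ' hσ'
      refine ⟨ρ, ?_, ?_⟩
      · intro a ha h
        obtain ⟨h1, h2, h3, h4⟩ := hρ a (hfix a ha h) h
        exact ⟨((hmem _).1 h1).2.2, h2, h3, h4⟩
      · intro S hSS
        obtain ⟨U, hU, hUS⟩ := hS S fun a ha =>
          ⟨hfix a (hSS a ha).1 (hSS a ha).2.1, (hSS a ha).2.1, (hSS a ha).2.2⟩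
        refine ⟨U, fun a ha => ⟨((hmem _).1 (hU a ha).1).2.2, (hU a ha).2.1, (hU a ha).2.2⟩, ?_⟩
        intro a ha h
        exact hUS a (hfix a ha h) h
    · set p' := π p with hp'
      set q' := π q with hq'
      have hp'H : p' ∈ H := (hπ p hp).1
      have hq'H : q' ∈ H := (hπ q hqH).1
      have hπp' : π p' = p := (hπ p hp).2.2
      have hπq' : π q' = q := (hπ q hqH).2.2
      have e1 : p' ≠ p := (hπ p hp).2.1
      have e2 : p' ≠ q := hcase
      have e3 : q' ≠ q := (hπ q hqH).2.1
      have e4 : q' ≠ p := by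
        intro h
        apply e2
        rw [hp', ← h, hπq']
      have e5 : p' ≠ q' := by
        intro h
        apply hpq'
        rw [← hπp', h, hπq']
      have hp'm : p' ∈ (H.erase p).erase q := (hmem _).2 ⟨e2, e1, hp'H⟩
      have hq'm : q' ∈ (H.erase p).erase q := (hmem _).2 ⟨e3, e4, hq'H⟩
      let π' : α → α := Function.update (Function.update π p' q') q' p'
      have hπ'q : π' q' = p' := Function.update_self _ _ _
      have hπ'p : π' p' = q' := by
        show Function.update (Function.update π p' q') q' p' p' = q'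
        rw [Function.update_of_ne e5, Function.update_self]
      have hπ'o : ∀ a, a ≠ p' → a ≠ q' → π' a = π a := by
        intro a h1 h2
        show Function.update (Function.update π p' q') q' p' a = π a
        rw [Function.update_of_ne h2, Function.update_of_ne h1]
      have hoth : ∀ a ∈ (H.erase p).erase q, a ≠ p' → a ≠ q' →
          π a ∈ (H.erase p).erase q ∧ π a ≠ p' ∧ π a ≠ q' := by
        intro a ha h5 h6
        rw [hmem] at ha
        obtain ⟨h1, h2, h3⟩ := ha
        refine ⟨?_, ?_, ?_⟩
        · rw [hmem]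
          refine ⟨?_, ?_, (hπ a h3).1⟩
          · intro h
            apply h6
            rw [← (hπ a h3).2.2, h]
          · intro h
            apply h5
            rw [← (hπ a h3).2.2, h]
        · intro h
          apply h2
          rw [← (hπ a h3).2.2, h, hπp']
        · intro h
          apply h1
          rw [← (hπ a h3).2.2, h, hπq']
      have hπ'' : ∀ a ∈ (H.erase p).erase q,
          π' a ∈ (H.erase p).erase q ∧ π' a ≠ a ∧ π' (π' a) = a := by
        intro a ha
        by_cases h5 : a = p'
        · subst h5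
          rw [hπ'p]
          exact ⟨hq'm, e5.symm, hπ'q⟩
        · by_cases h6 : a = q'
          · rw [h6, hπ'q]
            exact ⟨hp'm, e5, hπ'p⟩
          · obtain ⟨h7, h8, h9⟩ := hoth a ha h5 h6
            rw [hπ'o a h5 h6]
            have haH := ((hmem _).1 ha).2.2
            refine ⟨h7, (hπ a haH).2.1, ?_⟩
            rw [hπ'o _ h8 h9]
            exact (hπ a haH).2.2
      obtain ⟨ρ, hρ, hS⟩ := ih _ hcard ((H.erase p).erase q) π' σ rfl hπ'' hσ'
      refine ⟨ρ, ?_, ?_⟩
      · intro a ha h
        obtain ⟨h1, h2, h3, h4⟩ := hρ a (hfix a ha h) h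
        exact ⟨((hmem _).1 h1).2.2, h2, h3, h4⟩
      · intro S hSS
        obtain ⟨U, hU, hUS⟩ := hS S fun a ha =>
          ⟨hfix a (hSS a ha).1 (hSS a ha).2.1, (hSS a ha).2.1, (hSS a ha).2.2⟩
        by_cases hpU : p' ∈ U
        · have hqU : q' ∈ U := by
            have := (hU p' hpU).2.1
            rwa [hπ'p] at this
          refine ⟨U ∪ {p, q}, ?_, ?_⟩
          · intro a ha
            rcases ha with ha | ha
            · have haH := ((hmem _).1 (hU a ha).1).2.2
              refine ⟨haH, ?_, Or.inl (hU a ha).2.2⟩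
              by_cases h5 : a = p'
              · right
                rw [h5, hπp']
                exact Or.inl rfl
              · by_cases h6 : a = q'
                · right
                  rw [h6, hπq']
                  exact Or.inr rfl
                · left
                  have := (hU a ha).2.1
                  rwa [hπ'o a h5 h6] at this
            · rcases ha with ha | ha
              · rw [ha]
                exact ⟨hp, Or.inl hpU, Or.inr (Or.inr rfl)⟩
              · have ha' : a = q := ha
                rw [ha']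
                refine ⟨hqH, Or.inl hqU, ?_⟩
                rw [hσq]
                exact Or.inr (Or.inl rfl)
          · intro a ha h
            have h1 := hfix a ha h
            rw [← hUS a h1 h]
            constructor
            · intro h2
              rcases h2 with h2 | h2
              · exact h2
              · exfalso
                rw [hmem] at h1
                rcases h2 with h2 | h2
                · exact h1.2.1 h2
                · exact h1.1 h2
            · exact fun h2 => Or.inl h2
        · refine ⟨U, ?_, ?_⟩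
          · intro a ha
            have haH := ((hmem _).1 (hU a ha).1).2.2
            have h5 : a ≠ p' := by
              rintro rfl
              exact hpU ha
            have h6 : a ≠ q' := by
              intro h
              apply hpU
              have := (hU a ha).2.1
              rwa [h, hπ'q] at this
            refine ⟨haH, ?_, (hU a ha).2.2⟩
            have := (hU a ha).2.1
            rwa [hπ'o a h5 h6] at this
          · intro a ha h
            exact hUS a (hfix a ha h) h

theorem two_inv {α : Type*} [DecidableEq α] (H : Finset α) (π σ : α → α)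
    (hπ : ∀ a ∈ H, π a ∈ H ∧ π a ≠ a ∧ π (π a) = a)
    (hσ : ∀ a ∈ H, σ a ∈ H ∧ σ (σ a) = a) :
    ∃ ρ : α → α, (∀ a ∈ H, σ a = a → ρ a ∈ H ∧ σ (ρ a) = ρ a ∧ ρ a ≠ a ∧ ρ (ρ a) = a) ∧
      ∀ S : Set α, (∀ a ∈ S, a ∈ H ∧ σ a = a ∧ ρ a ∈ S) →
        ∃ U : Set α, (∀ a ∈ U, a ∈ H ∧ π a ∈ U ∧ σ a ∈ U) ∧
          ∀ a ∈ H, σ a = a → (a ∈ U ↔ a ∈ S) :=
  two_inv_aux H.card H π σ rfl hπ hσ

end Pool.Agent.Helper37.IE
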