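import Mathlib
import Pool.Agent.Helper37.IE.Defs
import Pool.Agent.Helper37.IE.St.TwoInv

/-! MP_7cf8d2, piece IE-2: two switchable sets can be glued.

Proof of `sw`: let `b ∈ Gl ..`, `b'` the witness, `w ≠ 0`, `π1`, `π2` from `h1.sw b'`, `h2.sw b'`.
Apply `two_inv` to the half-edges `H : Finset (Bool × E)` = `(true, e)` with `e ∈ Legs K1`,
`b' e ≠ w` and `(false, e)` with `e ∈ Legs K2`, `b' e ≠ w`; `π (true, e) = (true, π1 e)`,
`π (false, e) = (false, π2 e)`; `σ (i, e) = (!i, e)` if `e ∈ Legs K1 ∩ Legs K2`, else `(i, e)`.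
The free half-edges are the legs of `K1 ∪ K2` (`legs_union`) with value `≠ w`, each in exactly one
of the two sets.  For a set `S` of legs of `K1 ∪ K2` take `U` for the corresponding set of free
half-edges, and the new witness `b''` = `b' + w` on the edges `e` with `(true, e) ∈ U` or
`(false, e) ∈ U` (for `e` in both leg sets these are equivalent), `b'` elsewhere; it is in `L1`
because `{e | (true, e) ∈ U}` is `π1`-invariant (and then `h1.congr`). -/

namespace Pool.Agent.Helper37.IE

open Finset Pool.Agent.Helper49.CDC Pool.Agent.Helper37.GRT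
open scoped Classical

universe u v

variable {V : Type v} {E : Type u}

theorem legs_union (ends : E → Sym2 V) (K1 K2 : Set V) (hd : Disjoint K1 K2) (e : E) :
    e ∈ Legs ends (K1 ∪ K2) ↔
      (e ∈ Legs ends K1 ∧ e ∉ Legs ends K2) ∨ (e ∉ Legs ends K1 ∧ e ∈ Legs ends K2) := by
  obtain ⟨a, b, hab⟩ := exists_ends ends e
  rw [mem_legs_iff ends _ e a b hab, mem_legs_iff ends _ e a b hab, mem_legs_iff ends _ e a b hab]
  have ha : ¬(a ∈ K1 ∧ a ∈ K2) := fun h => Set.disjoint_left.1 hd h.1 h.2
  have hb : ¬(b ∈ K1 ∧ b ∈ K2) := fun h => Set.disjoint_left.1 hd h.1 h.2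
  simp only [Set.mem_union]
  by_cases h1 : a ∈ K1 <;> by_cases h2 : a ∈ K2 <;> by_cases h3 : b ∈ K1 <;>
    by_cases h4 : b ∈ K2 <;> simp_all

theorem glue_switch [Fintype V] [Fintype E] (ends : E → Sym2 V) (K1 K2 : Set V)
    (hd : Disjoint K1 K2) (L1 L2 : Set (E → W)) (h1 : Switchable ends K1 L1)
    (h2 : Switchable ends K2 L2) : Switchable ends (K1 ∪ K2) (Gl ends K1 K2 L1 L2) := by
  refine ⟨?_, ?_, ?_, ?_⟩
  · rintro b ⟨c, hc1, hc2, hc⟩ b' hb
    exact ⟨c, hc1, hc2, fun e he => (hc e he).trans (hb e he)⟩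
  · rintro b ⟨c, hc1, hc2, hc⟩ e he
    rw [← hc e he]
    rcases (legs_union ends K1 K2 hd e).1 he with h | h
    · exact h1.nz c hc1 e h.1
    · exact h2.nz c hc2 e h.2
  · rintro b ⟨c, hc1, hc2, hc⟩ k
    exact ⟨_, h1.rot c hc1 k, h2.rot c hc2 k, fun e he => by rw [hc e he]⟩
  · rintro b ⟨c, hc1, hc2, hc⟩ w hw
    obtain ⟨π1, hπ1, hs1⟩ := h1.sw c hc1 w hw
    obtain ⟨π2, hπ2, hs2⟩ := h2.sw c hc2 w hw
    -- the side of a half-edge
    let K' : Bool → Set V := fun i => cond i K1 K2
    let π' : Bool → E → E := fun i => cond i π1 π2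
    let side : E → Bool := fun e => decide (e ∈ Legs ends K1)
    have hP : ∀ i, ∀ e ∈ Legs ends (K' i), c e ≠ w → π' i e ∈ Legs ends (K' i) ∧
        c (π' i e) ≠ w ∧ π' i e ≠ e ∧ π' i (π' i e) = e := by
      intro i
      cases i
      · exact hπ2
      · exact hπ1
    let H : Finset (Bool × E) := univ.filter (fun a => a.2 ∈ Legs ends (K' a.1) ∧ c a.2 ≠ w)
    have hH : ∀ a : Bool × E, a ∈ H ↔ a.2 ∈ Legs ends (K' a.1) ∧ c a.2 ≠ w := by
      intro a
      simp only [H, Finset.mem_filter, Finset.mem_univ, true_and]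
    let π : Bool × E → Bool × E := fun a => (a.1, π' a.1 a.2)
    let σ : Bool × E → Bool × E := fun a =>
      if a.2 ∈ Legs ends K1 ∧ a.2 ∈ Legs ends K2 then (!a.1, a.2) else a
    have hσb : ∀ a : Bool × E, a.2 ∈ Legs ends K1 ∧ a.2 ∈ Legs ends K2 → σ a = (!a.1, a.2) := by
      intro a h
      exact if_pos h
    have hσn : ∀ a : Bool × E, ¬(a.2 ∈ Legs ends K1 ∧ a.2 ∈ Legs ends K2) → σ a = a := by
      intro a h
      exact if_neg h
    have hfree : ∀ a : Bool × E, σ a = a → ¬(a.2 ∈ Legs ends K1 ∧ a.2 ∈ Legs ends K2) := by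
      intro a h hb
      rw [hσb a hb] at h
      have := congrArg Prod.fst h
      simp at this
    have hπH : ∀ a ∈ H, π a ∈ H ∧ π a ≠ a ∧ π (π a) = a := by
      intro a ha
      obtain ⟨ha1, ha2⟩ := (hH a).1 ha
      obtain ⟨q1, q2, q3, q4⟩ := hP a.1 a.2 ha1 ha2
      refine ⟨(hH _).2 ⟨q1, q2⟩, ?_, ?_⟩
      · intro h
        exact q3 (congrArg Prod.snd h)
      · exact Prod.ext rfl q4
    have hσH : ∀ a ∈ H, σ a ∈ H ∧ σ (σ a) = a := by
      intro a ha
      obtain ⟨ha1, ha2⟩ := (hH a).1 ha
      by_cases hb : a.2 ∈ Legs ends K1 ∧ a.2 ∈ Legs ends K2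
      · rw [hσb a hb]
        refine ⟨(hH _).2 ⟨?_, ha2⟩, ?_⟩
        · change a.2 ∈ Legs ends (K' (!a.1))
          cases hh : a.1
          · exact hb.1
          · exact hb.2
        · rw [hσb (!a.1, a.2) hb]
          exact Prod.ext (Bool.not_not _) rfl
      · rw [hσn a hb, hσn a hb]
        exact ⟨ha, rfl⟩
    obtain ⟨ρ, hρ, hU⟩ := two_inv H π σ hπH hσH
    -- free half-edges
    have hfr : ∀ a ∈ H, σ a = a → a.2 ∈ Legs ends (K1 ∪ K2) ∧ a.1 = side a.2 := by
      intro a ha hs
      have hn := hfree a hs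
      have ha1 := ((hH a).1 ha).1
      cases hh : a.1
      · have h2' : a.2 ∈ Legs ends K2 := by
          rw [hh] at ha1
          exact ha1
        have h1' : a.2 ∉ Legs ends K1 := fun h => hn ⟨h, h2'⟩
        exact ⟨(legs_union ends K1 K2 hd a.2).2 (Or.inr ⟨h1', h2'⟩), (decide_eq_false h1').symm⟩
      · have h1' : a.2 ∈ Legs ends K1 := by
          rw [hh] at ha1
          exact ha1
        have h2' : a.2 ∉ Legs ends K2 := fun h => hn ⟨h1', h⟩
        exact ⟨(legs_union ends K1 K2 hd a.2).2 (Or.inl ⟨h1', h2'⟩), (decide_eq_true h1').symm⟩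
    have hleg : ∀ e ∈ Legs ends (K1 ∪ K2), e ∈ Legs ends (K' (side e)) ∧
        e ∉ Legs ends (K' (!side e)) ∧ σ (side e, e) = (side e, e) := by
      intro e he
      rcases (legs_union ends K1 K2 hd e).1 he with ⟨h, h'⟩ | ⟨h, h'⟩
      · have hs : side e = true := decide_eq_true h
        rw [hs]
        exact ⟨h, h', hσn _ (fun hb => h' hb.2)⟩
      · have hs : side e = false := decide_eq_false h
        rw [hs]
        exact ⟨h', h, hσn _ (fun hb => h hb.1)⟩
    have hrho : ∀ e ∈ Legs ends (K1 ∪ K2), b e ≠ w → (side e, e) ∈ H ∧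
        ρ (side e, e) ∈ H ∧ σ (ρ (side e, e)) = ρ (side e, e) ∧ ρ (side e, e) ≠ (side e, e) ∧
        ρ (ρ (side e, e)) = (side e, e) := by
      intro e he hbe
      obtain ⟨p1, p2, p3⟩ := hleg e he
      have hmem : (side e, e) ∈ H := (hH _).2 ⟨p1, by
        change c e ≠ w
        rw [hc e he]
        exact hbe⟩
      exact ⟨hmem, hρ _ hmem p3⟩
    refine ⟨fun e => (ρ (side e, e)).2, ?_, ?_⟩
    · intro e he hbe
      obtain ⟨q0, q1, q2, q3, q4⟩ := hrho e he hbe
      obtain ⟨r1, r2⟩ := hfr _ q1 q2
      have heq : (side (ρ (side e, e)).2, (ρ (side e, e)).2) = ρ (side e, e) :=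
        Prod.ext r2.symm rfl
      refine ⟨r1, ?_, ?_, ?_⟩
      · rw [← hc _ r1]
        exact ((hH _).1 q1).2
      · intro h
        apply q3
        rw [← heq]
        change (side (ρ (side e, e)).2, (ρ (side e, e)).2) = _
        have h' : (ρ (side e, e)).2 = e := h
        rw [h']
      · change (ρ (side (ρ (side e, e)).2, (ρ (side e, e)).2)).2 = e
        rw [heq, q4]
    · intro S hS
      obtain ⟨U, hU1, hU2⟩ := hU {a | a.2 ∈ S ∧ a.1 = side a.2} (by
        rintro a ⟨ha1, ha2⟩
        obtain ⟨s1, s2, s3'⟩ := hS _ ha1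
        have s3 : (ρ (side a.2, a.2)).2 ∈ S := s3'
        have haeq : a = (side a.2, a.2) := Prod.ext ha2 rfl
        obtain ⟨q0, q1, q2, q3, q4⟩ := hrho _ s1 s2
        obtain ⟨r1, r2⟩ := hfr _ q1 q2
        obtain ⟨p1, p2, p3⟩ := hleg _ s1
        rw [← haeq] at q0 q1 q2 p3 r1 r2 s3
        exact ⟨q0, p3, s3, r2⟩)
      have hUc : ∀ e, (true, e) ∈ U → e ∈ Legs ends K1 ∧ c e ≠ w := by
        intro e he
        exact (hH _).1 (hU1 _ he).1
      have hUc' : ∀ e, (false, e) ∈ U → e ∈ Legs ends K2 ∧ c e ≠ w := by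
        intro e he
        exact (hH _).1 (hU1 _ he).1
      have ht : ∀ e ∈ Legs ends K1, ((true, e) ∈ U ∨ (false, e) ∈ U) ↔ (true, e) ∈ U := by
        intro e he
        constructor
        · rintro (h | h)
          · exact h
          · have h' := (hU1 _ h).2.2
            rw [hσb (false, e) ⟨he, (hUc' e h).1⟩] at h'
            exact h'
        · exact Or.inl
      have hf : ∀ e ∈ Legs ends K2, ((true, e) ∈ U ∨ (false, e) ∈ U) ↔ (false, e) ∈ U := by
        intro e he
        constructor
        · rintro (h | h)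
          · have h' := (hU1 _ h).2.2
            rw [hσb (true, e) ⟨(hUc e h).1, he⟩] at h'
            exact h'
          · exact h
        · exact Or.inr
      refine ⟨fun e => if (true, e) ∈ U ∨ (false, e) ∈ U then c e + w else c e, ?_, ?_, ?_⟩
      · refine h1.congr _ (hs1 {e | (true, e) ∈ U} ?_) _ ?_
        · intro e he
          exact ⟨(hUc e he).1, (hUc e he).2, (hU1 _ he).2.1⟩
        · intro e he
          by_cases h : (true, e) ∈ U
          · have h' := (ht e he).2 h
            simp only [Set.mem_ofPred_eq, if_pos h, if_pos h']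
          · have h' : ¬((true, e) ∈ U ∨ (false, e) ∈ U) := fun hh => h ((ht e he).1 hh)
            simp only [Set.mem_ofPred_eq, if_neg h, if_neg h']
      · refine h2.congr _ (hs2 {e | (false, e) ∈ U} ?_) _ ?_
        · intro e he
          exact ⟨(hUc' e he).1, (hUc' e he).2, (hU1 _ he).2.1⟩
        · intro e he
          by_cases h : (false, e) ∈ U
          · have h' := (hf e he).2 h
            simp only [Set.mem_ofPred_eq, if_pos h, if_pos h']
          · have h' : ¬((true, e) ∈ U ∨ (false, e) ∈ U) := fun hh => h ((hf e he).1 hh)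
            simp only [Set.mem_ofPred_eq, if_neg h, if_neg h']
      · intro e he
        have key : ((true, e) ∈ U ∨ (false, e) ∈ U) ↔ e ∈ S := by
          obtain ⟨p1, p2, p3⟩ := hleg e he
          by_cases hbe : b e = w
          · constructor
            · rintro (h | h)
              · exact absurd ((hc e he).trans hbe) (hUc e h).2
              · exact absurd ((hc e he).trans hbe) (hUc' e h).2
            · intro h
              exact absurd hbe (hS e h).2.1
          · have hmem := (hrho e he hbe).1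
            have h3 := hU2 _ hmem p3
            have h4 : (side e, e) ∈ U ↔ e ∈ S := by
              rw [h3]
              exact ⟨fun h => h.1, fun h => ⟨h, rfl⟩⟩
            have h5 : (!side e, e) ∉ U := by
              intro h
              exact p2 ((hH _).1 (hU1 _ h).1).1
            rw [← h4]
            cases hs : side e
            · rw [hs] at h5
              constructor
              · rintro (h | h)
                · exact absurd h h5
                · exact h
              · exact Or.inr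
            · rw [hs] at h5
              constructor
              · rintro (h | h)
                · exact h
                · exact absurd h h5
              · exact Or.inl
        by_cases h : e ∈ S
        · have h' := key.2 h
          simp only [if_pos h, if_pos h', hc e he]
        · have h' : ¬((true, e) ∈ U ∨ (false, e) ∈ U) := fun hh => h (key.1 hh)
          simp only [if_neg h, if_neg h', hc e he]

end Pool.Agent.Helper37.IE
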