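import Mathlib
import Pool.Agent.Helper37.IE.Defs
import Pool.Agent.Helper56.IE.Combine

/-! MP_7cf8d2, piece IE-4c: two sets with at least one joining edge.
`P = Option (P1 ⊕ P2)`, `X = X1 ∪ X2`, `comp v = none` if `v` is in the leg group (`OneLeg`) of its
part, else `some (inl (comp1 v))`, `some (inr (comp2 v))`; `h e = h1 e` if `e ∈ Touch K1`, else
`h2 e`; on a joining edge `h1 e = b e = h2 e`.  For `v ∈ K1` all edges at `v` touch `K1`, and an edge
at `v` is in `X` iff it is in `X1`, so `bd (rs Xᶜ h) v = bd (rs X1ᶜ h1) v`; for `v ∈ K2` similarly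
(on edges touching both, `h1 e = h2 e`).
`bal`: split the sum into the two parts.  `rob`: test with `y * 1_{K1}`, `y * 1_{K2}` (rotations
`z (none)` on the leg groups): `x` is constant on the leg group of `K1` and on the leg group of
`K2`, and equal at the two ends of a joining edge (both ends are in the leg groups). All legs of
`K1 ∪ K2` are legs of `K1` or `K2`, so they are at `none`. -/

namespace Pool.Agent.Helper37.IE

open Finset Pool.Agent.Helper49.CDC Pool.Agent.Helper37.GRT
open scoped Classical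

universe u v

variable {V : Type v} {E : Type u}

theorem glue_good [Fintype V] [Fintype E] (ends : E → Sym2 V) (hl : ∀ e, ¬ (ends e).IsDiag)
    (K1 K2 : Set V) (hd : Disjoint K1 K2) (hne : (Between ends K1 K2).Nonempty) (b : E → W)
    (h1 : Good ends K1 b) (h2 : Good ends K2 b) : Good ends (K1 ∪ K2) b := by
  obtain ⟨P1, i1, X1, comp1, f1, R1, ⟨p1, hp1⟩, hb1⟩ := h1
  obtain ⟨P2, i2, X2, comp2, f2, R2, ⟨p2, hp2⟩, hb2⟩ := h2
  have hd12 : ∀ v, v ∈ K1 → v ∉ K2 := fun v h1 h2 => Set.disjoint_left.1 hd h1 h2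
  have hd21 : ∀ v, v ∈ K2 → v ∉ K1 := fun v h2 h1 => Set.disjoint_left.1 hd h1 h2
  let j1 : P1 → Option (P1 ⊕ P2) := fun p => if p = p1 then none else some (Sum.inl p)
  let j2 : P2 → Option (P1 ⊕ P2) := fun p => if p = p2 then none else some (Sum.inr p)
  have hj1 : ∀ p, j1 p = none ↔ p = p1 := by
    intro p
    show (if p = p1 then none else some (Sum.inl p)) = none ↔ p = p1
    split_ifs with h
    · exact ⟨fun _ => h, fun _ => rfl⟩
    · exact ⟨fun h' => absurd h' (by simp), fun h' => absurd h' h⟩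
  have hj2 : ∀ p, j2 p = none ↔ p = p2 := by
    intro p
    show (if p = p2 then none else some (Sum.inr p)) = none ↔ p = p2
    split_ifs with h
    · exact ⟨fun _ => h, fun _ => rfl⟩
    · exact ⟨fun h' => absurd h' (by simp), fun h' => absurd h' h⟩
  have hi1 : Function.Injective j1 := by
    intro p q hpq
    by_cases hp : p = p1
    · have := (hj1 p).2 hp
      rw [hpq] at this
      rw [hp, (hj1 q).1 this]
    · by_cases hq : q = p1
      · have := (hj1 q).2 hq
        rw [← hpq] at this
        exact absurd ((hj1 p).1 this) hp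
      · change (if p = p1 then none else some (Sum.inl p)) =
          (if q = p1 then none else some (Sum.inl q)) at hpq
        rw [if_neg hp, if_neg hq] at hpq
        exact Sum.inl_injective (Option.some_injective _ hpq)
  have hi2 : Function.Injective j2 := by
    intro p q hpq
    by_cases hp : p = p2
    · have := (hj2 p).2 hp
      rw [hpq] at this
      rw [hp, (hj2 q).1 this]
    · by_cases hq : q = p2
      · have := (hj2 q).2 hq
        rw [← hpq] at this
        exact absurd ((hj2 p).1 this) hp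
      · change (if p = p2 then none else some (Sum.inr p)) =
          (if q = p2 then none else some (Sum.inr q)) at hpq
        rw [if_neg hp, if_neg hq] at hpq
        exact Sum.inr_injective (Option.some_injective _ hpq)
  have hjj : ∀ p q, j1 p = j2 q → p = p1 ∧ q = p2 := by
    intro p q hpq
    by_cases hp : p = p1
    · have := (hj1 p).2 hp
      rw [hpq] at this
      exact ⟨hp, (hj2 q).1 this⟩
    · by_cases hq : q = p2
      · have := (hj2 q).2 hq
        rw [← hpq] at this
        exact absurd ((hj1 p).1 this) hp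
      · change (if p = p1 then none else some (Sum.inl p)) =
          (if q = p2 then none else some (Sum.inr q)) at hpq
        rw [if_neg hp, if_neg hq] at hpq
        exact absurd (Option.some_injective _ hpq) (by simp)
  have hleg : ∀ e u w, ends e = s(u, w) → u ∈ K1 → w ∈ K2 →
      e ∈ Legs ends K1 ∧ e ∈ Legs ends K2 := by
    intro e u w hew hu hw
    rw [mem_legs_iff ends K1 e u w hew, mem_legs_iff ends K2 e u w hew]
    exact ⟨Or.inl ⟨hu, hd21 w hw⟩, Or.inr ⟨hd12 u hu, hw⟩⟩
  have hmem : ∀ e u w, ends e = s(u, w) → u ∈ ends e ∧ w ∈ ends e := by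
    intro e u w hew
    rw [hew]
    exact ⟨Sym2.mem_mk_left u w, Sym2.mem_mk_right u w⟩
  refine ⟨Option (P1 ⊕ P2), inferInstance, X1 ∪ X2, _, _, combine ends K1 K2 hd X1 X2 comp1 comp2
    f1 f2 R1 R2 j1 j2 hi1 hi2 ?_ ?_, ⟨none, ?_⟩, combine_legs hb1 hb2⟩
  · intro e u w hew hu hw
    obtain ⟨l1, l2⟩ := hleg e u w hew hu hw
    obtain ⟨m1, m2⟩ := hmem e u w hew
    refine ⟨?_, by rw [hb1 e l1, hb2 e l2]⟩
    rw [hp1 e l1 u m1 hu, hp2 e l2 w m2 hw, (hj1 p1).2 rfl, (hj2 p2).2 rfl]
  · intro x hx r1 r2 u hu w hw huw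
    obtain ⟨h1, h2⟩ := hjj _ _ huw
    obtain ⟨e, he⟩ := hne
    obtain ⟨a, ha, c, hc, hac⟩ := he
    obtain ⟨l1, l2⟩ := hleg e a c hac ha hc
    obtain ⟨m1, m2⟩ := hmem e a c hac
    have e1 : x a = x c := hx e ⟨a, ha, c, hc, hac⟩ a c hac
    have e2 : x u = x a := r1 u hu a ha (h1.trans (hp1 e l1 a m1 ha).symm)
    have e3 : x w = x c := r2 w hw c hc (h2.trans (hp2 e l2 c m2 hc).symm)
    rw [e2, e3, e1]
  · intro e he v hv hvK
    by_cases hv1 : v ∈ K1
    · show (if v ∈ K1 then j1 (comp1 v) else j2 (comp2 v)) = none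
      rw [if_pos hv1]
      exact (hj1 _).2 (hp1 e ((legs_of_union he).1 ⟨v, hv, hv1⟩) v hv hv1)
    · have hv2 : v ∈ K2 := hvK.resolve_left hv1
      show (if v ∈ K1 then j1 (comp1 v) else j2 (comp2 v)) = none
      rw [if_neg hv1]
      exact (hj2 _).2 (hp2 e ((legs_of_union he).2 ⟨v, hv, hv2⟩) v hv hv2)

end Pool.Agent.Helper37.IE
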