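import Mathlib
import Pool.Agent.Helper37.IE.Defs

/-! MP_7cf8d2, piece IE-5: the hub lemma.  `S` = the vertices of the cycle `X1`, `B` = the part with
legs (all in one group), `R` = the rest (no legs of the union, no edge to `B`). At most one leg of
the union is attached to `S`. -/

namespace Pool.Agent.Helper37.IE

open Finset Pool.Agent.Helper49.CDC Pool.Agent.Helper37.GRT
open scoped Classical

universe u v

variable {V : Type v} {E : Type u}

theorem sum_filter_irrel {α M : Type*} [AddCommMonoid M] (s : Finset α) (p : α → Prop)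
    (i j : DecidablePred p) (f : α → M) :
    ∑ a ∈ @Finset.filter α p i s, f a = ∑ a ∈ @Finset.filter α p j s, f a := by
  have : i = j := Subsingleton.elim _ _
  rw [this]

theorem robust_group_sum [Fintype V] [Fintype E] (ends : E → Sym2 V)
    (hl : ∀ e, ¬ (ends e).IsDiag) (K : Set V) (X : Set E) {P : Type u} (comp : V → P) (h : E → W)
    (hr : Robust ends K X comp h) (p : P) :
    ∑ e ∈ univ.filter (fun e => e ∈ Legs ends K ∧ ∃ v ∈ ends e, v ∈ K ∧ comp v = p), h e = 0 := by
  have h1 := hr.bal (fun _ => 1) (fun _ _ _ _ _ => rfl) p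
  simp only [one_smul] at h1
  have h2 := sum_bd_set ends hl {v | v ∈ K ∧ comp v = p} (rs Xᶜ h)
  have h3 : ∑ v ∈ univ.filter (fun v => v ∈ K ∧ comp v = p), bd ends (rs Xᶜ h) v =
      ∑ v ∈ univ.filter (fun v => v ∈ {v | v ∈ K ∧ comp v = p}), bd ends (rs Xᶜ h) v :=
    Finset.sum_congr (by ext v; simp) (fun _ _ => rfl)
  have h4 := Eq.trans (Eq.trans h1.symm (sum_filter_irrel _ _ _ _ _)) (h3.trans ((sum_filter_irrel _ _ _ _ _).trans h2))
  rw [h4, Finset.sum_filter, Finset.sum_filter]
  apply Finset.sum_congr rfl
  intro e _
  obtain ⟨a, c, hac⟩ := exists_ends ends e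
  have hL := mem_legs_iff ends K e a c hac
  have hLp := mem_legs_iff ends {v | v ∈ K ∧ comp v = p} e a c hac
  have hI := mem_inner_iff ends K e a c hac
  have hex : (∃ v ∈ ends e, v ∈ K ∧ comp v = p) ↔
      (a ∈ K ∧ comp a = p) ∨ (c ∈ K ∧ comp c = p) := by
    rw [hac]
    simp only [Sym2.mem_iff]
    constructor
    · rintro ⟨v, rfl | rfl, h⟩
      · exact Or.inl h
      · exact Or.inr h
    · rintro (h | h)
      · exact ⟨a, Or.inl rfl, h⟩
      · exact ⟨c, Or.inr rfl, h⟩
  simp only [Set.mem_setOf_eq] at hLp
  by_cases heX : e ∈ X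
  · have hin := hr.sub heX
    have hrs : rs Xᶜ h e = 0 := by simp [rs, heX]
    rw [hrs]
    have : e ∉ Legs ends K := fun hl => not_inner_of_legs ends K e hl hin
    rw [if_neg (fun h => this h.1), ite_self]
  · have hrs : rs Xᶜ h e = h e := by simp [rs, heX]
    rw [hrs]
    have hcc : a ∈ K → c ∈ K → comp a = comp c := fun ha hc =>
      hr.inner e (hI.2 ⟨ha, hc⟩) heX a c hac
    have hiff : (e ∈ Legs ends K ∧ ((a ∈ K ∧ comp a = p) ∨ (c ∈ K ∧ comp c = p))) ↔
        e ∈ Legs ends {v | v ∈ K ∧ comp v = p} := by
      rw [hL, hLp]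
      by_cases ha : a ∈ K <;> by_cases hc : c ∈ K
      · have := hcc ha hc
        simp [ha, hc, this]
      · simp [ha, hc]
      · simp [ha, hc]
      · simp [ha, hc]
    exact if_congr ((and_congr_right (fun _ => hex)).trans hiff) rfl rfl

theorem card_zero_of [Fintype E] {p q : E → Prop} {i : DecidablePred (fun e => p e ∧ q e)}
    (h : ∀ e, p e → q e → False) :
    (@Finset.filter E (fun e => p e ∧ q e) i univ).card = 0 := by
  rw [Finset.card_eq_zero, Finset.filter_eq_empty_iff]
  rintro e - ⟨h1, h2⟩
  exact h e h1 h2

theorem deg02_congr [Fintype E] (ends : E → Sym2 V) (X Y : Set E) (v : V)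
    (h : ∀ e, v ∈ ends e → (e ∈ X ↔ e ∈ Y)) (hd : Deg02 ends Y v) : Deg02 ends X v := by
  unfold Deg02 at *
  have key : (univ.filter (fun e => v ∈ ends e ∧ e ∈ X)).card =
      (univ.filter (fun e => v ∈ ends e ∧ e ∈ Y)).card := by
    congr 1
    ext e
    simp only [Finset.mem_filter, Finset.mem_univ, true_and, and_congr_right_iff]
    exact fun he => h e he
  rcases hd with hd | hd
  · left; exact key.trans hd
  · right; exact key.trans hd

private theorem hub_prop (aS cS aB cB aR cR : Prop)
    (h4 : ¬((aB ∧ cR) ∨ (cB ∧ aR)))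
    (h5 : (((aS ∨ aB) ∨ aR) ∧ ¬ ((cS ∨ cB) ∨ cR) ∨ ¬ ((aS ∨ aB) ∨ aR) ∧ ((cS ∨ cB) ∨ cR)) →
      ¬ (aR ∨ cR))
    (h6 : aS → ¬ aR) (h7 : cS → ¬ cR) :
    (aR ∧ ¬cR) ∨ (¬aR ∧ cR) ↔ ((aS ∧ ¬cS) ∨ (¬aS ∧ cS)) ∧ (aR ∨ cR) := by
  by_cases k1 : aR
  · have k2 : ¬ aS := fun h => h6 h k1
    by_cases k3 : cR
    · have k4 : ¬ cS := fun h => h7 h k3
      simp [k1, k2, k3, k4]
    · have k4 : ¬ cB := fun h => h4 (Or.inr ⟨h, k1⟩)
      have k5 : cS := by
        by_contra k
        refine h5 (Or.inl ⟨Or.inr k1, ?_⟩) (Or.inl k1)
        rintro ((h | h) | h)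
        · exact k h
        · exact k4 h
        · exact k3 h
      simp [k1, k2, k3, k5]
  · by_cases k3 : cR
    · have k4 : ¬ cS := fun h => h7 h k3
      have k5 : ¬ aB := fun h => h4 (Or.inl ⟨h, k3⟩)
      have k6 : aS := by
        by_contra k
        refine h5 (Or.inr ⟨?_, Or.inr k3⟩) (Or.inr k3)
        rintro ((h | h) | h)
        · exact k h
        · exact k5 h
        · exact k1 h
      simp [k1, k3, k4, k6]
    · simp [k1, k3]

theorem hub_good [Fintype V] [Fintype E] (ends : E → Sym2 V) (hl : ∀ e, ¬ (ends e).IsDiag)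
    (X1 : Set E) (hX1 : IsCycle ends X1) (S B R : Set V) (hS : S = verts ends X1)
    (hcub : CubicOn ends S) (hSB : Disjoint S B) (hSR : Disjoint S R) (hBR : Disjoint B R)
    (hno : Between ends B R = ∅)
    (hR : ∀ e ∈ Legs ends (S ∪ B ∪ R), e ∉ Touch ends R)
    (hS1 : ∀ e ∈ Legs ends (S ∪ B ∪ R), ∀ e' ∈ Legs ends (S ∪ B ∪ R), e ∈ Touch ends S →
      e' ∈ Touch ends S → e = e')
    (b : E → W) (hb : b ∈ AllL ends S) (hB : Good ends B b) (hRb : GoodM ends R b) :
    ∃ (P : Type u) (_ : Fintype P) (X : Set E) (comp : V → P) (h : E → W),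
      X1 ⊆ X ∧ Robust ends (S ∪ B ∪ R) X comp h ∧ OneLeg ends (S ∪ B ∪ R) comp ∧
        ∀ e ∈ Legs ends (S ∪ B ∪ R), h e = b e := by
  obtain ⟨PB, iPB, XB, cB, hBf, rB, ⟨p0, hp0⟩, hBl⟩ := hB
  obtain ⟨PR, iPR, XR, cR, hRf, rR, hRl⟩ := hRb
  have dSB : ∀ v, v ∈ S → v ∉ B := fun v h1 h2 => Set.disjoint_left.1 hSB h1 h2
  have dSR : ∀ v, v ∈ S → v ∉ R := fun v h1 h2 => Set.disjoint_left.1 hSR h1 h2
  have dBR : ∀ v, v ∈ B → v ∉ R := fun v h1 h2 => Set.disjoint_left.1 hBR h1 h2
  have sub1 : X1 ⊆ Inner ends S := by
    intro e he v hv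
    rw [hS]
    exact ⟨e, he, hv⟩
  -- the edge off X1
  have hoe : ∀ v, ∃ e, v ∈ S → v ∈ ends e ∧ e ∉ X1 ∧ ∀ e', v ∈ ends e' → e' ∉ X1 → e' = e := by
    intro v
    by_cases hv : v ∈ S
    · have h3 := hcub v hv
      have h2 := cycle_two hX1 v (hS ▸ hv)
      have h1 : (univ.filter (fun e => v ∈ ends e ∧ e ∉ X1)).card = 1 := by
        have h4 := Finset.card_filter_add_card_filter_not (s := univ.filter (fun e => v ∈ ends e))
          (fun e => e ∈ X1)
        rw [Finset.filter_filter, Finset.filter_filter, h3, h2] at h4
        omega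
      obtain ⟨e, he⟩ := Finset.card_eq_one.1 h1
      have hme : e ∈ univ.filter (fun e => v ∈ ends e ∧ e ∉ X1) := by rw [he]; simp
      simp only [Finset.mem_filter, Finset.mem_univ, true_and] at hme
      refine ⟨e, fun _ => ⟨hme.1, hme.2, ?_⟩⟩
      intro e' h5 h6
      have : e' ∈ univ.filter (fun e => v ∈ ends e ∧ e ∉ X1) := by simp [h5, h6]
      rw [he] at this
      simpa using this
    · obtain ⟨e, he, -⟩ : ∃ e ∈ X1, True := by
        obtain ⟨n, vv, ee, hn, -, -, -, hr⟩ := hX1
        exact ⟨ee 0, by rw [← hr]; exact ⟨0, rfl⟩, trivial⟩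
      exact ⟨e, fun h => absurd h hv⟩
  choose oe hoe using hoe
  -- membership in X
  set X : Set E := X1 ∪ XB ∪ XR with hX
  have xa : ∀ v e, v ∈ S → v ∈ ends e → (e ∈ X ↔ e ∈ X1) := by
    intro v e hv he
    constructor
    · rintro ((h | h) | h)
      · exact h
      · exact absurd (rB.sub h v he) (dSB v hv)
      · exact absurd (rR.sub h v he) (dSR v hv)
    · exact fun h => Or.inl (Or.inl h)
  have xb : ∀ v e, v ∈ B → v ∈ ends e → (e ∈ X ↔ e ∈ XB) := by
    intro v e hv he
    constructor
    · rintro ((h | h) | h)
      · exact absurd hv (dSB v (sub1 h v he))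
      · exact h
      · exact absurd (rR.sub h v he) (dBR v hv)
    · exact fun h => Or.inl (Or.inr h)
  have xr : ∀ v e, v ∈ R → v ∈ ends e → (e ∈ X ↔ e ∈ XR) := by
    intro v e hv he
    constructor
    · rintro ((h | h) | h)
      · exact absurd hv (dSR v (sub1 h v he))
      · exact absurd hv (dBR v (rB.sub h v he))
      · exact h
    · exact fun h => Or.inr h
  have xn : ∀ v e, v ∉ S ∪ B ∪ R → v ∈ ends e → e ∉ X := by
    intro v e hv he
    rintro ((h | h) | h)
    · exact hv (Or.inl (Or.inl (sub1 h v he)))
    · exact hv (Or.inl (Or.inr (rB.sub h v he)))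
    · exact hv (Or.inr (rR.sub h v he))
  -- the values
  set h : E → W := fun e => if e ∈ Touch ends B then hBf e else if e ∈ Touch ends R then hRf e
    else if e ∈ Inner ends S then (1, 0) else b e with hh
  have hhB : ∀ e, e ∈ Touch ends B → h e = hBf e := by
    intro e he
    simp only [hh, if_pos he]
  have hTBR : ∀ e, e ∈ Touch ends R → e ∉ Touch ends B := by
    intro e he1 he2
    obtain ⟨a, c, hac⟩ := exists_ends ends e
    rw [mem_touch_iff ends R e a c hac] at he1
    rw [mem_touch_iff ends B e a c hac] at he2
    have hb0 : e ∉ Between ends B R := by rw [hno]; simp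
    rw [mem_between_iff ends B R e a c hac] at hb0
    have := dBR a
    have := dBR c
    tauto
  have hhR : ∀ e, e ∈ Touch ends R → h e = hRf e := by
    intro e he
    simp only [hh, if_neg (hTBR e he), if_pos he]
  -- legs of B and R
  have hlegB : ∀ e, e ∈ Touch ends B → e ∉ Inner ends B → e ∈ Legs ends B := by
    intro e h1 h2
    rw [touch_eq] at h1
    exact h1.resolve_left h2
  have hlegR : ∀ e, e ∈ Touch ends R → e ∉ Inner ends R → e ∈ Legs ends R := by
    intro e h1 h2
    rw [touch_eq] at h1
    exact h1.resolve_left h2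
  have hhleg : ∀ e, e ∈ Touch ends S → e ∉ Inner ends S → h e = b e := by
    intro e h1 h2
    by_cases hb1 : e ∈ Touch ends B
    · rw [hhB e hb1]
      apply hBl
      apply hlegB e hb1
      intro h3
      obtain ⟨v, hv, hvS⟩ := h1
      exact dSB v hvS (h3 v hv)
    · by_cases hr1 : e ∈ Touch ends R
      · rw [hhR e hr1]
        apply hRl
        apply hlegR e hr1
        intro h3
        obtain ⟨v, hv, hvS⟩ := h1
        exact dSR v hvS (h3 v hv)
      · simp only [hh, if_neg hb1, if_neg hr1, if_neg h2]
  have hlegS_iff : ∀ e, e ∈ Legs ends S ↔ e ∈ Touch ends S ∧ e ∉ Inner ends S := by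
    intro e
    rw [touch_eq]
    constructor
    · intro h1
      exact ⟨Or.inr h1, not_inner_of_legs ends S e h1⟩
    · rintro ⟨h1 | h1, h2⟩
      · exact absurd h1 h2
      · exact h1
  -- boundaries
  have kB : ∀ v ∈ B, bd ends (rs Xᶜ h) v = bd ends (rs XBᶜ hBf) v := by
    intro v hv
    unfold bd
    apply Finset.sum_congr rfl
    intro e he
    have he' := (Finset.mem_filter.1 he).2
    unfold rs
    have h1 := xb v e hv he'
    have h2 := hhB e ⟨v, he', hv⟩
    by_cases h3 : e ∈ XB
    · simp [h1, h3]
    · simp [h1, h3, h2]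
  have kR : ∀ v ∈ R, bd ends (rs Xᶜ h) v = bd ends (rs XRᶜ hRf) v := by
    intro v hv
    unfold bd
    apply Finset.sum_congr rfl
    intro e he
    have he' := (Finset.mem_filter.1 he).2
    unfold rs
    have h1 := xr v e hv he'
    have h2 := hhR e ⟨v, he', hv⟩
    by_cases h3 : e ∈ XR
    · simp [h1, h3]
    · simp [h1, h3, h2]
  have kφ : ∀ (φ : E → W), ∀ v ∈ S, bd ends (rs X1ᶜ φ) v = φ (oe v) := by
    intro φ v hv
    obtain ⟨h1, h2, h3⟩ := hoe v hv
    unfold bd
    rw [Finset.sum_eq_single_of_mem (oe v) (by simp [h1])]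
    · simp [rs, h2]
    · intro e he hne
      have he' := (Finset.mem_filter.1 he).2
      have : e ∈ X1 := by
        by_contra h4
        exact hne (h3 e he' h4)
      simp [rs, this]
  have kS : ∀ v ∈ S, bd ends (rs Xᶜ h) v = h (oe v) := by
    intro v hv
    rw [← kφ h v hv]
    unfold bd
    apply Finset.sum_congr rfl
    intro e he
    have he' := (Finset.mem_filter.1 he).2
    unfold rs
    have h1 := xa v e hv he'
    by_cases h3 : e ∈ X1
    · simp [h1, h3]
    · simp [h1, h3]
  have sumS : ∀ φ : E → W, ∑ v ∈ univ.filter (fun v => v ∈ S), φ (oe v) =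
      ∑ e ∈ univ.filter (fun e => e ∈ Legs ends S), φ e := by
    intro φ
    have h1 := sum_bd_set ends hl S (rs X1ᶜ φ)
    have h2 : ∑ v ∈ univ.filter (fun v => v ∈ S), bd ends (rs X1ᶜ φ) v =
        ∑ v ∈ univ.filter (fun v => v ∈ S), φ (oe v) := by
      apply Finset.sum_congr rfl
      intro v hv
      exact kφ φ v (by simpa using hv)
    have h3 : ∑ e ∈ univ.filter (fun e => e ∈ Legs ends S), rs X1ᶜ φ e =
        ∑ e ∈ univ.filter (fun e => e ∈ Legs ends S), φ e := by
      apply Finset.sum_congr rfl
      intro e he
      have he' : e ∈ Legs ends S := by simpa using he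
      have : e ∉ X1 := fun h4 => not_inner_of_legs ends S e he' (sub1 h4)
      simp [rs, this]
    rw [← h2, h1, h3]
  have sum3 : ∀ F : V → W, ∑ v ∈ univ.filter (fun v => v ∈ S ∪ B ∪ R), F v =
      ∑ v ∈ univ.filter (fun v => v ∈ S), F v + ∑ v ∈ univ.filter (fun v => v ∈ B), F v +
        ∑ v ∈ univ.filter (fun v => v ∈ R), F v := by
    intro F
    simp only [Finset.sum_filter]
    rw [← Finset.sum_add_distrib, ← Finset.sum_add_distrib]
    apply Finset.sum_congr rfl
    intro v _
    have h1 := dSB v
    have h2 := dSR v
    have h3 := dBR v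
    by_cases hvS : v ∈ S
    · simp [hvS, h1 hvS, h2 hvS]
    · by_cases hvB : v ∈ B
      · simp [hvS, hvB, h3 hvB]
      · by_cases hvR : v ∈ R
        · simp [hvS, hvB, hvR]
        · simp [hvS, hvB, hvR]
  -- end in R
  have hrend : ∀ e, ∃ w, e ∈ Touch ends R → w ∈ ends e ∧ w ∈ R := by
    intro e
    by_cases he : e ∈ Touch ends R
    · obtain ⟨w, h1, h2⟩ := he
      exact ⟨w, fun _ => ⟨h1, h2⟩⟩
    · obtain ⟨a, c, hac⟩ := exists_ends ends e
      exact ⟨a, fun h => absurd h he⟩
  choose rend hrend using hrend
  -- legs of R are legs of S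
  have hRS : ∀ e, e ∈ Legs ends R ↔ e ∈ Legs ends S ∧ e ∈ Touch ends R := by
    intro e
    obtain ⟨a, c, hac⟩ := exists_ends ends e
    have h1 := mem_legs_iff ends R e a c hac
    have h2 := mem_legs_iff ends S e a c hac
    have h3 := mem_touch_iff ends R e a c hac
    have h4 : e ∉ Between ends B R := by rw [hno]; simp
    rw [mem_between_iff ends B R e a c hac] at h4
    have h5 := hR e
    rw [mem_legs_iff ends _ e a c hac, h3] at h5
    simp only [Set.mem_union] at h5
    rw [h1, h2, h3]
    exact hub_prop _ _ _ _ _ _ h4 h5 (dSR a) (dSR c)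
  have hRrend : ∀ e, e ∈ Legs ends R → ∀ v ∈ ends e, v ∈ R → v = rend e := by
    intro e he v hv hvR
    have h1 : e ∈ Touch ends R := ⟨v, hv, hvR⟩
    obtain ⟨h2, h3⟩ := hrend e h1
    obtain ⟨a, c, hac⟩ := exists_ends ends e
    rw [mem_legs_iff ends R e a c hac] at he
    rw [hac, Sym2.mem_iff] at hv h2
    rcases hv with h | h <;> rcases h2 with h' | h'
    · rw [h, h']
    · rw [h] at hvR; rw [h'] at h3; tauto
    · rw [h] at hvR; rw [h'] at h3; tauto
    · rw [h, h']
  -- group map on edges at S
  let cE : E → Option (PB ⊕ PR ⊕ E) := fun e =>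
    if e ∈ Touch ends R then some (Sum.inr (Sum.inl (cR (rend e))))
    else if e ∈ Inner ends S then some (Sum.inr (Sum.inr e)) else none
  let comp : V → Option (PB ⊕ PR ⊕ E) := fun v =>
    if v ∈ B then (if cB v = p0 then none else some (Sum.inl (cB v)))
    else if v ∈ R then some (Sum.inr (Sum.inl (cR v)))
    else if v ∈ S then cE (oe v) else none
  have compB : ∀ v ∈ B, comp v = if cB v = p0 then none else some (Sum.inl (cB v)) := by
    intro v hv
    simp only [comp, if_pos hv]
  have compR : ∀ v ∈ R, comp v = some (Sum.inr (Sum.inl (cR v))) := by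
    intro v hv
    have : v ∉ B := fun h => dBR v h hv
    simp only [comp, if_neg this, if_pos hv]
  have compS : ∀ v ∈ S, comp v = cE (oe v) := by
    intro v hv
    simp only [comp, if_neg (dSB v hv), if_neg (dSR v hv), if_pos hv]
  have cEcases : ∀ e, (e ∈ Touch ends R ∧ cE e = some (Sum.inr (Sum.inl (cR (rend e))))) ∨
      (e ∉ Touch ends R ∧ e ∈ Inner ends S ∧ cE e = some (Sum.inr (Sum.inr e))) ∨
      (e ∉ Touch ends R ∧ e ∉ Inner ends S ∧ cE e = none) := by
    intro e
    by_cases h1 : e ∈ Touch ends R
    · left; exact ⟨h1, by simp only [cE, if_pos h1]⟩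
    · by_cases h2 : e ∈ Inner ends S
      · right; left; exact ⟨h1, h2, by simp only [cE, if_neg h1, if_pos h2]⟩
      · right; right; exact ⟨h1, h2, by simp only [cE, if_neg h1, if_neg h2]⟩
  -- sums over the legs of R
  have sumRq : ∀ q, ∑ e ∈ univ.filter (fun e => e ∈ Legs ends R ∧ cR (rend e) = q), b e = 0 := by
    intro q
    have h1 := robust_group_sum ends hl R XR cR hRf rR q
    rw [← h1]
    have h2 : univ.filter (fun e => e ∈ Legs ends R ∧ cR (rend e) = q) =
        univ.filter (fun e => e ∈ Legs ends R ∧ ∃ v ∈ ends e, v ∈ R ∧ cR v = q) := by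
      ext e
      simp only [Finset.mem_filter, Finset.mem_univ, true_and]
      constructor
      · rintro ⟨h3, h4⟩
        have h5 : e ∈ Touch ends R := by rw [touch_eq]; exact Or.inr h3
        exact ⟨h3, rend e, (hrend e h5).1, (hrend e h5).2, h4⟩
      · rintro ⟨h3, v, hv, hvR, hq⟩
        refine ⟨h3, ?_⟩
        rw [← hRrend e h3 v hv hvR, hq]
    rw [h2]
    apply Finset.sum_congr rfl
    intro e he
    exact (hRl e (by simpa using (Finset.mem_filter.1 he).2.1)).symm
  have sumRz : ∀ (f : PR → W →+ W), ∑ e ∈ univ.filter (fun e => e ∈ Legs ends R),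
      f (cR (rend e)) (b e) = 0 := by
    intro f
    rw [← Finset.sum_fiberwise _ (fun e => cR (rend e))]
    apply Finset.sum_eq_zero
    intro q _
    rw [Finset.filter_filter]
    have h1 : ∑ e ∈ univ.filter (fun e => e ∈ Legs ends R ∧ cR (rend e) = q),
        f (cR (rend e)) (b e) = f q (∑ e ∈ univ.filter
          (fun e => e ∈ Legs ends R ∧ cR (rend e) = q), b e) := by
      rw [map_sum]
      apply Finset.sum_congr rfl
      intro e he
      rw [(Finset.mem_filter.1 he).2.2]
    rw [h1, sumRq, map_zero]
  have hbsum : ∑ e ∈ univ.filter (fun e => e ∈ Legs ends S), b e = 0 := hb.2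
  have hsplit : ∀ (F : E → W), ∑ e ∈ univ.filter (fun e => e ∈ Legs ends S), F e =
      ∑ e ∈ univ.filter (fun e => e ∈ Legs ends R), F e +
        ∑ e ∈ univ.filter (fun e => e ∈ Legs ends S ∧ e ∉ Touch ends R), F e := by
    intro F
    rw [← Finset.sum_filter_add_sum_filter_not (univ.filter (fun e => e ∈ Legs ends S))
      (fun e => e ∈ Touch ends R), Finset.filter_filter, Finset.filter_filter]
    congr 1
    apply Finset.sum_congr _ (fun _ _ => rfl)
    ext e
    simp only [Finset.mem_filter, Finset.mem_univ, true_and]
    exact (hRS e).symm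
  have hnone : ∑ e ∈ univ.filter (fun e => e ∈ Legs ends S ∧ e ∉ Touch ends R), b e = 0 := by
    have h1 := hsplit b
    have h2 := sumRz (fun _ => AddMonoidHom.id W)
    simp only [AddMonoidHom.id_apply] at h2
    rw [hbsum, h2, zero_add] at h1
    exact h1.symm
  -- constant on S
  have hconS : ∀ y : V → ZMod 2, Con ends X y → ∃ c, ∀ v ∈ S, y v = c := by
    intro y hy
    obtain ⟨c, hc⟩ := cycle_const hX1 y (fun e he => hy e (Or.inl (Or.inl he)))
    exact ⟨c, fun v hv => hc v (hS ▸ hv)⟩
  -- inner edges of the parts
  have inS : ∀ e, e ∈ Inner ends S → e ∈ Inner ends (S ∪ B ∪ R) :=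
    fun e he v hv => Or.inl (Or.inl (he v hv))
  have inB : ∀ e, e ∈ Inner ends B → e ∈ Inner ends (S ∪ B ∪ R) :=
    fun e he v hv => Or.inl (Or.inr (he v hv))
  have inR : ∀ e, e ∈ Inner ends R → e ∈ Inner ends (S ∪ B ∪ R) :=
    fun e he v hv => Or.inr (he v hv)
  -- the edge off X1 at a vertex of S
  have offX : ∀ v ∈ S, oe v ∉ X := by
    intro v hv h1
    obtain ⟨h2, h3, -⟩ := hoe v hv
    exact h3 ((xa v _ hv h2).1 h1)
  -- legs of the union
  have legK : ∀ e, e ∈ Legs ends (S ∪ B ∪ R) → e ∉ Touch ends R ∧ e ∉ Inner ends S := by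
    intro e he
    refine ⟨hR e he, fun h1 => not_inner_of_legs ends _ e he (inS e h1)⟩
  refine ⟨Option (PB ⊕ PR ⊕ E), inferInstance, X, comp, h, fun e he => Or.inl (Or.inl he),
    ⟨?_, ?_, ?_, ?_, ?_, ?_⟩, ⟨none, ?_⟩, ?_⟩
  · -- sub
    rintro e ((he | he) | he)
    · exact inS e (sub1 he)
    · exact inB e (rB.sub he)
    · exact inR e (rR.sub he)
  · -- deg
    intro v
    by_cases hvS : v ∈ S
    · right
      rw [← cycle_two hX1 v (hS ▸ hvS)]
      congr 1
      ext e
      simp only [Finset.mem_filter, Finset.mem_univ, true_and, and_congr_right_iff]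
      exact fun he => xa v e hvS he
    · by_cases hvB : v ∈ B
      · exact deg02_congr ends X XB v (fun e he => xb v e hvB he) (rB.deg v)
      · by_cases hvR : v ∈ R
        · exact deg02_congr ends X XR v (fun e he => xr v e hvR he) (rR.deg v)
        · left
          apply card_zero_of
          rintro e h1 h2
          refine xn v e ?_ h1 h2
          rintro ((h | h) | h)
          · exact hvS h
          · exact hvB h
          · exact hvR h
  · -- inner
    intro e he heX a c hac
    have key : ∀ a c, ends e = s(a, c) → a ∈ S → comp a = comp c := by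
      intro a c hac ha
      have hae : a ∈ ends e := by rw [hac]; simp
      have hce : c ∈ ends e := by rw [hac]; simp
      have heX1 : e ∉ X1 := fun h1 => heX (Or.inl (Or.inl h1))
      have hea : e = oe a := (hoe a ha).2.2 e hae heX1
      rw [compS a ha, ← hea]
      rcases he c hce with (hc | hc) | hc
      · have hec : e = oe c := (hoe c hc).2.2 e hce heX1
        rw [compS c hc, ← hec]
      · -- c in B
        have h1 : e ∈ Legs ends B := by
          rw [mem_legs_iff ends B e a c hac]
          exact Or.inr ⟨dSB a ha, hc⟩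
        have h2 := hp0 e h1 c hce hc
        rw [compB c hc, if_pos h2]
        rcases cEcases e with ⟨h3, -⟩ | ⟨-, h3, -⟩ | ⟨-, -, h3⟩
        · exact absurd ⟨c, hce, hc⟩ (hTBR e h3)
        · exact absurd hc (dSB c (h3 c hce))
        · exact h3
      · have h1 : e ∈ Touch ends R := ⟨c, hce, hc⟩
        have h2 : e ∈ Legs ends R := by
          rw [mem_legs_iff ends R e a c hac]
          exact Or.inr ⟨dSR a ha, hc⟩
        rw [compR c hc, hRrend e h2 c hce hc]
        rcases cEcases e with ⟨-, h3⟩ | ⟨h3, -, -⟩ | ⟨h3, -, -⟩
        · exact h3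
        · exact absurd h1 h3
        · exact absurd h1 h3
    have hae : a ∈ ends e := by rw [hac]; simp
    have hce : c ∈ ends e := by rw [hac]; simp
    rcases he a hae with (ha | ha) | ha
    · exact key a c hac ha
    · rcases he c hce with (hc | hc) | hc
      · exact (key c a (by rw [hac, Sym2.eq_swap]) hc).symm
      · have h1 : e ∈ Inner ends B := (mem_inner_iff ends B e a c hac).2 ⟨ha, hc⟩
        have h2 := rB.inner e h1 (fun h => heX (Or.inl (Or.inr h))) a c hac
        rw [compB a ha, compB c hc, h2]
      · exfalso
        have : e ∈ Between ends B R := (mem_between_iff ends B R e a c hac).2 (Or.inl ⟨ha, hc⟩)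
        rw [hno] at this
        exact this
    · rcases he c hce with (hc | hc) | hc
      · exact (key c a (by rw [hac, Sym2.eq_swap]) hc).symm
      · exfalso
        have : e ∈ Between ends B R := (mem_between_iff ends B R e a c hac).2 (Or.inr ⟨hc, ha⟩)
        rw [hno] at this
        exact this
      · have h1 : e ∈ Inner ends R := (mem_inner_iff ends R e a c hac).2 ⟨ha, hc⟩
        have h2 := rR.inner e h1 (fun h => heX (Or.inr h)) a c hac
        rw [compR a ha, compR c hc, h2]
  · -- nz
    intro e he heX
    by_cases h1 : e ∈ Touch ends B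
    · rw [hhB e h1]
      exact rB.nz e h1 (fun h => heX (Or.inl (Or.inr h)))
    · by_cases h2 : e ∈ Touch ends R
      · rw [hhR e h2]
        exact rR.nz e h2 (fun h => heX (Or.inr h))
      · by_cases h3 : e ∈ Inner ends S
        · simp only [hh, if_neg h1, if_neg h2, if_pos h3]
          decide
        · have h4 : e ∈ Touch ends S := by
            obtain ⟨v, hv, (hvK | hvK) | hvK⟩ := he
            · exact ⟨v, hv, hvK⟩
            · exact absurd ⟨v, hv, hvK⟩ h1
            · exact absurd ⟨v, hv, hvK⟩ h2
          rw [hhleg e h4 h3]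
          exact hb.1 e ((hlegS_iff e).2 ⟨h4, h3⟩)
  · -- bal
    intro y hy p
    obtain ⟨c, hc⟩ := hconS y hy
    have hyB : Con ends XB y := fun e he => hy e (Or.inl (Or.inr he))
    have hyR : Con ends XR y := fun e he => hy e (Or.inr he)
    have h0 : ∑ v ∈ univ.filter (fun v => v ∈ S ∪ B ∪ R ∧ comp v = p),
        y v • bd ends (rs Xᶜ h) v = ∑ v ∈ univ.filter (fun v => v ∈ S ∪ B ∪ R),
          (if comp v = p then y v • bd ends (rs Xᶜ h) v else 0) := by
      rw [← Finset.filter_filter, Finset.sum_filter]
    refine (Eq.trans (sum_filter_irrel _ _ _ _ _) h0).trans ?_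
    rw [sum3]
    have hSpart : ∑ v ∈ univ.filter (fun v => v ∈ S),
        (if comp v = p then y v • bd ends (rs Xᶜ h) v else 0) = 0 := by
      have h1 : ∑ v ∈ univ.filter (fun v => v ∈ S),
          (if comp v = p then y v • bd ends (rs Xᶜ h) v else 0) =
          ∑ v ∈ univ.filter (fun v => v ∈ S),
            (fun e => if cE e = p then c • h e else 0) (oe v) := by
        apply Finset.sum_congr rfl
        intro v hv
        have hv' : v ∈ S := by simpa using hv
        rw [compS v hv', kS v hv', hc v hv']
      rw [h1]
      refine (sumS (fun e => if cE e = p then c • h e else 0)).trans ?_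
      rw [hsplit]
      have h2 : ∀ e, e ∈ Legs ends S → h e = b e := by
        intro e he
        have := (hlegS_iff e).1 he
        exact hhleg e this.1 this.2
      have h3 : ∑ e ∈ univ.filter (fun e => e ∈ Legs ends R),
          (if cE e = p then c • h e else 0) = 0 := by
        let f : PR → W →+ W := fun q => if some (Sum.inr (Sum.inl q)) = p then
          (DistribSMul.toAddMonoidHom W c) else 0
        refine Eq.trans ?_ (sumRz f)
        apply Finset.sum_congr rfl
        intro e he
        have he' : e ∈ Legs ends R := by simpa using he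
        have he2 := (hRS e).1 he'
        rcases cEcases e with ⟨h4, h5⟩ | ⟨h4, -, -⟩ | ⟨h4, -, -⟩
        · rw [h5, h2 e he2.1]
          simp only [f]
          split_ifs
          · rfl
          · rfl
        · exact absurd he2.2 h4
        · exact absurd he2.2 h4
      have h4 : ∑ e ∈ univ.filter (fun e => e ∈ Legs ends S ∧ e ∉ Touch ends R),
          (if cE e = p then c • h e else 0) = 0 := by
        by_cases hp : none = p
        · have h5 : ∑ e ∈ univ.filter (fun e => e ∈ Legs ends S ∧ e ∉ Touch ends R),
              (if cE e = p then c • h e else 0) =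
              c • ∑ e ∈ univ.filter (fun e => e ∈ Legs ends S ∧ e ∉ Touch ends R), b e := by
            rw [Finset.smul_sum]
            apply Finset.sum_congr rfl
            intro e he
            have he' : e ∈ Legs ends S ∧ e ∉ Touch ends R := by simpa using he
            rcases cEcases e with ⟨h4, -⟩ | ⟨-, h4, -⟩ | ⟨-, -, h4⟩
            · exact absurd h4 he'.2
            · exact absurd h4 (not_inner_of_legs ends S e he'.1)
            · rw [h4, if_pos hp, h2 e he'.1]
          rw [h5, hnone, smul_zero]
        · apply Finset.sum_eq_zero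
          intro e he
          have he' : e ∈ Legs ends S ∧ e ∉ Touch ends R := by simpa using he
          rcases cEcases e with ⟨h4, -⟩ | ⟨-, h4, -⟩ | ⟨-, -, h4⟩
          · exact absurd h4 he'.2
          · exact absurd h4 (not_inner_of_legs ends S e he'.1)
          · rw [h4, if_neg hp]
      rw [h3, h4, add_zero]
    have hBpart : ∑ v ∈ univ.filter (fun v => v ∈ B),
        (if comp v = p then y v • bd ends (rs Xᶜ h) v else 0) = 0 := by
      have h1 : ∃ q : Option PB, ∀ v ∈ B, comp v = p ↔ some (cB v) = q := by
        rcases p with _ | (p | p)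
        · refine ⟨some p0, fun v hv => ?_⟩
          rw [compB v hv]
          split_ifs with h5
          · simp [h5]
          · simp [h5]
        · by_cases hpp : p = p0
          · refine ⟨none, fun v hv => ?_⟩
            rw [compB v hv]
            split_ifs with h5
            · simp
            · simp only [Option.some.injEq, Sum.inl.injEq, reduceCtorEq, iff_false]
              rw [hpp]
              exact h5
          · refine ⟨some p, fun v hv => ?_⟩
            rw [compB v hv]
            split_ifs with h5
            · simp only [reduceCtorEq, Option.some.injEq, false_iff]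
              rw [h5]
              exact Ne.symm hpp
            · simp
        · refine ⟨none, fun v hv => ?_⟩
          rw [compB v hv]
          split_ifs with h5 <;> simp
      obtain ⟨q, hq⟩ := h1
      rcases q with _ | q
      · apply Finset.sum_eq_zero
        intro v hv
        have hv' : v ∈ B := by simpa using hv
        rw [if_neg]
        rw [hq v hv']
        simp
      · have h6 : ∑ v ∈ univ.filter (fun v => v ∈ B ∧ cB v = q),
            y v • bd ends (rs XBᶜ hBf) v = ∑ v ∈ univ.filter (fun v => v ∈ B),
            (if cB v = q then y v • bd ends (rs XBᶜ hBf) v else 0) := by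
          rw [← Finset.filter_filter, Finset.sum_filter]
        refine Eq.trans ?_ (h6.symm.trans (rB.bal y hyB q))
        apply Finset.sum_congr rfl
        intro v hv
        have hv' : v ∈ B := by simpa using hv
        rw [kB v hv']
        refine if_congr ?_ rfl rfl
        rw [hq v hv']
        simp
    have hRpart : ∑ v ∈ univ.filter (fun v => v ∈ R),
        (if comp v = p then y v • bd ends (rs Xᶜ h) v else 0) = 0 := by
      by_cases h1 : ∃ q, some (Sum.inr (Sum.inl q)) = p
      · obtain ⟨q, hq⟩ := h1
        have h6 : ∑ v ∈ univ.filter (fun v => v ∈ R ∧ cR v = q),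
            y v • bd ends (rs XRᶜ hRf) v = ∑ v ∈ univ.filter (fun v => v ∈ R),
            (if cR v = q then y v • bd ends (rs XRᶜ hRf) v else 0) := by
          rw [← Finset.filter_filter, Finset.sum_filter]
        refine Eq.trans ?_ (h6.symm.trans (rR.bal y hyR q))
        apply Finset.sum_congr rfl
        intro v hv
        have hv' : v ∈ R := by simpa using hv
        rw [kR v hv']
        refine if_congr ?_ rfl rfl
        rw [compR v hv', ← hq]
        simp
      · apply Finset.sum_eq_zero
        intro v hv
        have hv' : v ∈ R := by simpa using hv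
        rw [if_neg]
        rw [compR v hv']
        exact fun h2 => h1 ⟨_, h2⟩
    rw [hSpart, hBpart, hRpart]
    simp
  · -- rob
    intro z x hx hy
    have xB : ∀ u ∈ B, ∀ w ∈ B, cB u = cB w → x u = x w := by
      apply rB.rob (fun q => z (if q = p0 then none else some (Sum.inl q))) x
      · intro e he heX u w huw
        have hu : u ∈ ends e := by rw [huw]; simp
        exact hx e (inB e he) (fun h1 => heX ((xb u e (he u hu) hu).1 h1)) u w huw
      · intro y hyB
        have h1 := hy (fun v => if v ∈ B then y v else 0) (by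
          rintro e ((he | he) | he) u w huw
          · have hu : u ∈ ends e := by rw [huw]; simp
            have hw : w ∈ ends e := by rw [huw]; simp
            beta_reduce
            rw [if_neg (dSB u (sub1 he u hu)), if_neg (dSB w (sub1 he w hw))]
          · have hu : u ∈ ends e := by rw [huw]; simp
            have hw : w ∈ ends e := by rw [huw]; simp
            beta_reduce
            rw [if_pos (rB.sub he u hu), if_pos (rB.sub he w hw)]
            exact hyB e he u w huw
          · have hu : u ∈ ends e := by rw [huw]; simp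
            have hw : w ∈ ends e := by rw [huw]; simp
            beta_reduce
            rw [if_neg (fun h => dBR u h (rR.sub he u hu)),
              if_neg (fun h => dBR w h (rR.sub he w hw))])
        replace h1 := ((sum3 _).symm.trans (sum_filter_irrel _ _ _ _ _)).trans h1
        beta_reduce at h1
        rw [Finset.sum_eq_zero (s := univ.filter (fun v => v ∈ S)),
          Finset.sum_eq_zero (s := univ.filter (fun v => v ∈ R)), zero_add, add_zero] at h1
        · rw [← h1]
          apply Finset.sum_congr rfl
          intro v hv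
          have hv' : v ∈ B := by simpa using hv
          rw [if_pos hv', compB v hv', kB v hv']
        · intro v hv
          have hv' : v ∈ R := by simpa using hv
          rw [if_neg (fun h => dBR v h hv'), zero_mul, zero_smul]
        · intro v hv
          have hv' : v ∈ S := by simpa using hv
          rw [if_neg (dSB v hv'), zero_mul, zero_smul]
    have xR : ∀ u ∈ R, ∀ w ∈ R, cR u = cR w → x u = x w := by
      apply rR.rob (fun q => z (some (Sum.inr (Sum.inl q)))) x
      · intro e he heX u w huw
        have hu : u ∈ ends e := by rw [huw]; simp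
        exact hx e (inR e he) (fun h1 => heX ((xr u e (he u hu) hu).1 h1)) u w huw
      · intro y hyR
        have h1 := hy (fun v => if v ∈ R then y v else 0) (by
          rintro e ((he | he) | he) u w huw
          · have hu : u ∈ ends e := by rw [huw]; simp
            have hw : w ∈ ends e := by rw [huw]; simp
            beta_reduce
            rw [if_neg (dSR u (sub1 he u hu)), if_neg (dSR w (sub1 he w hw))]
          · have hu : u ∈ ends e := by rw [huw]; simp
            have hw : w ∈ ends e := by rw [huw]; simp
            beta_reduce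
            rw [if_neg (dBR u (rB.sub he u hu)), if_neg (dBR w (rB.sub he w hw))]
          · have hu : u ∈ ends e := by rw [huw]; simp
            have hw : w ∈ ends e := by rw [huw]; simp
            beta_reduce
            rw [if_pos (rR.sub he u hu), if_pos (rR.sub he w hw)]
            exact hyR e he u w huw)
        replace h1 := ((sum3 _).symm.trans (sum_filter_irrel _ _ _ _ _)).trans h1
        beta_reduce at h1
        rw [Finset.sum_eq_zero (s := univ.filter (fun v => v ∈ S)),
          Finset.sum_eq_zero (s := univ.filter (fun v => v ∈ B)), zero_add, zero_add] at h1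
        · rw [← h1]
          apply Finset.sum_congr rfl
          intro v hv
          have hv' : v ∈ R := by simpa using hv
          rw [if_pos hv', compR v hv', kR v hv']
        · intro v hv
          have hv' : v ∈ B := by simpa using hv
          rw [if_neg (dBR v hv'), zero_mul, zero_smul]
        · intro v hv
          have hv' : v ∈ S := by simpa using hv
          rw [if_neg (dSR v hv'), zero_mul, zero_smul]
    -- at S the value is the value at the other end
    have xSR : ∀ v ∈ S, oe v ∈ Touch ends R → x v = x (rend (oe v)) := by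
      intro v hv h1
      obtain ⟨h2, h3⟩ := hrend _ h1
      obtain ⟨h4, h5, -⟩ := hoe v hv
      have hne : v ≠ rend (oe v) := fun h6 => dSR v hv (h6 ▸ h3)
      have hends : ends (oe v) = s(v, rend (oe v)) := by
        obtain ⟨a, c, hac⟩ := exists_ends ends (oe v)
        rw [hac, Sym2.mem_iff] at h2 h4
        rw [hac]
        rcases h4 with h | h <;> rcases h2 with h' | h'
        · exact absurd (h.trans h'.symm) hne
        · rw [← h, ← h']
        · rw [← h, ← h', Sym2.eq_swap]
        · exact absurd (h.trans h'.symm) hne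
      apply hx (oe v) _ (offX v hv) _ _ hends
      rw [mem_inner_iff ends _ _ _ _ hends]
      exact ⟨Or.inl (Or.inl hv), Or.inr h3⟩
    have xSB : ∀ v ∈ S, oe v ∈ Touch ends B → ∃ w ∈ B, cB w = p0 ∧ x v = x w := by
      intro v hv h1
      obtain ⟨w, h2, h3⟩ := h1
      obtain ⟨h4, h5, -⟩ := hoe v hv
      have hne : v ≠ w := fun h6 => dSB v hv (h6 ▸ h3)
      have hends : ends (oe v) = s(v, w) := by
        obtain ⟨a, c, hac⟩ := exists_ends ends (oe v)
        rw [hac, Sym2.mem_iff] at h2 h4
        rw [hac]
        rcases h4 with h | h <;> rcases h2 with h' | h'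
        · exact absurd (h.trans h'.symm) hne
        · rw [← h, ← h']
        · rw [← h, ← h', Sym2.eq_swap]
        · exact absurd (h.trans h'.symm) hne
      refine ⟨w, h3, ?_, ?_⟩
      · apply hp0 (oe v) _ w h2 h3
        rw [mem_legs_iff ends B _ _ _ hends]
        exact Or.inr ⟨dSB v hv, h3⟩
      · apply hx (oe v) _ (offX v hv) _ _ hends
        rw [mem_inner_iff ends _ _ _ _ hends]
        exact ⟨Or.inl (Or.inl hv), Or.inl (Or.inr h3)⟩
    -- vertices of the group none
    have kind : ∀ v ∈ S ∪ B ∪ R, comp v = none → (∃ w ∈ B, cB w = p0 ∧ x v = x w) ∨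
        (v ∈ S ∧ oe v ∈ Legs ends (S ∪ B ∪ R)) := by
      intro v hv hcv
      rcases hv with (hv | hv) | hv
      · rw [compS v hv] at hcv
        rcases cEcases (oe v) with ⟨-, h3⟩ | ⟨-, -, h3⟩ | ⟨h2, h3, -⟩
        · rw [h3] at hcv; simp at hcv
        · rw [h3] at hcv; simp at hcv
        · by_cases h4 : oe v ∈ Touch ends B
          · exact Or.inl (xSB v hv h4)
          · right
            refine ⟨hv, ?_⟩
            obtain ⟨h5, -, -⟩ := hoe v hv
            obtain ⟨a, c, hac⟩ := exists_ends ends (oe v)
            rw [mem_legs_iff ends _ _ _ _ hac]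
            rw [mem_touch_iff ends _ _ _ _ hac] at h2 h4
            rw [mem_inner_iff ends _ _ _ _ hac] at h3
            rw [hac, Sym2.mem_iff] at h5
            simp only [Set.mem_union]
            rcases h5 with h5 | h5
            · rw [← h5] at h2 h3 h4 ⊢
              tauto
            · rw [← h5] at h2 h3 h4 ⊢
              tauto
      · rw [compB v hv] at hcv
        split_ifs at hcv with h1
        exact Or.inl ⟨v, hv, h1, rfl⟩
      · rw [compR v hv] at hcv
        simp at hcv
    -- the direct leg
    have direct : ∀ v ∈ S, oe v ∈ Legs ends (S ∪ B ∪ R) → ∀ w ∈ B, cB w = p0 → x v = x w := by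
      intro v0 hv0 hleg0 w0 hw0 hcw0
      have h1 := hy (fun v => if v ∈ S then 1 else 0) (by
        rintro e ((he | he) | he) u w huw
        · have hu : u ∈ ends e := by rw [huw]; simp
          have hw : w ∈ ends e := by rw [huw]; simp
          beta_reduce
          rw [if_pos (sub1 he u hu), if_pos (sub1 he w hw)]
        · have hu : u ∈ ends e := by rw [huw]; simp
          have hw : w ∈ ends e := by rw [huw]; simp
          beta_reduce
          rw [if_neg (fun h => dSB u h (rB.sub he u hu)),
            if_neg (fun h => dSB w h (rB.sub he w hw))]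
        · have hu : u ∈ ends e := by rw [huw]; simp
          have hw : w ∈ ends e := by rw [huw]; simp
          beta_reduce
          rw [if_neg (fun h => dSR u h (rR.sub he u hu)),
            if_neg (fun h => dSR w h (rR.sub he w hw))])
      replace h1 := ((sum3 _).symm.trans (sum_filter_irrel _ _ _ _ _)).trans h1
      beta_reduce at h1
      rw [Finset.sum_eq_zero (s := univ.filter (fun v => v ∈ B)),
        Finset.sum_eq_zero (s := univ.filter (fun v => v ∈ R)), add_zero, add_zero] at h1
      rotate_left
      · intro v hv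
        have hv' : v ∈ R := by simpa using hv
        rw [if_neg (fun h => dSR v h hv'), zero_mul, zero_smul]
      · intro v hv
        have hv' : v ∈ B := by simpa using hv
        rw [if_neg (fun h => dSB v h hv'), zero_mul, zero_smul]
      -- value on the edges at S
      let xe : E → ZMod 2 := fun e =>
        if e ∈ Touch ends R then x (rend e)
        else if e ∈ Inner ends S then x (Quot.out (ends e)).1
        else if e ∈ Touch ends B then x w0 else x v0
      have hxe : ∀ v ∈ S, x v = xe (oe v) := by
        intro v hv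
        obtain ⟨h5, h6, -⟩ := hoe v hv
        by_cases c1 : oe v ∈ Touch ends R
        · simp only [xe, if_pos c1]
          exact xSR v hv c1
        · by_cases c2 : oe v ∈ Inner ends S
          · simp only [xe, if_neg c1, if_pos c2]
            have hout : ends (oe v) = s((Quot.out (ends (oe v))).1, (Quot.out (ends (oe v))).2) := by
              exact (Quot.out_eq (ends (oe v))).symm
            have h7 := hx (oe v) (inS _ c2) (offX v hv) _ _ hout
            rw [hout, Sym2.mem_iff] at h5
            rcases h5 with h5 | h5
            · conv_lhs => rw [h5]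
            · conv_lhs => rw [h5]
              exact h7.symm
          · by_cases c3 : oe v ∈ Touch ends B
            · simp only [xe, if_neg c1, if_neg c2, if_pos c3]
              obtain ⟨w, hw, hcw, hxw⟩ := xSB v hv c3
              rw [hxw]
              exact xB w hw w0 hw0 (hcw.trans hcw0.symm)
            · simp only [xe, if_neg c1, if_neg c2, if_neg c3]
              have h7 : comp v = none := by
                rw [compS v hv]
                rcases cEcases (oe v) with ⟨h3, -⟩ | ⟨-, h3, -⟩ | ⟨-, -, h3⟩
                · exact absurd h3 c1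
                · exact absurd h3 c2
                · exact h3
              rcases kind v (Or.inl (Or.inl hv)) h7 with ⟨w, hw, hcw, hxw⟩ | ⟨-, h8⟩
              · -- x v = x w, need more: use the leg argument
                have h8 : oe v ∈ Legs ends (S ∪ B ∪ R) := by
                  obtain ⟨a, c, hac⟩ := exists_ends ends (oe v)
                  rw [mem_legs_iff ends _ _ _ _ hac]
                  rw [mem_touch_iff ends _ _ _ _ hac] at c1 c3
                  rw [mem_inner_iff ends _ _ _ _ hac] at c2
                  rw [hac, Sym2.mem_iff] at h5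
                  simp only [Set.mem_union]
                  rcases h5 with h5 | h5
                  · rw [← h5] at c1 c2 c3 ⊢
                    tauto
                  · rw [← h5] at c1 c2 c3 ⊢
                    tauto
                have h9 := hS1 _ h8 _ hleg0 ⟨v, h5, hv⟩ ⟨v0, (hoe v0 hv0).1, hv0⟩
                have h10 : v = v0 := by
                  have h11 := (hoe v0 hv0).1
                  rw [← h9] at h11
                  obtain ⟨a, c, hac⟩ := exists_ends ends (oe v)
                  rw [mem_legs_iff ends _ _ _ _ hac] at h8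
                  rw [hac, Sym2.mem_iff] at h5 h11
                  have q1 : v ∈ S ∪ B ∪ R := Or.inl (Or.inl hv)
                  have q2 : v0 ∈ S ∪ B ∪ R := Or.inl (Or.inl hv0)
                  rcases h5 with h | h <;> rcases h11 with h' | h'
                  · rw [h, h']
                  · rw [h] at q1; rw [h'] at q2; tauto
                  · rw [h] at q1; rw [h'] at q2; tauto
                  · rw [h, h']
                rw [h10]
              · have h9 := hS1 _ h8 _ hleg0 ⟨v, h5, hv⟩ ⟨v0, (hoe v0 hv0).1, hv0⟩
                have h10 : v = v0 := by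
                  have h11 := (hoe v0 hv0).1
                  rw [← h9] at h11
                  obtain ⟨a, c, hac⟩ := exists_ends ends (oe v)
                  rw [mem_legs_iff ends _ _ _ _ hac] at h8
                  rw [hac, Sym2.mem_iff] at h5 h11
                  have q1 : v ∈ S ∪ B ∪ R := Or.inl (Or.inl hv)
                  have q2 : v0 ∈ S ∪ B ∪ R := Or.inl (Or.inl hv0)
                  rcases h5 with h | h <;> rcases h11 with h' | h'
                  · rw [h, h']
                  · rw [h] at q1; rw [h'] at q2; tauto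
                  · rw [h] at q1; rw [h'] at q2; tauto
                  · rw [h, h']
                rw [h10]
      have h2 : ∑ v ∈ univ.filter (fun v => v ∈ S),
          (fun e => xe e • rotk (z (cE e)) (h e)) (oe v) = 0 := by
        rw [← h1]
        apply Finset.sum_congr rfl
        intro v hv
        have hv' : v ∈ S := by simpa using hv
        rw [if_pos hv', one_mul, compS v hv', kS v hv', hxe v hv']
      replace h2 := (sumS (fun e => xe e • rotk (z (cE e)) (h e))).symm.trans h2
      rw [hsplit] at h2
      have h3 : ∀ e, e ∈ Legs ends S → h e = b e := by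
        intro e he
        have := (hlegS_iff e).1 he
        exact hhleg e this.1 this.2
      have h4 : ∑ e ∈ univ.filter (fun e => e ∈ Legs ends R),
          xe e • rotk (z (cE e)) (h e) = 0 := by
        have hxq : ∀ q : PR, ∃ t : ZMod 2, ∀ e, e ∈ Legs ends R → cR (rend e) = q →
            x (rend e) = t := by
          intro q
          by_cases hq : ∃ e, e ∈ Legs ends R ∧ cR (rend e) = q
          · obtain ⟨e1, he1, hq1⟩ := hq
            refine ⟨x (rend e1), fun e he hq2 => ?_⟩
            apply xR _ (hrend e _).2 _ (hrend e1 _).2 (hq2.trans hq1.symm)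
            · rw [touch_eq]; exact Or.inr he
            · rw [touch_eq]; exact Or.inr he1
          · exact ⟨0, fun e he hq2 => absurd ⟨e, he, hq2⟩ hq⟩
        choose t ht using hxq
        let f : PR → W →+ W := fun q =>
          (DistribSMul.toAddMonoidHom W (t q)).comp (rotk (z (some (Sum.inr (Sum.inl q)))))
        refine Eq.trans ?_ (sumRz f)
        apply Finset.sum_congr rfl
        intro e he
        have he' : e ∈ Legs ends R := by simpa using he
        have he2 := (hRS e).1 he'
        have hxee : xe e = t (cR (rend e)) := by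
          simp only [xe, if_pos he2.2]
          exact ht _ e he' rfl
        rcases cEcases e with ⟨h4, h5⟩ | ⟨h4, -, -⟩ | ⟨h4, -, -⟩
        · rw [h5, h3 e he2.1, hxee]
          rfl
        · exact absurd he2.2 h4
        · exact absurd he2.2 h4
      rw [h4, zero_add] at h2
      have h5 : ∑ e ∈ univ.filter (fun e => e ∈ Legs ends S ∧ e ∉ Touch ends R),
          xe e • rotk (z (cE e)) (h e) =
          rotk (z none) (∑ e ∈ univ.filter (fun e => e ∈ Legs ends S ∧ e ∉ Touch ends R),
            xe e • b e) := by
        rw [map_sum]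
        apply Finset.sum_congr rfl
        intro e he
        have he' : e ∈ Legs ends S ∧ e ∉ Touch ends R := by simpa using he
        rcases cEcases e with ⟨h4, -⟩ | ⟨-, h4, -⟩ | ⟨-, -, h4⟩
        · exact absurd h4 he'.2
        · exact absurd h4 (not_inner_of_legs ends S e he'.1)
        · rw [h4, h3 e he'.1]
          generalize xe e = a
          generalize b e = c
          generalize z none = k
          revert a c k; decide
      rw [h5] at h2
      have h6 : ∑ e ∈ univ.filter (fun e => e ∈ Legs ends S ∧ e ∉ Touch ends R),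
            xe e • b e = 0 := by
        by_contra h7
        exact rotk_ne_zero _ _ h7 h2
      -- the direct leg is a leg of S
      have hl0 : oe v0 ∈ Legs ends S ∧ oe v0 ∉ Touch ends R := by
        have h7 := legK _ hleg0
        exact ⟨(hlegS_iff _).2 ⟨⟨v0, (hoe v0 hv0).1, hv0⟩, h7.2⟩, h7.1⟩
      have hl0B : oe v0 ∉ Touch ends B := by
        rintro ⟨w, hw, hwB⟩
        apply not_inner_of_legs ends _ _ hleg0
        obtain ⟨a, c, hac⟩ := exists_ends ends (oe v0)
        have h7 := (hoe v0 hv0).1
        have hne : v0 ≠ w := fun h6 => dSB v0 hv0 (h6 ▸ hwB)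
        rw [mem_inner_iff ends _ _ _ _ hac]
        rw [hac, Sym2.mem_iff] at hw h7
        have q1 : v0 ∈ S ∪ B ∪ R := Or.inl (Or.inl hv0)
        have q2 : w ∈ S ∪ B ∪ R := Or.inl (Or.inr hwB)
        rcases h7 with h | h <;> rcases hw with h' | h'
        · exact absurd (h.trans h'.symm) hne
        · rw [h] at q1; rw [h'] at q2; exact ⟨q1, q2⟩
        · rw [h] at q1; rw [h'] at q2; exact ⟨q2, q1⟩
        · exact absurd (h.trans h'.symm) hne
      have h8 : ∑ e ∈ univ.filter (fun e => e ∈ Legs ends S ∧ e ∉ Touch ends R),
            (xe e + x w0) • b e = 0 := by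
        have : ∀ e, (xe e + x w0) • b e = xe e • b e + x w0 • b e := fun e => add_smul _ _ _
        simp only [this]
        rw [Finset.sum_add_distrib, h6, ← Finset.smul_sum, hnone, smul_zero, add_zero]
      rw [Finset.sum_eq_single_of_mem (oe v0) (by simp [hl0])] at h8
      · rw [← hxe v0 hv0] at h8
        have h9 : b (oe v0) ≠ 0 := hb.1 _ hl0.1
        generalize b (oe v0) = c at h8 h9
        generalize x v0 = a1 at h8
        generalize x w0 = a2 at h8
        revert a1 a2 c; decide
      · intro e he hne
        have he' : e ∈ Legs ends S ∧ e ∉ Touch ends R := by simpa using he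
        have c2 : e ∉ Inner ends S := not_inner_of_legs ends S e he'.1
        by_cases c3 : e ∈ Touch ends B
        · have : xe e = x w0 := by simp only [xe, if_neg he'.2, if_neg c2, if_pos c3]
          rw [this]
          have : x w0 + x w0 = 0 := Z_add_self _
          rw [this, zero_smul]
        · exfalso
          apply hne
          have h10 : e ∈ Touch ends S := ((hlegS_iff e).1 he'.1).1
          apply hS1 e _ _ hleg0 h10 ⟨v0, (hoe v0 hv0).1, hv0⟩
          obtain ⟨a, c, hac⟩ := exists_ends ends e
          rw [mem_legs_iff ends _ _ _ _ hac]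
          have c1 := he'.2
          have c4 := he'.1
          rw [mem_touch_iff ends _ _ _ _ hac] at c1 c3
          rw [mem_legs_iff ends _ _ _ _ hac] at c4
          simp only [Set.mem_union]
          tauto
    -- final comparison
    intro u hu w hw huw
    rcases hc : comp u with _ | (q | (q | q))
    · -- none
      have hw' : comp w = none := by rw [← huw, hc]
      rcases kind u hu hc with ⟨u', hu', hcu', hxu⟩ | ⟨huS, hul⟩
      · rcases kind w hw hw' with ⟨w', hw'', hcw', hxw⟩ | ⟨hwS, hwl⟩
        · rw [hxu, hxw]
          exact xB u' hu' w' hw'' (hcu'.trans hcw'.symm)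
        · rw [hxu]
          exact (direct w hwS hwl u' hu' hcu').symm
      · rcases kind w hw hw' with ⟨w', hw'', hcw', hxw⟩ | ⟨hwS, hwl⟩
        · rw [hxw]
          exact direct u huS hul w' hw'' hcw'
        · have h9 := hS1 _ hul _ hwl ⟨u, (hoe u huS).1, huS⟩ ⟨w, (hoe w hwS).1, hwS⟩
          have h10 : u = w := by
            have h5 := (hoe u huS).1
            have h11 := (hoe w hwS).1
            rw [← h9] at h11
            obtain ⟨a, c, hac⟩ := exists_ends ends (oe u)
            rw [mem_legs_iff ends _ _ _ _ hac] at hul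
            rw [hac, Sym2.mem_iff] at h5 h11
            have q1 : u ∈ S ∪ B ∪ R := Or.inl (Or.inl huS)
            have q2 : w ∈ S ∪ B ∪ R := Or.inl (Or.inl hwS)
            rcases h5 with h | h <;> rcases h11 with h' | h'
            · rw [h, h']
            · rw [h] at q1; rw [h'] at q2; tauto
            · rw [h] at q1; rw [h'] at q2; tauto
            · rw [h, h']
          rw [h10]
    · -- groups of B
      have isB : ∀ v ∈ S ∪ B ∪ R, comp v = some (Sum.inl q) → v ∈ B ∧ cB v = q := by
        intro v hv hcv
        rcases hv with (hv | hv) | hv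
        · rw [compS v hv] at hcv
          rcases cEcases (oe v) with ⟨-, h3⟩ | ⟨-, -, h3⟩ | ⟨-, -, h3⟩
          · rw [h3] at hcv; simp at hcv
          · rw [h3] at hcv; simp at hcv
          · rw [h3] at hcv; simp at hcv
        · rw [compB v hv] at hcv
          split_ifs at hcv with h1
          refine ⟨hv, ?_⟩
          simpa using hcv
        · rw [compR v hv] at hcv
          simp at hcv
      obtain ⟨h1, h2⟩ := isB u hu hc
      obtain ⟨h3, h4⟩ := isB w hw (by rw [← huw, hc])
      exact xB u h1 w h3 (h2.trans h4.symm)
    · -- groups of R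
      have isR : ∀ v ∈ S ∪ B ∪ R, comp v = some (Sum.inr (Sum.inl q)) →
          ∃ v' ∈ R, cR v' = q ∧ x v = x v' := by
        intro v hv hcv
        rcases hv with (hv | hv) | hv
        · rw [compS v hv] at hcv
          rcases cEcases (oe v) with ⟨h2, h3⟩ | ⟨-, -, h3⟩ | ⟨-, -, h3⟩
          · rw [h3] at hcv
            refine ⟨rend (oe v), (hrend _ h2).2, ?_, xSR v hv h2⟩
            simpa using hcv
          · rw [h3] at hcv; simp at hcv
          · rw [h3] at hcv; simp at hcv
        · rw [compB v hv] at hcv
          split_ifs at hcv with h1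
          simp at hcv
        · rw [compR v hv] at hcv
          exact ⟨v, hv, by simpa using hcv, rfl⟩
      obtain ⟨u', h1, h2, h5⟩ := isR u hu hc
      obtain ⟨w', h3, h4, h6⟩ := isR w hw (by rw [← huw, hc])
      rw [h5, h6]
      exact xR u' h1 w' h3 (h2.trans h4.symm)
    · -- chords
      have isC : ∀ v ∈ S ∪ B ∪ R, comp v = some (Sum.inr (Sum.inr q)) →
          v ∈ S ∧ oe v = q ∧ q ∈ Inner ends S := by
        intro v hv hcv
        rcases hv with (hv | hv) | hv
        · rw [compS v hv] at hcv
          rcases cEcases (oe v) with ⟨h2, h3⟩ | ⟨-, h2, h3⟩ | ⟨-, -, h3⟩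
          · rw [h3] at hcv; simp at hcv
          · rw [h3] at hcv
            have h4 : oe v = q := by simpa using hcv
            exact ⟨hv, h4, h4 ▸ h2⟩
          · rw [h3] at hcv; simp at hcv
        · rw [compB v hv] at hcv
          split_ifs at hcv with h1
          simp at hcv
        · rw [compR v hv] at hcv
          simp at hcv
      obtain ⟨h1, h2, h5⟩ := isC u hu hc
      obtain ⟨h3, h4, h6⟩ := isC w hw (by rw [← huw, hc])
      by_cases huw' : u = w
      · rw [huw']
      · have hue : u ∈ ends q := by rw [← h2]; exact (hoe u h1).1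
        have hwe : w ∈ ends q := by rw [← h4]; exact (hoe w h3).1
        obtain ⟨a, c, hac⟩ := exists_ends ends q
        have hends : ends q = s(u, w) := by
          rw [hac, Sym2.mem_iff] at hue hwe
          rw [hac]
          rcases hue with h | h <;> rcases hwe with h' | h'
          · exact absurd (h.trans h'.symm) huw'
          · rw [← h, ← h']
          · rw [← h, ← h', Sym2.eq_swap]
          · exact absurd (h.trans h'.symm) huw'
        exact hx q (inS q h5) (by rw [← h2]; exact offX u h1) u w hends
  · -- OneLeg
    intro e he v hv hvK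
    obtain ⟨h1, h2⟩ := legK e he
    rcases hvK with (hvS | hvB) | hvR
    · rw [compS v hvS]
      have heX1 : e ∉ X1 := fun h3 => not_inner_of_legs ends _ e he (inS e (sub1 h3))
      have hev : e = oe v := (hoe v hvS).2.2 e hv heX1
      rw [← hev]
      rcases cEcases e with ⟨h3, -⟩ | ⟨-, h3, -⟩ | ⟨-, -, h3⟩
      · exact absurd h3 h1
      · exact absurd h3 h2
      · exact h3
    · rw [compB v hvB, if_pos]
      apply hp0 e _ v hv hvB
      apply hlegB e ⟨v, hv, hvB⟩
      intro h3
      exact not_inner_of_legs ends _ e he (inB e h3)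
    · exact absurd ⟨v, hv, hvR⟩ h1
  · -- values on the legs
    intro e he
    obtain ⟨h1, h2⟩ := legK e he
    by_cases h3 : e ∈ Touch ends B
    · rw [hhB e h3]
      apply hBl
      apply hlegB e h3
      intro h4
      exact not_inner_of_legs ends _ e he (inB e h4)
    · simp only [hh, if_neg h3, if_neg h1, if_neg h2]

end Pool.Agent.Helper37.IE
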