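import Mathlib
import Pool.Agent.Helper37.IE.Defs
import Pool.Agent.Helper56.IE.Combine

/-! MP_7cf8d2, piece IE-4b: disjoint union without joining edges.
`P = P1 ⊕ P2`, `X = X1 ∪ X2`, `comp v = inl (comp1 v)` if `v ∈ K1`, else `inr (comp2 v)`,
`h e = h1 e` if `e ∈ Touch K1`, else `h2 e`.  (An edge touching both sets would be a joining edge.)
For `v ∈ K1` all edges at `v` touch `K1`, and an edge at `v` is in `X` iff it is in `X1` (edges of
`X2` are inner edges of `K2`), so `bd (rs Xᶜ h) v = bd (rs X1ᶜ h1) v`.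
`bal`: only one of the two parts contributes.  `rob`: test with `y` replaced by `y * 1_{K1}`
(constant along `X`), resp. `y * 1_{K2}`. -/

namespace Pool.Agent.Helper37.IE

open Finset Pool.Agent.Helper49.CDC Pool.Agent.Helper37.GRT
open scoped Classical

universe u v

variable {V : Type v} {E : Type u}

theorem union_goodM [Fintype V] [Fintype E] (ends : E → Sym2 V) (hl : ∀ e, ¬ (ends e).IsDiag)
    (K1 K2 : Set V) (hd : Disjoint K1 K2) (hno : Between ends K1 K2 = ∅) (b : E → W)
    (h1 : GoodM ends K1 b) (h2 : GoodM ends K2 b) : GoodM ends (K1 ∪ K2) b := by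
  obtain ⟨P1, i1, X1, comp1, f1, R1, hb1⟩ := h1
  obtain ⟨P2, i2, X2, comp2, f2, R2, hb2⟩ := h2
  refine ⟨P1 ⊕ P2, inferInstance, X1 ∪ X2, _, _, combine ends K1 K2 hd X1 X2 comp1 comp2 f1 f2 R1
    R2 Sum.inl Sum.inr Sum.inl_injective Sum.inr_injective ?_ ?_, combine_legs hb1 hb2⟩
  · intro e u w hew hu hw
    have : e ∈ Between ends K1 K2 := ⟨u, hu, w, hw, hew⟩
    rw [hno] at this
    exact absurd this (Set.notMem_empty e)
  · intro x _ _ _ u _ w _ h
    exact absurd h (by simp)

end Pool.Agent.Helper37.IE
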