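import Mathlib
import Pool.Agent.Helper37.IE.Defs

/-! MP_7cf8d2, piece IE-4a: a single vertex, and the sum of the legs.
`vertex_good`: `X = ∅`, `P = PUnit`, `h = b`.
`good_sum_zero`: `bal` with `y = 1`, summed over `p` (`Finset.sum_fiberwise`), and `sum_bd_set`
applied to `rs Xᶜ h` (on the legs `rs Xᶜ h = h = b`, because `X ⊆ Inner K`). -/

namespace Pool.Agent.Helper37.IE

open Finset Pool.Agent.Helper49.CDC Pool.Agent.Helper37.GRT
open scoped Classical

universe u v

variable {V : Type v} {E : Type u}

private theorem memf {α : Type*} {s : Finset α} {p : α → Prop} {i : DecidablePred p} {a : α}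
    (h : a ∈ @Finset.filter α p i s) : p a := (@Finset.mem_filter α p i s a).1 h |>.2

private theorem memf' {α : Type*} [Fintype α] {p : α → Prop} {i : DecidablePred p} {a : α}
    (h : p a) : a ∈ @Finset.filter α p i univ :=
  (@Finset.mem_filter α p i univ a).2 ⟨Finset.mem_univ _, h⟩

theorem vertex_good [Fintype V] [Fintype E] (ends : E → Sym2 V) (hl : ∀ e, ¬ (ends e).IsDiag)
    (v : V) (b : E → W) (hb : b ∈ AllL ends {v}) : Good ends {v} b := by
  have hrs : rs (∅ : Set E)ᶜ b = b := by
    funext e
    unfold rs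
    rw [if_pos]
    exact fun h => h
  have hv : bd ends b v = 0 := by
    have h1 := sum_bd_set ends hl {v} b
    rw [hb.2] at h1
    rw [Finset.sum_eq_single v] at h1
    · exact h1
    · intro w hw hne
      exact absurd (memf hw) hne
    · intro hn
      exact absurd (memf' (Set.mem_singleton v)) hn
  refine ⟨PUnit.{u + 1}, inferInstance, ∅, fun _ => PUnit.unit, b, ?_, ?_, fun _ _ => rfl⟩
  · refine ⟨Set.empty_subset _, fun w => Or.inl ?_, fun _ _ _ _ _ _ => rfl, ?_, ?_, ?_⟩
    · rw [Finset.card_eq_zero]
      exact Finset.eq_empty_of_forall_notMem fun e he => (memf he).2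
    · intro e he _
      rw [touch_eq] at he
      rcases he with he | he
      · exfalso
        obtain ⟨x, y, hxy⟩ := exists_ends ends e
        rw [mem_inner_iff ends {v} e x y hxy] at he
        have h1 : x = y := by
          rw [Set.mem_singleton_iff.1 he.1, Set.mem_singleton_iff.1 he.2]
        apply hl e
        rw [hxy, h1]
        exact rfl
      · exact hb.1 e he
    · intro y _ p
      apply Finset.sum_eq_zero
      intro w hw
      have hw' : w = v := (memf hw).1
      rw [hrs, hw', hv, smul_zero]
    · intro z x _ _ u hu w hw _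
      rw [Set.mem_singleton_iff.1 hu, Set.mem_singleton_iff.1 hw]
  · exact ⟨PUnit.unit, fun _ _ _ _ _ => rfl⟩

theorem good_sum_zero [Fintype V] [Fintype E] (ends : E → Sym2 V) (hl : ∀ e, ¬ (ends e).IsDiag)
    (K : Set V) (b : E → W) (h : GoodM ends K b) :
    ∑ e ∈ univ.filter (fun e => e ∈ Legs ends K), b e = 0 := by
  obtain ⟨P, iP, X, comp, h, hR, hb⟩ := h
  have h1 : ∑ e ∈ univ.filter (fun e => e ∈ Legs ends K), b e =
      ∑ e ∈ univ.filter (fun e => e ∈ Legs ends K), rs Xᶜ h e := by
    apply Finset.sum_congr rfl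
    intro e he
    have he' : e ∈ Legs ends K := (Finset.mem_filter.1 he).2
    have hX : e ∈ Xᶜ := fun hX => not_inner_of_legs ends K e he' (hR.sub hX)
    unfold rs
    rw [if_pos hX, hb e he']
  rw [h1, ← sum_bd_set ends hl K (rs Xᶜ h)]
  have h2 := hR.bal (fun _ => 1) (fun _ _ _ _ _ => rfl)
  rw [← Finset.sum_fiberwise (univ.filter (fun v => v ∈ K)) comp (fun v => bd ends (rs Xᶜ h) v)]
  apply Finset.sum_eq_zero
  intro p _
  have h3 := h2 p
  simp only [one_smul] at h3
  rw [Finset.filter_filter]
  exact h3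

end Pool.Agent.Helper37.IE
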