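import Mathlib
import Pool.Agent.Helper37.IE.Defs
import Pool.Agent.Helper37.IE.St.Glue
import Pool.Agent.Helper37.IE.St.AllL
import Pool.Agent.Helper37.IE.St.VertexGood
import Pool.Agent.Helper37.IE.St.UnionGood
import Pool.Agent.Helper37.IE.St.GlueGood
import Pool.Agent.Helper37.IE.St.Hub

/-! MP_7cf8d2, piece IE-8a: circuit step with two marks.  `K = S ∪ B ∪ R`, `S` = vertices of
the cycle `X1`, `B = B' ∪ {y1} ∪ {y2}` contains all legs of `K`, `R` has no legs of `K` and no edges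
to `B`.  `L_B = Gl (B' ∪ {y1}) {y2} (Gl B' {y1} L' (AllL {y1})) (AllL {y2})`,
`L = Gl (S ∪ B) R (Gl S B (AllL S) L_B) L_R`.  Good: `hub_good`, `glue_good` (edges `g1`, `g2`),
`vertex_good`.  Nonempty: take `b' ∈ L'`, `bR ∈ L_R` (the sum of `bR` over the edges from `S` to `R`
is `0` by `good_sum_zero`, all legs of `R` end in `S`), `σ` = sum of `b'` over `Between S B'`.
Values `q1 ∉ {0, b' g1}`, `q2 ∉ {0, b' g2}` at `β1`, `β2` with `q1 + q2 = σ`, third edges of `yi`:
`qi + b' gi`. Possible unless `b' g1 = b' g2 = g` and `σ ∉ {0, g}`; in this case switch `b'` with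
`w = g + σ` along the pair `{g1, π g1}` of legs of `B'`: the partner is `g2` (then both become `σ`,
and `σ` is unchanged), an edge to `S` (then `g1` becomes `σ`, `g2 = g` differ) or another leg (then
they differ).  (`g1 ≠ g2`: their ends `y1 ≠ y2`.) -/

namespace Pool.Agent.Helper37.IE

open Finset Pool.Agent.Helper49.CDC Pool.Agent.Helper37.GRT
open scoped Classical

universe u v

variable {V : Type v} {E : Type u}

namespace Circ0aux

theorem choose_q (g g' σ : W) (h : g ≠ g' ∨ σ = 0 ∨ σ = g) :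
    ∃ q1 q2 : W, q1 ≠ 0 ∧ q1 ≠ g ∧ q2 ≠ 0 ∧ q2 ≠ g' ∧ q1 + q2 = σ := by
  revert g g' σ; decide

theorem w_facts (g σ : W) (h0 : σ ≠ 0) (h1 : σ ≠ g) (hg : g ≠ 0) :
    g + σ ≠ 0 ∧ g ≠ g + σ ∧ g + (g + σ) = σ := by
  revert g σ; decide

theorem w_sum (x q : W) : x + (q + (q + x)) = 0 := by
  revert x q; decide

theorem Good.congr [Fintype V] [Fintype E] {ends : E → Sym2 V} {K : Set V} {b b' : E → W}
    (h : Good ends K b) (hb : ∀ e ∈ Legs ends K, b e = b' e) : Good ends K b' := by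
  obtain ⟨P, i, X, comp, f, h1, h2, h3⟩ := h
  exact ⟨P, i, X, comp, f, h1, h2, fun e he => (h3 e he).trans (hb e he)⟩

theorem GoodM.congr [Fintype V] [Fintype E] {ends : E → Sym2 V} {K : Set V} {b b' : E → W}
    (h : GoodM ends K b) (hb : ∀ e ∈ Legs ends K, b e = b' e) : GoodM ends K b' := by
  obtain ⟨P, i, X, comp, f, h1, h3⟩ := h
  exact ⟨P, i, X, comp, f, h1, fun e he => (h3 e he).trans (hb e he)⟩

/-- the choice of the vector on `B'` and of the two values -/
theorem claimA [Fintype E] (ends : E → Sym2 V) (B' : Set V) (L' : Set (E → W))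
    (hne : L'.Nonempty) (hsw : Switchable ends B' L') (g1 g2 : E) (h12 : g1 ≠ g2)
    (h1 : g1 ∈ Legs ends B') (h2 : g2 ∈ Legs ends B') (T : Finset E) (hT1 : g1 ∉ T)
    (hT2 : g2 ∉ T) :
    ∃ b' ∈ L', ∃ q1 q2 : W, q1 ≠ 0 ∧ q1 ≠ b' g1 ∧ q2 ≠ 0 ∧ q2 ≠ b' g2 ∧
      q1 + q2 = ∑ e ∈ T, b' e := by
  obtain ⟨b', hb'⟩ := hne
  by_cases hc : b' g1 ≠ b' g2 ∨ ∑ e ∈ T, b' e = 0 ∨ ∑ e ∈ T, b' e = b' g1
  · obtain ⟨q1, q2, hq⟩ := choose_q _ _ _ hc
    exact ⟨b', hb', q1, q2, hq⟩
  · simp only [not_or, not_not] at hc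
    obtain ⟨hgg, hσ0, hσg⟩ := hc
    set σ := ∑ e ∈ T, b' e with hσ
    have hg0 : b' g1 ≠ 0 := hsw.nz b' hb' g1 h1
    obtain ⟨w0, w1, w2⟩ := w_facts (b' g1) σ hσ0 hσg hg0
    obtain ⟨π, hπ1, hπ2⟩ := hsw.sw b' hb' (b' g1 + σ) w0
    obtain ⟨m1, m2, m3, m4⟩ := hπ1 g1 h1 w1
    have hin := hπ2 {g1, π g1} (by
      rintro e (rfl | he)
      · exact ⟨h1, w1, Or.inr rfl⟩
      · have he' : e = π g1 := he
        rw [he']
        exact ⟨m1, m2, Or.inl m4⟩)
    obtain ⟨b'', hb'', val1, val2⟩ : ∃ b'' ∈ L', (∀ e, e = g1 ∨ e = π g1 →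
        b'' e = b' e + (b' g1 + σ)) ∧ ∀ e, ¬ (e = g1 ∨ e = π g1) → b'' e = b' e :=
      ⟨_, hin, fun e he => if_pos he, fun e he => if_neg he⟩
    refine ⟨b'', hb'', choose_q _ _ _ ?_⟩
    have v1 : b'' g1 = σ := by rw [val1 g1 (Or.inl rfl), w2]
    by_cases hp : g2 = π g1
    · right; right
      rw [v1, hσ]
      refine Finset.sum_congr rfl fun e he => val2 e ?_
      rintro (rfl | h)
      · exact hT1 he
      · rw [← hp] at h
        rw [h] at he
        exact hT2 he
    · left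
      rw [v1, val2 g2 (by
        rintro (h | h)
        · exact h12 h.symm
        · exact hp h), ← hgg]
      exact hσg

end Circ0aux

open Circ0aux

theorem step_circ0 [Fintype V] [Fintype E] (ends : E → Sym2 V) (hl : ∀ e, ¬ (ends e).IsDiag)
    (X1 : Set E) (hX1 : IsCycle ends X1) (S B' R : Set V) (y1 y2 : V)
    (hS : S = verts ends X1) (hcub : CubicOn ends (S ∪ {y1, y2}))
    (hSB : Disjoint S B') (hSR : Disjoint S R) (hBR : Disjoint B' R)
    (h1S : y1 ∉ S) (h2S : y2 ∉ S) (h1B : y1 ∉ B') (h2B : y2 ∉ B') (h1R : y1 ∉ R) (h2R : y2 ∉ R)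
    (h12 : y1 ≠ y2) (g1 g2 β1 β2 : E)
    (hg1 : Between ends B' {y1} = {g1}) (hg2 : Between ends B' {y2} = {g2})
    (hβ1 : Between ends S {y1} = {β1}) (hβ2 : Between ends S {y2} = {β2})
    (hno12 : Between ends {y1} {y2} = ∅) (hno : Between ends (B' ∪ {y1} ∪ {y2}) R = ∅)
    (hR : ∀ e ∈ Legs ends (S ∪ (B' ∪ {y1} ∪ {y2}) ∪ R), e ∉ Touch ends R)
    (hS0 : ∀ e ∈ Legs ends (S ∪ (B' ∪ {y1} ∪ {y2}) ∪ R), e ∉ Touch ends S)
    (h : Fine ends B') (hRf : FineM ends R) :
    Fine ends (S ∪ (B' ∪ {y1} ∪ {y2}) ∪ R) := by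
  obtain ⟨L', hL'ne, hL'sw, hL'g⟩ := h
  obtain ⟨LR, hLRne, hLRsw, hLRg⟩ := hRf
  set B : Set V := B' ∪ {y1} ∪ {y2} with hB
  -- disjointness
  have dSB : Disjoint S B := by
    rw [Set.disjoint_left]
    rintro v hv ((h | h) | h)
    · exact Set.disjoint_left.1 hSB hv h
    · exact h1S (h ▸ hv)
    · exact h2S (h ▸ hv)
  have dBR : Disjoint B R := by
    rw [Set.disjoint_left]
    rintro v ((h | h) | h) hv
    · exact Set.disjoint_left.1 hBR h hv
    · exact h1R (h ▸ hv)
    · exact h2R (h ▸ hv)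
  have dB1 : Disjoint B' {y1} := Set.disjoint_singleton_right.2 h1B
  have dB2 : Disjoint (B' ∪ {y1}) {y2} := by
    rw [Set.disjoint_singleton_right]
    rintro (h | h)
    · exact h2B h
    · exact h12 h.symm
  have dSBR : Disjoint (S ∪ B) R := by
    rw [Set.disjoint_left]
    rintro v (h | h) hv
    · exact Set.disjoint_left.1 hSR h hv
    · exact Set.disjoint_left.1 dBR h hv
  have nSB' : ∀ v, v ∈ S → v ∉ B' := fun v h1 h2 => Set.disjoint_left.1 hSB h1 h2
  have nSR : ∀ v, v ∈ S → v ∉ R := fun v h1 h2 => Set.disjoint_left.1 hSR h1 h2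
  have nB'R : ∀ v, v ∈ B' → v ∉ R := fun v h1 h2 => Set.disjoint_left.1 hBR h1 h2
  have iB' : ∀ v, v ∈ B' → v ∈ B := fun v h => Or.inl (Or.inl h)
  have iy1 : y1 ∈ B := Or.inl (Or.inr rfl)
  have iy2 : y2 ∈ B := Or.inr rfl
  -- no edge between `B` and `R`
  have noBR : ∀ e a c, ends e = s(a, c) → a ∈ B → c ∈ R → False := by
    intro e a c hac ha hc
    have : e ∈ Between ends B R := ⟨a, ha, c, hc, hac⟩
    rw [hno] at this
    exact this
  -- the four special edges
  have hmem1 : ∀ e a, a ∈ B' → ends e = s(a, y1) → e = g1 := by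
    intro e a ha hea
    have : e ∈ Between ends B' {y1} := ⟨a, ha, y1, rfl, hea⟩
    rw [hg1] at this
    exact this
  have hmem2 : ∀ e a, a ∈ B' → ends e = s(a, y2) → e = g2 := by
    intro e a ha hea
    have : e ∈ Between ends B' {y2} := ⟨a, ha, y2, rfl, hea⟩
    rw [hg2] at this
    exact this
  have hmem3 : ∀ e a, a ∈ S → ends e = s(a, y1) → e = β1 := by
    intro e a ha hea
    have : e ∈ Between ends S {y1} := ⟨a, ha, y1, rfl, hea⟩
    rw [hβ1] at this
    exact this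
  have hmem4 : ∀ e a, a ∈ S → ends e = s(a, y2) → e = β2 := by
    intro e a ha hea
    have : e ∈ Between ends S {y2} := ⟨a, ha, y2, rfl, hea⟩
    rw [hβ2] at this
    exact this
  obtain ⟨u1, hu1, hg1e⟩ : ∃ u1 ∈ B', ends g1 = s(u1, y1) := by
    have : g1 ∈ Between ends B' {y1} := by rw [hg1]; exact Set.mem_singleton _
    obtain ⟨u, hu, w, hw, huw⟩ := this
    rw [Set.mem_singleton_iff] at hw
    rw [hw] at huw
    exact ⟨u, hu, huw⟩
  obtain ⟨u2, hu2, hg2e⟩ : ∃ u2 ∈ B', ends g2 = s(u2, y2) := by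
    have : g2 ∈ Between ends B' {y2} := by rw [hg2]; exact Set.mem_singleton _
    obtain ⟨u, hu, w, hw, huw⟩ := this
    rw [Set.mem_singleton_iff] at hw
    rw [hw] at huw
    exact ⟨u, hu, huw⟩
  obtain ⟨s1, hs1, hβ1e⟩ : ∃ s1 ∈ S, ends β1 = s(s1, y1) := by
    have : β1 ∈ Between ends S {y1} := by rw [hβ1]; exact Set.mem_singleton _
    obtain ⟨u, hu, w, hw, huw⟩ := this
    rw [Set.mem_singleton_iff] at hw
    rw [hw] at huw
    exact ⟨u, hu, huw⟩
  obtain ⟨s2, hs2, hβ2e⟩ : ∃ s2 ∈ S, ends β2 = s(s2, y2) := by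
    have : β2 ∈ Between ends S {y2} := by rw [hβ2]; exact Set.mem_singleton _
    obtain ⟨u, hu, w, hw, huw⟩ := this
    rw [Set.mem_singleton_iff] at hw
    rw [hw] at huw
    exact ⟨u, hu, huw⟩
  have lg1 : g1 ∈ Legs ends B' := by
    rw [mem_legs_iff ends B' g1 u1 y1 hg1e]
    exact Or.inl ⟨hu1, h1B⟩
  have lg2 : g2 ∈ Legs ends B' := by
    rw [mem_legs_iff ends B' g2 u2 y2 hg2e]
    exact Or.inl ⟨hu2, h2B⟩
  have hg12 : g1 ≠ g2 := by
    intro h
    have : y1 ∈ ends g2 := by rw [← h, hg1e]; exact Sym2.mem_mk_right _ _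
    rw [hg2e, Sym2.mem_iff] at this
    rcases this with h | h
    · exact h1B (h ▸ hu2)
    · exact h12 h
  -- the set of edges between `S` and `B'`
  set T : Finset E := univ.filter (fun e => e ∈ Between ends S B') with hT
  have hTe : ∀ e ∈ T, ∃ a ∈ S, ∃ c ∈ B', ends e = s(a, c) := fun e he =>
    (Finset.mem_filter.1 he).2
  have hT1 : g1 ∉ T := by
    intro he
    obtain ⟨a, ha, c, hc, hac⟩ := hTe g1 he
    have : a ∈ ends g1 := by rw [hac]; exact Sym2.mem_mk_left _ _
    rw [hg1e, Sym2.mem_iff] at this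
    rcases this with h | h
    · exact nSB' a ha (h ▸ hu1)
    · exact h1S (h ▸ ha)
  have hT2 : g2 ∉ T := by
    intro he
    obtain ⟨a, ha, c, hc, hac⟩ := hTe g2 he
    have : a ∈ ends g2 := by rw [hac]; exact Sym2.mem_mk_left _ _
    rw [hg2e, Sym2.mem_iff] at this
    rcases this with h | h
    · exact nSB' a ha (h ▸ hu2)
    · exact h2S (h ▸ ha)
  obtain ⟨b', hb'L, q1, q2, hq1, hq1g, hq2, hq2g, hqs⟩ :=
    claimA ends B' L' hL'ne hL'sw g1 g2 hg12 lg1 lg2 T hT1 hT2
  obtain ⟨bR, hbR⟩ := hLRne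
  have hbRsum := good_sum_zero ends hl R bR (hLRg bR hbR)
  -- legs of `B'` and of `R`
  have hLBR : ∀ e, e ∈ Legs ends B' → e ∉ Legs ends R := by
    intro e he heR
    obtain ⟨a, c, hac⟩ := exists_ends ends e
    rw [mem_legs_iff ends _ e a c hac] at he heR
    rcases he with ⟨h1, h2⟩ | ⟨h1, h2⟩ <;> rcases heR with ⟨h3, h4⟩ | ⟨h3, h4⟩
    · exact nB'R a h1 h3
    · exact noBR e a c hac (iB' a h1) h4
    · exact noBR e c a (hac.trans Sym2.eq_swap) (iB' c h2) h3
    · exact nB'R c h2 h4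
  have hLegsR : ∀ e, e ∈ Legs ends R → ∃ a ∈ S, ∃ c ∈ R, ends e = s(a, c) := by
    intro e he
    have key : ∀ a c, ends e = s(a, c) → a ∈ R → c ∉ R → c ∈ S := by
      intro a c hac ha hc
      by_cases hcK : c ∈ S ∪ B ∪ R
      · rcases hcK with (h | h) | h
        · exact h
        · exact (noBR e c a (hac.trans Sym2.eq_swap) h ha).elim
        · exact absurd h hc
      · exfalso
        apply hR e
        · rw [mem_legs_iff ends _ e a c hac]
          exact Or.inl ⟨Or.inr ha, hcK⟩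
        · rw [mem_touch_iff ends _ e a c hac]
          exact Or.inl ha
    obtain ⟨a, c, hac⟩ := exists_ends ends e
    rw [mem_legs_iff ends _ e a c hac] at he
    rcases he with ⟨h1, h2⟩ | ⟨h1, h2⟩
    · exact ⟨c, key a c hac h1 h2, a, h1, hac.trans Sym2.eq_swap⟩
    · exact ⟨a, key c a (hac.trans Sym2.eq_swap) h2 h1, c, h2, hac⟩
  -- the vector
  obtain ⟨b, vB, vR, vβ1, vβ2, vy1, vy2⟩ : ∃ b : E → W,
      (∀ e, e ∈ Legs ends B' → b e = b' e) ∧
      (∀ e, e ∉ Legs ends B' → e ∈ Legs ends R → b e = bR e) ∧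
      (β1 ∉ Legs ends B' → β1 ∉ Legs ends R → b β1 = q1) ∧
      (β2 ∉ Legs ends B' → β2 ∉ Legs ends R → β2 ≠ β1 → b β2 = q2) ∧
      (∀ e, e ∉ Legs ends B' → e ∉ Legs ends R → e ≠ β1 → e ≠ β2 → y1 ∈ ends e →
        b e = q1 + b' g1) ∧
      (∀ e, e ∉ Legs ends B' → e ∉ Legs ends R → e ≠ β1 → e ≠ β2 → y1 ∉ ends e →
        b e = q2 + b' g2) := by
    refine ⟨fun e => if e ∈ Legs ends B' then b' e else if e ∈ Legs ends R then bR e else
      if e = β1 then q1 else if e = β2 then q2 else if y1 ∈ ends e then q1 + b' g1 else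
      q2 + b' g2, ?_, ?_, ?_, ?_, ?_, ?_⟩
    · intro e h; simp only [if_pos h]
    · intro e h1 h2; simp only [if_neg h1, if_pos h2]
    · intro h1 h2; simp only [if_neg h1, if_neg h2, if_true]
    · intro h1 h2 h3; simp only [if_neg h1, if_neg h2, if_neg h3, if_true]
    · intro e h1 h2 h3 h4 h5; simp only [if_neg h1, if_neg h2, if_neg h3, if_neg h4, if_pos h5]
    · intro e h1 h2 h3 h4 h5; simp only [if_neg h1, if_neg h2, if_neg h3, if_neg h4, if_neg h5]
  have nβ1B : β1 ∉ Legs ends B' := by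
    rw [mem_legs_iff ends _ β1 s1 y1 hβ1e]
    rintro (⟨h, _⟩ | ⟨_, h⟩)
    · exact nSB' s1 hs1 h
    · exact h1B h
  have nβ1R : β1 ∉ Legs ends R := by
    rw [mem_legs_iff ends _ β1 s1 y1 hβ1e]
    rintro (⟨h, _⟩ | ⟨_, h⟩)
    · exact nSR s1 hs1 h
    · exact h1R h
  have nβ2B : β2 ∉ Legs ends B' := by
    rw [mem_legs_iff ends _ β2 s2 y2 hβ2e]
    rintro (⟨h, _⟩ | ⟨_, h⟩)
    · exact nSB' s2 hs2 h
    · exact h2B h
  have nβ2R : β2 ∉ Legs ends R := by
    rw [mem_legs_iff ends _ β2 s2 y2 hβ2e]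
    rintro (⟨h, _⟩ | ⟨_, h⟩)
    · exact nSR s2 hs2 h
    · exact h2R h
  have hy1β2 : y1 ∉ ends β2 := by
    rw [hβ2e, Sym2.mem_iff]
    rintro (h | h)
    · exact h1S (h ▸ hs2)
    · exact h12 h
  have hβ12 : β2 ≠ β1 := by
    intro h
    apply hy1β2
    rw [h, hβ1e]
    exact Sym2.mem_mk_right _ _
  have wβ1 : b β1 = q1 := vβ1 nβ1B nβ1R
  have wβ2 : b β2 = q2 := vβ2 nβ2B nβ2R hβ12
  have wR : ∀ e, e ∈ Legs ends R → b e = bR e := fun e he =>
    vR e (fun h => hLBR e h he) he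
  -- the other end of an edge at `y`
  have other : ∀ (y : V) (e : E), y ∈ ends e → ∃ c, c ≠ y ∧ ends e = s(c, y) := by
    intro y e hy
    obtain ⟨a, c, hac⟩ := exists_ends ends e
    have hne : a ≠ c := by
      have := hl e
      rw [hac] at this
      simpa using this
    rw [hac, Sym2.mem_iff] at hy
    rcases hy with rfl | rfl
    · exact ⟨c, hne.symm, hac.trans Sym2.eq_swap⟩
    · exact ⟨a, hne, hac⟩
  have legs1 : ∀ (y : V) (e : E), e ∈ Legs ends {y} ↔ y ∈ ends e := by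
    intro y e
    constructor
    · rintro ⟨⟨v, hv, hvy⟩, _⟩
      rw [Set.mem_singleton_iff] at hvy
      rwa [← hvy]
    · intro hy
      obtain ⟨c, hc, hce⟩ := other y e hy
      rw [mem_legs_iff ends _ e c y hce]
      exact Or.inr ⟨hc, rfl⟩
  have allY : ∀ (y : V) (g β : E) (q : W), y ∈ S ∪ {y1, y2} → y ∈ ends g → y ∈ ends β → g ≠ β →
      b g ≠ 0 → b β = q → q ≠ 0 → q ≠ b g →
      (∀ e, y ∈ ends e → e ≠ g → e ≠ β → b e = q + b g) → b ∈ AllL ends {y} := by
    intro y g β q hy hyg hyβ hgβ hg0 hbβ hq0 hqg hoth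
    have hset : univ.filter (fun e => e ∈ Legs ends {y}) =
        univ.filter (fun e => y ∈ ends e) := by
      ext e
      simp only [Finset.mem_filter, Finset.mem_univ, true_and]
      exact legs1 y e
    have hcard := hcub y hy
    obtain ⟨t, ht⟩ : ∃ t, (univ.filter (fun e => y ∈ ends e)) = {g, β, t} ∧ t ≠ g ∧ t ≠ β := by
      have hsub : ({g, β} : Finset E) ⊆ univ.filter (fun e => y ∈ ends e) := by
        intro e he
        simp only [Finset.mem_insert, Finset.mem_singleton] at he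
        rcases he with rfl | rfl
        · exact Finset.mem_filter.2 ⟨Finset.mem_univ _, hyg⟩
        · exact Finset.mem_filter.2 ⟨Finset.mem_univ _, hyβ⟩
      have h1 := Finset.card_sdiff_add_card_eq_card hsub
      rw [hcard, Finset.card_pair hgβ] at h1
      obtain ⟨t, ht⟩ := Finset.card_eq_one.1 (by omega :
        ((univ.filter (fun e => y ∈ ends e)) \ {g, β}).card = 1)
      have htm : t ∈ (univ.filter (fun e => y ∈ ends e)) \ {g, β} := by
        rw [ht]; exact Finset.mem_singleton_self _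
      have htn := (Finset.mem_sdiff.1 htm).2
      simp only [Finset.mem_insert, Finset.mem_singleton, not_or] at htn
      refine ⟨t, ?_, htn.1, htn.2⟩
      have h2 := Finset.sdiff_union_of_subset hsub
      rw [ht] at h2
      rw [← h2]
      ext e
      simp only [Finset.mem_union, Finset.mem_singleton, Finset.mem_insert]
      tauto
    obtain ⟨hF, htg, htβ⟩ := ht
    have hyt : y ∈ ends t := by
      have : t ∈ univ.filter (fun e => y ∈ ends e) := by rw [hF]; simp
      exact (Finset.mem_filter.1 this).2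
    have hbt := hoth t hyt htg htβ
    have hqbg : q + b g ≠ 0 := by
      intro h0
      exact hqg (W_eq_of_add _ _ h0)
    refine ⟨?_, ?_⟩
    · intro e he
      have he' : e ∈ univ.filter (fun e => y ∈ ends e) :=
        Finset.mem_filter.2 ⟨Finset.mem_univ _, (legs1 y e).1 he⟩
      rw [hF] at he'
      simp only [Finset.mem_insert, Finset.mem_singleton] at he'
      rcases he' with rfl | rfl | rfl
      · exact hg0
      · rw [hbβ]; exact hq0
      · rw [hbt]; exact hqbg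
    · rw [hset, hF, Finset.sum_insert (by
        simp only [Finset.mem_insert, Finset.mem_singleton, not_or]
        exact ⟨hgβ, htg.symm⟩), Finset.sum_pair htβ.symm, hbβ, hbt]
      exact w_sum _ _
  have hy1in : y1 ∈ S ∪ {y1, y2} := Or.inr (Or.inl rfl)
  have hy2in : y2 ∈ S ∪ {y1, y2} := Or.inr (Or.inr rfl)
  have mg1 : y1 ∈ ends g1 := by rw [hg1e]; exact Sym2.mem_mk_right _ _
  have mg2 : y2 ∈ ends g2 := by rw [hg2e]; exact Sym2.mem_mk_right _ _
  have mβ1 : y1 ∈ ends β1 := by rw [hβ1e]; exact Sym2.mem_mk_right _ _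
  have mβ2 : y2 ∈ ends β2 := by rw [hβ2e]; exact Sym2.mem_mk_right _ _
  have hgβ1 : g1 ≠ β1 := fun h => nβ1B (h ▸ lg1)
  have hgβ2 : g2 ≠ β2 := fun h => nβ2B (h ▸ lg2)
  have wg1 : b g1 = b' g1 := vB g1 lg1
  have wg2 : b g2 = b' g2 := vB g2 lg2
  -- an edge at `yi` which is not `gi` is not a leg of `B'`; it is not a leg of `R`
  have nB1 : ∀ e, y1 ∈ ends e → e ≠ g1 → e ∉ Legs ends B' := by
    intro e he hne hl'
    obtain ⟨c, hc, hce⟩ := other y1 e he
    rw [mem_legs_iff ends _ e c y1 hce] at hl'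
    rcases hl' with ⟨h, _⟩ | ⟨_, h⟩
    · exact hne (hmem1 e c h hce)
    · exact h1B h
  have nB2 : ∀ e, y2 ∈ ends e → e ≠ g2 → e ∉ Legs ends B' := by
    intro e he hne hl'
    obtain ⟨c, hc, hce⟩ := other y2 e he
    rw [mem_legs_iff ends _ e c y2 hce] at hl'
    rcases hl' with ⟨h, _⟩ | ⟨_, h⟩
    · exact hne (hmem2 e c h hce)
    · exact h2B h
  have nR1 : ∀ e, y1 ∈ ends e → e ∉ Legs ends R := by
    intro e he hl'
    obtain ⟨a, ha, c, hc, hac⟩ := hLegsR e hl'
    rw [hac, Sym2.mem_iff] at he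
    rcases he with h | h
    · exact h1S (h ▸ ha)
    · exact h1R (h ▸ hc)
  have nR2 : ∀ e, y2 ∈ ends e → e ∉ Legs ends R := by
    intro e he hl'
    obtain ⟨a, ha, c, hc, hac⟩ := hLegsR e hl'
    rw [hac, Sym2.mem_iff] at he
    rcases he with h | h
    · exact h2S (h ▸ ha)
    · exact h2R (h ▸ hc)
  have hA1 : b ∈ AllL ends {y1} := by
    apply allY y1 g1 β1 q1 hy1in mg1 mβ1 hgβ1
    · rw [wg1]; exact hL'sw.nz b' hb'L g1 lg1
    · exact wβ1
    · exact hq1
    · rw [wg1]; exact hq1g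
    · intro e he h1 h2
      rw [wg1]
      exact vy1 e (nB1 e he h1) (nR1 e he) h2 (fun h => hy1β2 (h ▸ he)) he
  have hA2 : b ∈ AllL ends {y2} := by
    apply allY y2 g2 β2 q2 hy2in mg2 mβ2 hgβ2
    · rw [wg2]; exact hL'sw.nz b' hb'L g2 lg2
    · exact wβ2
    · exact hq2
    · rw [wg2]; exact hq2g
    · intro e he h1 h2
      rw [wg2]
      have hy1e : y1 ∉ ends e := by
        intro h
        obtain ⟨c, hc, hce⟩ := other y2 e he
        rw [hce, Sym2.mem_iff] at h
        rcases h with h | h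
        · have : e ∈ Between ends {y1} {y2} := ⟨c, h.symm, y2, rfl, hce⟩
          rw [hno12] at this
          exact this
        · exact h12 h
      exact vy2 e (nB2 e he h1) (nR2 e he) (fun h => hy1e (h ▸ mβ1)) h2 hy1e
  -- legs of `S`
  have hLS : ∀ e, e ∈ Legs ends S ↔ e ∈ T ∨ e = β1 ∨ e = β2 ∨ e ∈ Legs ends R := by
    intro e
    constructor
    · intro he
      have key : ∀ a c, ends e = s(a, c) → a ∈ S → c ∉ S →
          e ∈ T ∨ e = β1 ∨ e = β2 ∨ e ∈ Legs ends R := by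
        intro a c hac ha hc
        by_cases hcK : c ∈ S ∪ B ∪ R
        · rcases hcK with (h | ((h | h) | h)) | h
          · exact absurd h hc
          · left
            exact Finset.mem_filter.2 ⟨Finset.mem_univ _, a, ha, c, h, hac⟩
          · rw [Set.mem_singleton_iff] at h
            rw [h] at hac
            exact Or.inr (Or.inl (hmem3 e a ha hac))
          · rw [Set.mem_singleton_iff] at h
            rw [h] at hac
            exact Or.inr (Or.inr (Or.inl (hmem4 e a ha hac)))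
          · right; right; right
            rw [mem_legs_iff ends _ e a c hac]
            exact Or.inr ⟨nSR a ha, h⟩
        · exfalso
          apply hS0 e
          · rw [mem_legs_iff ends _ e a c hac]
            exact Or.inl ⟨Or.inl (Or.inl ha), hcK⟩
          · rw [mem_touch_iff ends _ e a c hac]
            exact Or.inl ha
      obtain ⟨a, c, hac⟩ := exists_ends ends e
      rw [mem_legs_iff ends _ e a c hac] at he
      rcases he with ⟨h1, h2⟩ | ⟨h1, h2⟩
      · exact key a c hac h1 h2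
      · exact key c a (hac.trans Sym2.eq_swap) h2 h1
    · rintro (he | rfl | rfl | he)
      · obtain ⟨a, ha, c, hc, hac⟩ := hTe e he
        rw [mem_legs_iff ends _ e a c hac]
        exact Or.inl ⟨ha, fun h => nSB' c h hc⟩
      · rw [mem_legs_iff ends _ _ s1 y1 hβ1e]
        exact Or.inl ⟨hs1, h1S⟩
      · rw [mem_legs_iff ends _ _ s2 y2 hβ2e]
        exact Or.inl ⟨hs2, h2S⟩
      · obtain ⟨a, ha, c, hc, hac⟩ := hLegsR e he
        rw [mem_legs_iff ends _ e a c hac]
        exact Or.inl ⟨ha, fun h => nSR c h hc⟩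
  have hTB : ∀ e ∈ T, e ∈ Legs ends B' := by
    intro e he
    obtain ⟨a, ha, c, hc, hac⟩ := hTe e he
    rw [mem_legs_iff ends _ e a c hac]
    exact Or.inr ⟨nSB' a ha, hc⟩
  have hAS : b ∈ AllL ends S := by
    refine ⟨?_, ?_⟩
    · intro e he
      rcases (hLS e).1 he with h | rfl | rfl | h
      · rw [vB e (hTB e h)]
        exact hL'sw.nz b' hb'L e (hTB e h)
      · rw [wβ1]; exact hq1
      · rw [wβ2]; exact hq2
      · rw [wR e h]
        exact hLRsw.nz bR hbR e h
    · have hset : univ.filter (fun e => e ∈ Legs ends S) =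
          (T ∪ {β1, β2}) ∪ univ.filter (fun e => e ∈ Legs ends R) := by
        ext e
        simp only [Finset.mem_filter, Finset.mem_univ, true_and, Finset.mem_union,
          Finset.mem_insert, Finset.mem_singleton]
        rw [hLS e]
        tauto
      have d1 : Disjoint T {β1, β2} := by
        rw [Finset.disjoint_left]
        intro e he he2
        simp only [Finset.mem_insert, Finset.mem_singleton] at he2
        rcases he2 with rfl | rfl
        · exact nβ1B (hTB _ he)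
        · exact nβ2B (hTB _ he)
      have d2 : Disjoint (T ∪ {β1, β2}) (univ.filter (fun e => e ∈ Legs ends R)) := by
        rw [Finset.disjoint_left]
        intro e he he2
        have he2' := (Finset.mem_filter.1 he2).2
        simp only [Finset.mem_union, Finset.mem_insert, Finset.mem_singleton] at he
        rcases he with he | rfl | rfl
        · exact hLBR e (hTB e he) he2'
        · exact nβ1R he2'
        · exact nβ2R he2'
      rw [hset, Finset.sum_union d2, Finset.sum_union d1, Finset.sum_pair hβ12.symm, wβ1, wβ2]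
      have e1 : ∑ e ∈ T, b e = ∑ e ∈ T, b' e :=
        Finset.sum_congr rfl fun e he => vB e (hTB e he)
      have e2 : ∑ e ∈ univ.filter (fun e => e ∈ Legs ends R), b e = 0 := by
        rw [← hbRsum]
        exact Finset.sum_congr rfl fun e he => wR e (Finset.mem_filter.1 he).2
      rw [e1, e2, hqs, add_zero]
      exact W_add_self _
  have hbL' : b ∈ L' := hL'sw.congr b' hb'L b fun e he => (vB e he).symm
  have hbLR : b ∈ LR := hLRsw.congr bR hbR b fun e he => (wR e he).symm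
  -- the language
  refine ⟨Gl ends (S ∪ B) R (Gl ends S B (AllL ends S) (Gl ends (B' ∪ {y1}) {y2}
    (Gl ends B' {y1} L' (AllL ends {y1})) (AllL ends {y2}))) LR, ?_, ?_, ?_⟩
  · refine ⟨b, b, ⟨b, hAS, ⟨b, ⟨b, hbL', hA1, fun _ _ => rfl⟩, hA2, fun _ _ => rfl⟩,
      fun _ _ => rfl⟩, hbLR, fun _ _ => rfl⟩
  · exact glue_switch ends (S ∪ B) R dSBR _ _
      (glue_switch ends S B dSB _ _ (allL_switch ends S)
        (glue_switch ends (B' ∪ {y1}) {y2} dB2 _ _
          (glue_switch ends B' {y1} dB1 _ _ hL'sw (allL_switch ends {y1}))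
          (allL_switch ends {y2}))) hLRsw
  · rintro b0 ⟨b1, ⟨b2, hb2S, ⟨b3, ⟨b4, hb4L, hb4y, h43⟩, hb3y, h32⟩, h21⟩, hb1R, h10⟩
    have G1 : Good ends (B' ∪ {y1}) b3 := by
      refine Good.congr (glue_good ends hl B' {y1} dB1 ?_ b4 (hL'g b4 hb4L)
        (vertex_good ends hl y1 b4 hb4y)) h43
      rw [hg1]; exact Set.singleton_nonempty _
    have G2 : Good ends B b2 := by
      refine Good.congr (glue_good ends hl (B' ∪ {y1}) {y2} dB2 ?_ b3 G1
        (vertex_good ends hl y2 b3 hb3y)) h32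
      exact ⟨g2, u2, Or.inl hu2, y2, rfl, hg2e⟩
    have hRSB : ∀ e, e ∈ Legs ends R → e ∈ Legs ends (S ∪ B) := by
      intro e he
      obtain ⟨a, ha, c, hc, hac⟩ := hLegsR e he
      rw [mem_legs_iff ends _ e a c hac]
      exact Or.inl ⟨Or.inl ha, fun h => Set.disjoint_left.1 dSBR h hc⟩
    have G3 : GoodM ends R b2 :=
      GoodM.congr (hLRg b1 hb1R) fun e he => (h21 e (hRSB e he)).symm
    have hcubS : CubicOn ends S := fun v hv => hcub v (Or.inl hv)
    obtain ⟨P, i, X, comp, f, _, hrob, hone, hf⟩ := hub_good ends hl X1 hX1 S B R hS hcubS dSB hSR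
      dBR hno hR (fun e he e' _ hte _ => absurd hte (hS0 e he)) b2 hb2S G2 G3
    refine ⟨P, i, X, comp, f, hrob, hone, fun e he => ?_⟩
    have heSB : e ∈ Legs ends (S ∪ B) := by
      obtain ⟨a, c, hac⟩ := exists_ends ends e
      have hnt := hR e he
      rw [mem_touch_iff ends _ e a c hac] at hnt
      rw [mem_legs_iff ends _ e a c hac] at he ⊢
      rcases he with ⟨h1, h2⟩ | ⟨h1, h2⟩
      · refine Or.inl ⟨?_, fun h => h2 (Or.inl h)⟩
        rcases h1 with h1 | h1
        · exact h1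
        · exact absurd (Or.inl h1) hnt
      · refine Or.inr ⟨fun h => h1 (Or.inl h), ?_⟩
        rcases h2 with h2 | h2
        · exact h2
        · exact absurd (Or.inr h2) hnt
    rw [hf e he, h21 e heSB, h10 e he]

end Pool.Agent.Helper37.IE
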