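import Mathlib
import Pool.Agent.Helper37.IE.Defs
import Pool.Agent.Helper37.IE.St.Glue
import Pool.Agent.Helper37.IE.St.AllL
import Pool.Agent.Helper37.IE.St.VertexGood
import Pool.Agent.Helper37.IE.St.UnionGood
import Pool.Agent.Helper37.IE.St.GlueGood
import Pool.Agent.Helper37.IE.St.Hub

/-! MP_7cf8d2, piece IE-8b: circuit step with one mark `y` and one direct leg `e0`.
`K = S ∪ B ∪ R`, `S` = vertices of the cycle `X1`, `B = B' ∪ {y}` contains all legs of `K` but `e0`,
`R` has no legs of `K` and no edges to `B`.  `L_B = Gl B' {y} L' (AllL {y})`,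
`L = Gl (S ∪ B) R (Gl S B (AllL S) L_B) L_R`.  Good: `hub_good`, `glue_good` (edge `g`),
`vertex_good`.  Nonempty: take `b' ∈ L'`, `bR ∈ L_R` (the sum of `bR` over the edges from `S` to `R`
is `0` by `good_sum_zero`, all legs of `R` end in `S`), `σ` = sum of `b'` over `Between S B'`;
value `q ∉ {0, b' g, σ}` at `β`, `q + b' g` at the third edge of `y`, `σ + q` at `e0`. -/

namespace Pool.Agent.Helper37.IE

open Finset Pool.Agent.Helper49.CDC Pool.Agent.Helper37.GRT
open scoped Classical

universe u v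

variable {V : Type v} {E : Type u}

namespace Circ1aux

theorem choose_q (g σ : W) : ∃ q : W, q ≠ 0 ∧ q ≠ g ∧ q ≠ σ := by
  revert g σ; decide

theorem w_sum (x q : W) : x + (q + (q + x)) = 0 := by
  revert x q; decide

theorem w_sum' (σ q : W) : σ + (q + (σ + q)) = 0 := by
  revert σ q; decide

theorem congrG [Fintype V] [Fintype E] {ends : E → Sym2 V} {K : Set V} {b b' : E → W}
    (h : Good ends K b) (hb : ∀ e ∈ Legs ends K, b e = b' e) : Good ends K b' := by
  obtain ⟨P, i, X, comp, f, h1, h2, h3⟩ := h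
  exact ⟨P, i, X, comp, f, h1, h2, fun e he => (h3 e he).trans (hb e he)⟩

theorem congrM [Fintype V] [Fintype E] {ends : E → Sym2 V} {K : Set V} {b b' : E → W}
    (h : GoodM ends K b) (hb : ∀ e ∈ Legs ends K, b e = b' e) : GoodM ends K b' := by
  obtain ⟨P, i, X, comp, f, h1, h3⟩ := h
  exact ⟨P, i, X, comp, f, h1, fun e he => (h3 e he).trans (hb e he)⟩

end Circ1aux

open Circ1aux

theorem step_circ1 [Fintype V] [Fintype E] (ends : E → Sym2 V) (hl : ∀ e, ¬ (ends e).IsDiag)
    (X1 : Set E) (hX1 : IsCycle ends X1) (S B' R : Set V) (y : V)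
    (hS : S = verts ends X1) (hcub : CubicOn ends (S ∪ {y}))
    (hSB : Disjoint S B') (hSR : Disjoint S R) (hBR : Disjoint B' R)
    (hyS : y ∉ S) (hyB : y ∉ B') (hyR : y ∉ R) (g β e0 : E)
    (hg : Between ends B' {y} = {g}) (hβ : Between ends S {y} = {β})
    (hno : Between ends (B' ∪ {y}) R = ∅)
    (hR : ∀ e ∈ Legs ends (S ∪ (B' ∪ {y}) ∪ R), e ∉ Touch ends R)
    (hS1 : ∀ e, (e ∈ Legs ends (S ∪ (B' ∪ {y}) ∪ R) ∧ e ∈ Touch ends S) ↔ e = e0)
    (h : Fine ends B') (hRf : FineM ends R) :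
    Fine ends (S ∪ (B' ∪ {y}) ∪ R) := by
  obtain ⟨L', hL'ne, hL'sw, hL'g⟩ := h
  obtain ⟨LR, hLRne, hLRsw, hLRg⟩ := hRf
  set B : Set V := B' ∪ {y} with hB
  -- disjointness
  have dSB : Disjoint S B := by
    rw [Set.disjoint_left]
    rintro v hv (h | h)
    · exact Set.disjoint_left.1 hSB hv h
    · exact hyS (h ▸ hv)
  have dBR : Disjoint B R := by
    rw [Set.disjoint_left]
    rintro v (h | h) hv
    · exact Set.disjoint_left.1 hBR h hv
    · exact hyR (h ▸ hv)
  have dB1 : Disjoint B' {y} := Set.disjoint_singleton_right.2 hyB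
  have dSBR : Disjoint (S ∪ B) R := by
    rw [Set.disjoint_left]
    rintro v (h | h) hv
    · exact Set.disjoint_left.1 hSR h hv
    · exact Set.disjoint_left.1 dBR h hv
  have nSB' : ∀ v, v ∈ S → v ∉ B' := fun v h1 h2 => Set.disjoint_left.1 hSB h1 h2
  have nSR : ∀ v, v ∈ S → v ∉ R := fun v h1 h2 => Set.disjoint_left.1 hSR h1 h2
  have nB'R : ∀ v, v ∈ B' → v ∉ R := fun v h1 h2 => Set.disjoint_left.1 hBR h1 h2
  have iB' : ∀ v, v ∈ B' → v ∈ B := fun v h => Or.inl h
  have iy1 : y ∈ B := Or.inr rfl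
  -- no edge between `B` and `R`
  have noBR : ∀ e a c, ends e = s(a, c) → a ∈ B → c ∈ R → False := by
    intro e a c hac ha hc
    have : e ∈ Between ends B R := ⟨a, ha, c, hc, hac⟩
    rw [hno] at this
    exact this
  -- the special edges
  have hmem1 : ∀ e a, a ∈ B' → ends e = s(a, y) → e = g := by
    intro e a ha hea
    have : e ∈ Between ends B' {y} := ⟨a, ha, y, rfl, hea⟩
    rw [hg] at this
    exact this
  have hmem3 : ∀ e a, a ∈ S → ends e = s(a, y) → e = β := by
    intro e a ha hea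
    have : e ∈ Between ends S {y} := ⟨a, ha, y, rfl, hea⟩
    rw [hβ] at this
    exact this
  obtain ⟨u1, hu1, hge⟩ : ∃ u1 ∈ B', ends g = s(u1, y) := by
    have : g ∈ Between ends B' {y} := by rw [hg]; exact Set.mem_singleton _
    obtain ⟨u, hu, w, hw, huw⟩ := this
    rw [Set.mem_singleton_iff] at hw
    rw [hw] at huw
    exact ⟨u, hu, huw⟩
  obtain ⟨s1, hs1, hβe⟩ : ∃ s1 ∈ S, ends β = s(s1, y) := by
    have : β ∈ Between ends S {y} := by rw [hβ]; exact Set.mem_singleton _
    obtain ⟨u, hu, w, hw, huw⟩ := this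
    rw [Set.mem_singleton_iff] at hw
    rw [hw] at huw
    exact ⟨u, hu, huw⟩
  have lg : g ∈ Legs ends B' := by
    rw [mem_legs_iff ends B' g u1 y hge]
    exact Or.inl ⟨hu1, hyB⟩
  -- the direct leg
  obtain ⟨s0, hs0, t0, ht0, he0⟩ : ∃ s0 ∈ S, ∃ t0, t0 ∉ S ∪ B ∪ R ∧ ends e0 = s(s0, t0) := by
    obtain ⟨h1, h2⟩ := (hS1 e0).2 rfl
    obtain ⟨a, c, hac⟩ := exists_ends ends e0
    rw [mem_legs_iff ends _ e0 a c hac] at h1
    rw [mem_touch_iff ends _ e0 a c hac] at h2
    rcases h1 with ⟨h3, h4⟩ | ⟨h3, h4⟩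
    · rcases h2 with h2 | h2
      · exact ⟨a, h2, c, h4, hac⟩
      · exact absurd (Or.inl (Or.inl h2)) h4
    · rcases h2 with h2 | h2
      · exact absurd (Or.inl (Or.inl h2)) h3
      · exact ⟨c, h2, a, h3, hac.trans Sym2.eq_swap⟩
  -- the set of edges between `S` and `B'`
  set T : Finset E := univ.filter (fun e => e ∈ Between ends S B') with hT
  have hTe : ∀ e ∈ T, ∃ a ∈ S, ∃ c ∈ B', ends e = s(a, c) := fun e he =>
    (Finset.mem_filter.1 he).2
  obtain ⟨b', hb'L⟩ := hL'ne
  obtain ⟨q, hq, hqg, hqσ⟩ := choose_q (b' g) (∑ e ∈ T, b' e)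
  obtain ⟨bR, hbR⟩ := hLRne
  have hbRsum := good_sum_zero ends hl R bR (hLRg bR hbR)
  -- legs of `B'` and of `R`
  have hLBR : ∀ e, e ∈ Legs ends B' → e ∉ Legs ends R := by
    intro e he heR
    obtain ⟨a, c, hac⟩ := exists_ends ends e
    rw [mem_legs_iff ends _ e a c hac] at he heR
    rcases he with ⟨h1, h2⟩ | ⟨h1, h2⟩ <;> rcases heR with ⟨h3, h4⟩ | ⟨h3, h4⟩
    · exact nB'R a h1 h3
    · exact noBR e a c hac (iB' a h1) h4
    · exact noBR e c a (hac.trans Sym2.eq_swap) (iB' c h2) h3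
    · exact nB'R c h2 h4
  have hLegsR : ∀ e, e ∈ Legs ends R → ∃ a ∈ S, ∃ c ∈ R, ends e = s(a, c) := by
    intro e he
    have key : ∀ a c, ends e = s(a, c) → a ∈ R → c ∉ R → c ∈ S := by
      intro a c hac ha hc
      by_cases hcK : c ∈ S ∪ B ∪ R
      · rcases hcK with (h | h) | h
        · exact h
        · exact (noBR e c a (hac.trans Sym2.eq_swap) h ha).elim
        · exact absurd h hc
      · exfalso
        apply hR e
        · rw [mem_legs_iff ends _ e a c hac]
          exact Or.inl ⟨Or.inr ha, hcK⟩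
        · rw [mem_touch_iff ends _ e a c hac]
          exact Or.inl ha
    obtain ⟨a, c, hac⟩ := exists_ends ends e
    rw [mem_legs_iff ends _ e a c hac] at he
    rcases he with ⟨h1, h2⟩ | ⟨h1, h2⟩
    · exact ⟨c, key a c hac h1 h2, a, h1, hac.trans Sym2.eq_swap⟩
    · exact ⟨a, key c a (hac.trans Sym2.eq_swap) h2 h1, c, h2, hac⟩
  -- the vector
  obtain ⟨b, vB, vR, vβ, v0, vy⟩ : ∃ b : E → W,
      (∀ e, e ∈ Legs ends B' → b e = b' e) ∧
      (∀ e, e ∉ Legs ends B' → e ∈ Legs ends R → b e = bR e) ∧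
      (β ∉ Legs ends B' → β ∉ Legs ends R → b β = q) ∧
      (e0 ∉ Legs ends B' → e0 ∉ Legs ends R → e0 ≠ β → b e0 = (∑ e ∈ T, b' e) + q) ∧
      (∀ e, e ∉ Legs ends B' → e ∉ Legs ends R → e ≠ β → e ≠ e0 → b e = q + b' g) := by
    refine ⟨fun e => if e ∈ Legs ends B' then b' e else if e ∈ Legs ends R then bR e else
      if e = β then q else if e = e0 then (∑ e ∈ T, b' e) + q else q + b' g,
      ?_, ?_, ?_, ?_, ?_⟩
    · intro e h; simp only [if_pos h]
    · intro e h1 h2; simp only [if_neg h1, if_pos h2]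
    · intro h1 h2; simp only [if_neg h1, if_neg h2, if_true]
    · intro h1 h2 h3; simp only [if_neg h1, if_neg h2, if_neg h3, if_true]
    · intro e h1 h2 h3 h4; simp only [if_neg h1, if_neg h2, if_neg h3, if_neg h4]
  have nβB : β ∉ Legs ends B' := by
    rw [mem_legs_iff ends _ β s1 y hβe]
    rintro (⟨h, _⟩ | ⟨_, h⟩)
    · exact nSB' s1 hs1 h
    · exact hyB h
  have nβR : β ∉ Legs ends R := by
    rw [mem_legs_iff ends _ β s1 y hβe]
    rintro (⟨h, _⟩ | ⟨_, h⟩)
    · exact nSR s1 hs1 h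
    · exact hyR h
  have n0B : e0 ∉ Legs ends B' := by
    rw [mem_legs_iff ends _ e0 s0 t0 he0]
    rintro (⟨h, _⟩ | ⟨_, h⟩)
    · exact nSB' s0 hs0 h
    · exact ht0 (Or.inl (Or.inr (iB' _ h)))
  have n0R : e0 ∉ Legs ends R := by
    rw [mem_legs_iff ends _ e0 s0 t0 he0]
    rintro (⟨h, _⟩ | ⟨_, h⟩)
    · exact nSR s0 hs0 h
    · exact ht0 (Or.inr h)
  have hy0 : y ∉ ends e0 := by
    rw [he0, Sym2.mem_iff]
    rintro (h | h)
    · exact hyS (h ▸ hs0)
    · exact ht0 (Or.inl (Or.inr (h ▸ iy1)))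
  have mg : y ∈ ends g := by rw [hge]; exact Sym2.mem_mk_right _ _
  have mβ : y ∈ ends β := by rw [hβe]; exact Sym2.mem_mk_right _ _
  have h0β : e0 ≠ β := fun h => hy0 (h ▸ mβ)
  have wβ : b β = q := vβ nβB nβR
  have w0 : b e0 = (∑ e ∈ T, b' e) + q := v0 n0B n0R h0β
  have wR : ∀ e, e ∈ Legs ends R → b e = bR e := fun e he =>
    vR e (fun h => hLBR e h he) he
  -- the other end of an edge at `y`
  have other : ∀ (y : V) (e : E), y ∈ ends e → ∃ c, c ≠ y ∧ ends e = s(c, y) := by
    intro y e hy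
    obtain ⟨a, c, hac⟩ := exists_ends ends e
    have hne : a ≠ c := by
      have := hl e
      rw [hac] at this
      simpa using this
    rw [hac, Sym2.mem_iff] at hy
    rcases hy with rfl | rfl
    · exact ⟨c, hne.symm, hac.trans Sym2.eq_swap⟩
    · exact ⟨a, hne, hac⟩
  have legs1 : ∀ (y : V) (e : E), e ∈ Legs ends {y} ↔ y ∈ ends e := by
    intro y e
    constructor
    · rintro ⟨⟨v, hv, hvy⟩, _⟩
      rw [Set.mem_singleton_iff] at hvy
      rwa [← hvy]
    · intro hy
      obtain ⟨c, hc, hce⟩ := other y e hy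
      rw [mem_legs_iff ends _ e c y hce]
      exact Or.inr ⟨hc, rfl⟩
  have hgβ : g ≠ β := fun h => nβB (h ▸ lg)
  have wg : b g = b' g := vB g lg
  have nB1 : ∀ e, y ∈ ends e → e ≠ g → e ∉ Legs ends B' := by
    intro e he hne hl'
    obtain ⟨c, hc, hce⟩ := other y e he
    rw [mem_legs_iff ends _ e c y hce] at hl'
    rcases hl' with ⟨h, _⟩ | ⟨_, h⟩
    · exact hne (hmem1 e c h hce)
    · exact hyB h
  have nR1 : ∀ e, y ∈ ends e → e ∉ Legs ends R := by
    intro e he hl'
    obtain ⟨a, ha, c, hc, hac⟩ := hLegsR e hl'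
    rw [hac, Sym2.mem_iff] at he
    rcases he with h | h
    · exact hyS (h ▸ ha)
    · exact hyR (h ▸ hc)
  have hg0 : b g ≠ 0 := by rw [wg]; exact hL'sw.nz b' hb'L g lg
  have hoth : ∀ e, y ∈ ends e → e ≠ g → e ≠ β → b e = q + b g := by
    intro e he h1 h2
    rw [wg]
    exact vy e (nB1 e he h1) (nR1 e he) h2 (fun h => hy0 (h ▸ he))
  have hA1 : b ∈ AllL ends {y} := by
    have hset : univ.filter (fun e => e ∈ Legs ends {y}) =
        univ.filter (fun e => y ∈ ends e) := by
      ext e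
      simp only [Finset.mem_filter, Finset.mem_univ, true_and]
      exact legs1 y e
    have hcard := hcub y (Or.inr rfl)
    obtain ⟨t, ht⟩ : ∃ t, (univ.filter (fun e => y ∈ ends e)) = {g, β, t} ∧ t ≠ g ∧ t ≠ β := by
      have hsub : ({g, β} : Finset E) ⊆ univ.filter (fun e => y ∈ ends e) := by
        intro e he
        simp only [Finset.mem_insert, Finset.mem_singleton] at he
        rcases he with rfl | rfl
        · exact Finset.mem_filter.2 ⟨Finset.mem_univ _, mg⟩
        · exact Finset.mem_filter.2 ⟨Finset.mem_univ _, mβ⟩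
      have h1 := Finset.card_sdiff_add_card_eq_card hsub
      rw [hcard, Finset.card_pair hgβ] at h1
      obtain ⟨t, ht⟩ := Finset.card_eq_one.1 (by omega :
        ((univ.filter (fun e => y ∈ ends e)) \ {g, β}).card = 1)
      have htm : t ∈ (univ.filter (fun e => y ∈ ends e)) \ {g, β} := by
        rw [ht]; exact Finset.mem_singleton_self _
      have htn := (Finset.mem_sdiff.1 htm).2
      simp only [Finset.mem_insert, Finset.mem_singleton, not_or] at htn
      refine ⟨t, ?_, htn.1, htn.2⟩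
      have h2 := Finset.sdiff_union_of_subset hsub
      rw [ht] at h2
      rw [← h2]
      ext e
      simp only [Finset.mem_union, Finset.mem_singleton, Finset.mem_insert]
      tauto
    obtain ⟨hF, htg, htβ⟩ := ht
    have hyt : y ∈ ends t := by
      have : t ∈ univ.filter (fun e => y ∈ ends e) := by rw [hF]; simp
      exact (Finset.mem_filter.1 this).2
    have hbt := hoth t hyt htg htβ
    have hqbg : q + b g ≠ 0 := by
      intro h0
      rw [wg] at h0
      exact hqg (W_eq_of_add _ _ h0)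
    refine ⟨?_, ?_⟩
    · intro e he
      have he' : e ∈ univ.filter (fun e => y ∈ ends e) :=
        Finset.mem_filter.2 ⟨Finset.mem_univ _, (legs1 y e).1 he⟩
      rw [hF] at he'
      simp only [Finset.mem_insert, Finset.mem_singleton] at he'
      rcases he' with rfl | rfl | rfl
      · exact hg0
      · rw [wβ]; exact hq
      · rw [hbt]; exact hqbg
    · rw [hset, hF, Finset.sum_insert (by
        simp only [Finset.mem_insert, Finset.mem_singleton, not_or]
        exact ⟨hgβ, htg.symm⟩), Finset.sum_pair htβ.symm, wβ, hbt]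
      exact w_sum _ _
  -- legs of `S`
  have hLS : ∀ e, e ∈ Legs ends S ↔ e ∈ T ∨ e = β ∨ e = e0 ∨ e ∈ Legs ends R := by
    intro e
    constructor
    · intro he
      have key : ∀ a c, ends e = s(a, c) → a ∈ S → c ∉ S →
          e ∈ T ∨ e = β ∨ e = e0 ∨ e ∈ Legs ends R := by
        intro a c hac ha hc
        by_cases hcK : c ∈ S ∪ B ∪ R
        · rcases hcK with (h | (h | h)) | h
          · exact absurd h hc
          · left
            exact Finset.mem_filter.2 ⟨Finset.mem_univ _, a, ha, c, h, hac⟩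
          · rw [Set.mem_singleton_iff] at h
            rw [h] at hac
            exact Or.inr (Or.inl (hmem3 e a ha hac))
          · right; right; right
            rw [mem_legs_iff ends _ e a c hac]
            exact Or.inr ⟨nSR a ha, h⟩
        · right; right; left
          rw [← hS1 e]
          refine ⟨?_, ?_⟩
          · rw [mem_legs_iff ends _ e a c hac]
            exact Or.inl ⟨Or.inl (Or.inl ha), hcK⟩
          · rw [mem_touch_iff ends _ e a c hac]
            exact Or.inl ha
      obtain ⟨a, c, hac⟩ := exists_ends ends e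
      rw [mem_legs_iff ends _ e a c hac] at he
      rcases he with ⟨h1, h2⟩ | ⟨h1, h2⟩
      · exact key a c hac h1 h2
      · exact key c a (hac.trans Sym2.eq_swap) h2 h1
    · rintro (he | rfl | rfl | he)
      · obtain ⟨a, ha, c, hc, hac⟩ := hTe e he
        rw [mem_legs_iff ends _ e a c hac]
        exact Or.inl ⟨ha, fun h => nSB' c h hc⟩
      · rw [mem_legs_iff ends _ _ s1 y hβe]
        exact Or.inl ⟨hs1, hyS⟩
      · rw [mem_legs_iff ends _ _ s0 t0 he0]
        exact Or.inl ⟨hs0, fun h => ht0 (Or.inl (Or.inl h))⟩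
      · obtain ⟨a, ha, c, hc, hac⟩ := hLegsR e he
        rw [mem_legs_iff ends _ e a c hac]
        exact Or.inl ⟨ha, fun h => nSR c h hc⟩
  have hTB : ∀ e ∈ T, e ∈ Legs ends B' := by
    intro e he
    obtain ⟨a, ha, c, hc, hac⟩ := hTe e he
    rw [mem_legs_iff ends _ e a c hac]
    exact Or.inr ⟨nSB' a ha, hc⟩
  have hAS : b ∈ AllL ends S := by
    refine ⟨?_, ?_⟩
    · intro e he
      rcases (hLS e).1 he with h | rfl | rfl | h
      · rw [vB e (hTB e h)]
        exact hL'sw.nz b' hb'L e (hTB e h)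
      · rw [wβ]; exact hq
      · rw [w0]
        intro h0
        exact hqσ (W_eq_of_add _ _ h0).symm
      · rw [wR e h]
        exact hLRsw.nz bR hbR e h
    · have hset : univ.filter (fun e => e ∈ Legs ends S) =
          (T ∪ {β, e0}) ∪ univ.filter (fun e => e ∈ Legs ends R) := by
        ext e
        simp only [Finset.mem_filter, Finset.mem_univ, true_and, Finset.mem_union,
          Finset.mem_insert, Finset.mem_singleton]
        rw [hLS e]
        tauto
      have d1 : Disjoint T {β, e0} := by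
        rw [Finset.disjoint_left]
        intro e he he2
        simp only [Finset.mem_insert, Finset.mem_singleton] at he2
        rcases he2 with rfl | rfl
        · exact nβB (hTB _ he)
        · exact n0B (hTB _ he)
      have d2 : Disjoint (T ∪ {β, e0}) (univ.filter (fun e => e ∈ Legs ends R)) := by
        rw [Finset.disjoint_left]
        intro e he he2
        have he2' := (Finset.mem_filter.1 he2).2
        simp only [Finset.mem_union, Finset.mem_insert, Finset.mem_singleton] at he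
        rcases he with he | rfl | rfl
        · exact hLBR e (hTB e he) he2'
        · exact nβR he2'
        · exact n0R he2'
      rw [hset, Finset.sum_union d2, Finset.sum_union d1, Finset.sum_pair h0β.symm, wβ, w0]
      have e1 : ∑ e ∈ T, b e = ∑ e ∈ T, b' e :=
        Finset.sum_congr rfl fun e he => vB e (hTB e he)
      have e2 : ∑ e ∈ univ.filter (fun e => e ∈ Legs ends R), b e = 0 := by
        rw [← hbRsum]
        exact Finset.sum_congr rfl fun e he => wR e (Finset.mem_filter.1 he).2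
      rw [e1, e2, add_zero]
      exact w_sum' _ _
  have hbL' : b ∈ L' := hL'sw.congr b' hb'L b fun e he => (vB e he).symm
  have hbLR : b ∈ LR := hLRsw.congr bR hbR b fun e he => (wR e he).symm
  -- the language
  refine ⟨Gl ends (S ∪ B) R (Gl ends S B (AllL ends S)
    (Gl ends B' {y} L' (AllL ends {y}))) LR, ?_, ?_, ?_⟩
  · refine ⟨b, b, ⟨b, hAS, ⟨b, hbL', hA1, fun _ _ => rfl⟩,
      fun _ _ => rfl⟩, hbLR, fun _ _ => rfl⟩
  · exact glue_switch ends (S ∪ B) R dSBR _ _
      (glue_switch ends S B dSB _ _ (allL_switch ends S)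
        (glue_switch ends B' {y} dB1 _ _ hL'sw (allL_switch ends {y}))) hLRsw
  · rintro b0 ⟨b1, ⟨b2, hb2S, ⟨b3, hb3L, hb3y, h32⟩, h21⟩, hb1R, h10⟩
    have G2 : Good ends B b2 := by
      refine congrG (glue_good ends hl B' {y} dB1 ?_ b3 (hL'g b3 hb3L)
        (vertex_good ends hl y b3 hb3y)) h32
      rw [hg]; exact Set.singleton_nonempty _
    have hRSB : ∀ e, e ∈ Legs ends R → e ∈ Legs ends (S ∪ B) := by
      intro e he
      obtain ⟨a, ha, c, hc, hac⟩ := hLegsR e he
      rw [mem_legs_iff ends _ e a c hac]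
      exact Or.inl ⟨Or.inl ha, fun h => Set.disjoint_left.1 dSBR h hc⟩
    have G3 : GoodM ends R b2 :=
      congrM (hLRg b1 hb1R) fun e he => (h21 e (hRSB e he)).symm
    have hcubS : CubicOn ends S := fun v hv => hcub v (Or.inl hv)
    obtain ⟨P, i, X, comp, f, _, hrob, hone, hf⟩ := hub_good ends hl X1 hX1 S B R hS hcubS dSB hSR
      dBR hno hR (fun e he e' he' hte hte' =>
        ((hS1 e).1 ⟨he, hte⟩).trans ((hS1 e').1 ⟨he', hte'⟩).symm) b2 hb2S G2 G3
    refine ⟨P, i, X, comp, f, hrob, hone, fun e he => ?_⟩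
    have heSB : e ∈ Legs ends (S ∪ B) := by
      obtain ⟨a, c, hac⟩ := exists_ends ends e
      have hnt := hR e he
      rw [mem_touch_iff ends _ e a c hac] at hnt
      rw [mem_legs_iff ends _ e a c hac] at he ⊢
      rcases he with ⟨h1, h2⟩ | ⟨h1, h2⟩
      · refine Or.inl ⟨?_, fun h => h2 (Or.inl h)⟩
        rcases h1 with h1 | h1
        · exact h1
        · exact absurd (Or.inl h1) hnt
      · refine Or.inr ⟨fun h => h1 (Or.inl h), ?_⟩
        rcases h2 with h2 | h2
        · exact h2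
        · exact absurd (Or.inr h2) hnt
    rw [hf e he, h21 e heSB, h10 e he]

end Pool.Agent.Helper37.IE
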