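import Mathlib
import Pool.Agent.Helper37.IE.Defs
import Pool.Agent.Helper37.IE.St.Glue
import Pool.Agent.Helper37.IE.St.AllL
import Pool.Agent.Helper37.IE.St.VertexGood
import Pool.Agent.Helper37.IE.St.UnionGood
import Pool.Agent.Helper37.IE.St.GlueGood

/-! MP_7cf8d2, piece IE-7b.
`step_bridge`: `L = Gl K1 K2 L1 L2`, good by `glue_good`; nonempty: rotate (`rotk k`) an element of
`L2` so that the values at `f` agree; the only common leg of `K1` and `K2` is `f`.
`step_adj`: `L = Gl (K' ∪ {u}) {v} (Gl K' {u} L' (AllL {u})) (AllL {v})`, good by `glue_good` twice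
and `vertex_good`; nonempty: take `b' ∈ L'`, `ε ∉ {0, b' a, b' c}`, value `ε` at `e`, `b' a + ε` at
the third edge of `u`, `b' c + ε` at the third edge of `v`. -/

namespace Pool.Agent.Helper37.IE

open Finset Pool.Agent.Helper49.CDC Pool.Agent.Helper37.GRT
open scoped Classical

universe u v

variable {V : Type v} {E : Type u}

private theorem good_congr [Fintype V] [Fintype E] {ends : E → Sym2 V} {K : Set V} {b b' : E → W}
    (h : Good ends K b) (hb : ∀ e ∈ Legs ends K, b e = b' e) : Good ends K b' := by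
  obtain ⟨P, i, X, comp, g, h1, h2, h3⟩ := h
  exact ⟨P, i, X, comp, g, h1, h2, fun e he => (h3 e he).trans (hb e he)⟩

private theorem legs_both (ends : E → Sym2 V) (K1 K2 : Set V) (hd : Disjoint K1 K2) (e : E)
    (h1 : e ∈ Legs ends K1) (h2 : e ∈ Legs ends K2) : e ∈ Between ends K1 K2 := by
  obtain ⟨a, b, hab⟩ := exists_ends ends e
  rw [mem_legs_iff ends _ e a b hab] at h1 h2
  rw [mem_between_iff ends _ _ e a b hab]
  have hx : ∀ x, x ∈ K1 → x ∉ K2 := fun x hx hx' => Set.disjoint_left.1 hd hx hx'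
  rcases h1 with ⟨ha, hb⟩ | ⟨ha, hb⟩
  · rcases h2 with ⟨ha', _⟩ | ⟨_, hb'⟩
    · exact absurd ha' (hx a ha)
    · exact Or.inl ⟨ha, hb'⟩
  · rcases h2 with ⟨ha', _⟩ | ⟨_, hb'⟩
    · exact Or.inr ⟨hb, ha'⟩
    · exact absurd hb' (hx b hb)

private theorem between_legs (ends : E → Sym2 V) (K1 K2 : Set V) (hd : Disjoint K1 K2) (e : E)
    (h : e ∈ Between ends K1 K2) : e ∈ Legs ends K1 ∧ e ∈ Legs ends K2 := by
  obtain ⟨a, b, hab⟩ := exists_ends ends e
  rw [mem_between_iff ends _ _ e a b hab] at h
  rw [mem_legs_iff ends _ e a b hab, mem_legs_iff ends _ e a b hab]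
  have hx : ∀ x, x ∈ K1 → x ∉ K2 := fun x hx hx' => Set.disjoint_left.1 hd hx hx'
  have hx' : ∀ x, x ∈ K2 → x ∉ K1 := fun x hx hx' => Set.disjoint_left.1 hd hx' hx
  rcases h with ⟨ha, hb⟩ | ⟨hb, ha⟩
  · exact ⟨Or.inl ⟨ha, hx' b hb⟩, Or.inr ⟨hx a ha, hb⟩⟩
  · exact ⟨Or.inr ⟨hx' a ha, hb⟩, Or.inl ⟨ha, hx b hb⟩⟩

private theorem rot_match (x y : W) (hx : x ≠ 0) (hy : y ≠ 0) : ∃ k : ZMod 3, rotk k y = x := by
  revert x y
  decide

private theorem eps_exists (x y : W) : ∃ ε : W, ε ≠ 0 ∧ ε ≠ x ∧ ε ≠ y := by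
  revert x y
  decide

private theorem add_ne_zero_W (x y : W) (h : y ≠ x) : x + y ≠ 0 := by
  revert x y
  decide

private theorem sum_three_W (x y : W) : y + (x + (x + y)) = 0 := by
  revert x y
  decide

private theorem legs_single (ends : E → Sym2 V) (hl : ∀ e, ¬ (ends e).IsDiag) (u : V) (e : E) :
    e ∈ Legs ends {u} ↔ u ∈ ends e := by
  obtain ⟨a, b, hab⟩ := exists_ends ends e
  have hne : a ≠ b := by
    have := hl e
    rw [hab] at this
    simpa using this
  rw [mem_legs_iff ends _ e a b hab, hab, Sym2.mem_iff]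
  simp only [Set.mem_singleton_iff]
  constructor
  · rintro (⟨h, _⟩ | ⟨_, h⟩)
    · exact Or.inl h.symm
    · exact Or.inr h.symm
  · rintro (rfl | rfl)
    · exact Or.inl ⟨rfl, fun h => hne h.symm⟩
    · exact Or.inr ⟨hne, rfl⟩

private theorem third (S : Finset E) (hS : S.card = 3) (e a : E) (he : e ∈ S) (ha : a ∈ S)
    (hea : a ≠ e) : ∃ a', a' ≠ e ∧ a' ≠ a ∧ S = {e, a, a'} := by
  have h1 : ((S.erase e).erase a).card = 1 := by
    rw [Finset.card_erase_of_mem (Finset.mem_erase.2 ⟨hea, ha⟩), Finset.card_erase_of_mem he, hS]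
  obtain ⟨a', h2⟩ := Finset.card_eq_one.1 h1
  have h3 : a' ∈ (S.erase e).erase a := by
    rw [h2]
    exact Finset.mem_singleton_self a'
  rw [Finset.mem_erase, Finset.mem_erase] at h3
  refine ⟨a', h3.2.1, h3.1, ?_⟩
  rw [← h2, Finset.insert_erase (Finset.mem_erase.2 ⟨hea, ha⟩), Finset.insert_erase he]

private theorem glue_all_good [Fintype V] [Fintype E] (ends : E → Sym2 V)
    (hl : ∀ e, ¬ (ends e).IsDiag) (K1 K2 : Set V) (hd : Disjoint K1 K2)
    (hne : (Between ends K1 K2).Nonempty) (L1 L2 : Set (E → W))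
    (h1 : ∀ b ∈ L1, Good ends K1 b) (h2 : ∀ b ∈ L2, Good ends K2 b) :
    ∀ b ∈ Gl ends K1 K2 L1 L2, Good ends (K1 ∪ K2) b := by
  rintro b ⟨b', hb1, hb2, hb⟩
  exact good_congr (glue_good ends hl K1 K2 hd hne b' (h1 b' hb1) (h2 b' hb2)) hb

theorem step_bridge [Fintype V] [Fintype E] (ends : E → Sym2 V) (hl : ∀ e, ¬ (ends e).IsDiag)
    (K1 K2 : Set V) (hd : Disjoint K1 K2) (f : E) (hf : Between ends K1 K2 = {f})
    (h1 : Fine ends K1) (h2 : Fine ends K2) : Fine ends (K1 ∪ K2) := by
  obtain ⟨L1, ⟨b1, hb1⟩, hs1, hg1⟩ := h1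
  obtain ⟨L2, ⟨b2, hb2⟩, hs2, hg2⟩ := h2
  have hfB : f ∈ Between ends K1 K2 := by
    rw [hf]
    exact Set.mem_singleton f
  obtain ⟨hf1, hf2⟩ := between_legs ends K1 K2 hd f hfB
  obtain ⟨k, hk⟩ := rot_match (b1 f) (b2 f) (hs1.nz b1 hb1 f hf1) (hs2.nz b2 hb2 f hf2)
  refine ⟨Gl ends K1 K2 L1 L2, ?_, glue_switch ends K1 K2 hd L1 L2 hs1 hs2,
    glue_all_good ends hl K1 K2 hd ⟨f, hfB⟩ L1 L2 hg1 hg2⟩
  refine ⟨fun e => if e ∈ Legs ends K1 then b1 e else rotk k (b2 e),
    fun e => if e ∈ Legs ends K1 then b1 e else rotk k (b2 e), ?_, ?_, fun e _ => rfl⟩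
  · apply hs1.congr b1 hb1
    intro e he
    simp only [if_pos he]
  · apply hs2.congr _ (hs2.rot b2 hb2 k)
    intro e he
    by_cases he1 : e ∈ Legs ends K1
    · have := legs_both ends K1 K2 hd e he1 he
      rw [hf, Set.mem_singleton_iff] at this
      subst this
      simp only [if_pos he1]
      exact hk
    · simp only [if_neg he1]

theorem step_adj [Fintype V] [Fintype E] (ends : E → Sym2 V) (hl : ∀ e, ¬ (ends e).IsDiag)
    (K' : Set V) (u v : V) (hu : u ∉ K') (hv : v ∉ K') (huv : u ≠ v)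
    (hcub : CubicOn ends {u, v}) (e a c : E) (he : Between ends {u} {v} = {e})
    (ha : Between ends K' {u} = {a}) (hc : Between ends K' {v} = {c}) (h : Fine ends K') :
    Fine ends (K' ∪ {u} ∪ {v}) := by
  obtain ⟨L', ⟨b', hb'⟩, hs', hg'⟩ := h
  have heB : e ∈ Between ends {u} {v} := by rw [he]; exact Set.mem_singleton e
  have haB : a ∈ Between ends K' {u} := by rw [ha]; exact Set.mem_singleton a
  have hcB : c ∈ Between ends K' {v} := by rw [hc]; exact Set.mem_singleton c
  have hd1 : Disjoint K' {u} := Set.disjoint_singleton_right.2 hu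
  have hd1v : Disjoint K' {v} := Set.disjoint_singleton_right.2 hv
  have hduv : Disjoint ({u} : Set V) {v} := Set.disjoint_singleton.2 huv
  have hd2 : Disjoint (K' ∪ {u}) {v} := by
    rw [Set.disjoint_singleton_right]
    rintro (h | h)
    · exact hv h
    · exact huv (Set.mem_singleton_iff.1 h).symm
  -- incidences
  have hue : u ∈ ends e := (legs_single ends hl u e).1 (between_legs ends _ _ hduv e heB).1
  have hve : v ∈ ends e := (legs_single ends hl v e).1 (between_legs ends _ _ hduv e heB).2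
  have hua : u ∈ ends a := (legs_single ends hl u a).1 (between_legs ends _ _ hd1 a haB).2
  have hvc : v ∈ ends c := (legs_single ends hl v c).1 (between_legs ends _ _ hd1v c hcB).2
  have haL : a ∈ Legs ends K' := (between_legs ends _ _ hd1 a haB).1
  have hcL : c ∈ Legs ends K' := (between_legs ends _ _ hd1v c hcB).1
  -- an edge containing u and v is e
  have huv_e : ∀ x, u ∈ ends x → v ∈ ends x → x = e := by
    intro x hux hvx
    have h := legs_both ends {u} {v} hduv x ((legs_single ends hl u x).2 hux)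
      ((legs_single ends hl v x).2 hvx)
    rw [he] at h
    exact h
  have hKu : ∀ x, x ∈ Legs ends K' → u ∈ ends x → x = a := by
    intro x hx hux
    have h := legs_both ends K' {u} hd1 x hx ((legs_single ends hl u x).2 hux)
    rw [ha] at h
    exact h
  have hKv : ∀ x, x ∈ Legs ends K' → v ∈ ends x → x = c := by
    intro x hx hvx
    have h := legs_both ends K' {v} hd1v x hx ((legs_single ends hl v x).2 hvx)
    rw [hc] at h
    exact h
  have heL : e ∉ Legs ends K' := by
    intro h
    have h1 := hKu e h hue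
    obtain ⟨p, q, hpq⟩ := exists_ends ends e
    have hne : p ≠ q := by
      have := hl e
      rw [hpq] at this
      simpa using this
    rw [hpq, Sym2.mem_iff] at hue hve
    rw [mem_legs_iff ends _ e p q hpq] at h
    rcases hue with rfl | rfl <;> rcases hve with h2 | rfl
    · exact huv h2.symm
    · rcases h with h | h
      · exact hu h.1
      · exact hv h.2
    · subst h2
      rcases h with h | h
      · exact hv h.1
      · exact hu h.2
    · exact huv rfl
  have hae : a ≠ e := fun h => heL (h ▸ haL)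
  have hce : c ≠ e := fun h => heL (h ▸ hcL)
  obtain ⟨a', ha'e, ha'a, hSu⟩ := third _ (hcub u (Set.mem_insert u _)) e a
    (Finset.mem_filter.2 ⟨Finset.mem_univ _, hue⟩) (Finset.mem_filter.2 ⟨Finset.mem_univ _, hua⟩) hae
  obtain ⟨c', hc'e, hc'c, hSv⟩ := third _ (hcub v (Set.mem_insert_of_mem u rfl)) e c
    (Finset.mem_filter.2 ⟨Finset.mem_univ _, hve⟩) (Finset.mem_filter.2 ⟨Finset.mem_univ _, hvc⟩) hce
  have hua' : u ∈ ends a' := by
    have : a' ∈ univ.filter (fun e => u ∈ ends e) := by
      rw [hSu]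
      simp
    exact (Finset.mem_filter.1 this).2
  have hvc' : v ∈ ends c' := by
    have : c' ∈ univ.filter (fun e => v ∈ ends e) := by
      rw [hSv]
      simp
    exact (Finset.mem_filter.1 this).2
  have ha'L : a' ∉ Legs ends K' := fun h => ha'a (hKu a' h hua')
  have hc'L : c' ∉ Legs ends K' := fun h => hc'c (hKv c' h hvc')
  have ha'c' : c' ≠ a' := by
    intro h
    exact ha'e (huv_e a' hua' (h ▸ hvc'))
  obtain ⟨ε, hε0, hεa, hεc⟩ := eps_exists (b' a) (b' c)
  let b : E → W := fun x => if x = e then ε else if x = a' then b' a + ε else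
    if x = c' then b' c + ε else b' x
  have hbe : b e = ε := if_pos rfl
  have hba' : b a' = b' a + ε := by
    show (if a' = e then ε else if a' = a' then b' a + ε else
      if a' = c' then b' c + ε else b' a') = _
    rw [if_neg ha'e, if_pos rfl]
  have hbc' : b c' = b' c + ε := by
    show (if c' = e then ε else if c' = a' then b' a + ε else
      if c' = c' then b' c + ε else b' c') = _
    rw [if_neg hc'e, if_neg ha'c', if_pos rfl]
  have hbL : ∀ x ∈ Legs ends K', b' x = b x := by
    intro x hx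
    show b' x = (if x = e then ε else if x = a' then b' a + ε else
      if x = c' then b' c + ε else b' x)
    have n1 : x ≠ e := fun h => heL (h ▸ hx)
    have n2 : x ≠ a' := fun h => ha'L (h ▸ hx)
    have n3 : x ≠ c' := fun h => hc'L (h ▸ hx)
    rw [if_neg n1, if_neg n2, if_neg n3]
  have hb1 : b ∈ L' := hs'.congr b' hb' b hbL
  have hbu : b ∈ AllL ends {u} := by
    constructor
    · intro x hx
      have hxu : x ∈ univ.filter (fun e => u ∈ ends e) :=
        Finset.mem_filter.2 ⟨Finset.mem_univ _, (legs_single ends hl u x).1 hx⟩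
      rw [hSu] at hxu
      simp only [Finset.mem_insert, Finset.mem_singleton] at hxu
      rcases hxu with rfl | rfl | rfl
      · rw [hbe]; exact hε0
      · rw [← hbL _ haL]; exact hs'.nz b' hb' _ haL
      · rw [hba']; exact add_ne_zero_W _ _ hεa
    · have h1 : univ.filter (fun x => x ∈ Legs ends {u}) = {e, a, a'} := by
        rw [← hSu]
        ext x
        simp only [Finset.mem_filter, Finset.mem_univ, true_and]
        exact legs_single ends hl u x
      rw [h1, Finset.sum_insert, Finset.sum_insert, Finset.sum_singleton, hbe, ← hbL a haL, hba']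
      · exact sum_three_W _ _
      · rw [Finset.mem_singleton]
        exact fun h => ha'a h.symm
      · rw [Finset.mem_insert, Finset.mem_singleton]
        rintro (h | h)
        · exact hae h.symm
        · exact ha'e h.symm
  have hbv : b ∈ AllL ends {v} := by
    constructor
    · intro x hx
      have hxv : x ∈ univ.filter (fun e => v ∈ ends e) :=
        Finset.mem_filter.2 ⟨Finset.mem_univ _, (legs_single ends hl v x).1 hx⟩
      rw [hSv] at hxv
      simp only [Finset.mem_insert, Finset.mem_singleton] at hxv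
      rcases hxv with rfl | rfl | rfl
      · rw [hbe]; exact hε0
      · rw [← hbL _ hcL]; exact hs'.nz b' hb' _ hcL
      · rw [hbc']; exact add_ne_zero_W _ _ hεc
    · have h1 : univ.filter (fun x => x ∈ Legs ends {v}) = {e, c, c'} := by
        rw [← hSv]
        ext x
        simp only [Finset.mem_filter, Finset.mem_univ, true_and]
        exact legs_single ends hl v x
      rw [h1, Finset.sum_insert, Finset.sum_insert, Finset.sum_singleton, hbe, ← hbL c hcL, hbc']
      · exact sum_three_W _ _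
      · rw [Finset.mem_singleton]
        exact fun h => hc'c h.symm
      · rw [Finset.mem_insert, Finset.mem_singleton]
        rintro (h | h)
        · exact hce h.symm
        · exact hc'e h.symm
  refine ⟨Gl ends (K' ∪ {u}) {v} (Gl ends K' {u} L' (AllL ends {u})) (AllL ends {v}), ?_, ?_, ?_⟩
  · exact ⟨b, b, ⟨b, hb1, hbu, fun x _ => rfl⟩, hbv, fun x _ => rfl⟩
  · exact glue_switch ends _ _ hd2 _ _
      (glue_switch ends _ _ hd1 _ _ hs' (allL_switch ends {u})) (allL_switch ends {v})
  · apply glue_all_good ends hl _ _ hd2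
    · obtain ⟨p, hp, q, hq, hpq⟩ := heB
      exact ⟨e, p, Or.inr hp, q, hq, hpq⟩
    · exact glue_all_good ends hl _ _ hd1 ⟨a, haB⟩ _ _ hg'
        (fun b hb => vertex_good ends hl u b hb)
    · exact fun b hb => vertex_good ends hl v b hb

end Pool.Agent.Helper37.IE
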