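import Mathlib
import Pool.Agent.Helper37.IE.Defs
import Pool.Agent.Helper37.IE.St.Glue
import Pool.Agent.Helper37.IE.St.AllL
import Pool.Agent.Helper37.IE.St.VertexGood
import Pool.Agent.Helper37.IE.St.UnionGood
import Pool.Agent.Helper37.IE.St.GlueGood

/-! MP_7cf8d2, piece IE-7a.
`fine_vertex`: `L = AllL {v}`, non-empty because the three edges at `v` are the legs of `{v}` (values
`(1,0), (0,1), (1,1)`).
`fineM_of_conn`: strong induction on `R.ncard`; `∅`: `L = univ`, `P = PUnit`; otherwise an
inclusion-minimal nonempty `S ⊆ R` with `Between S (R \ S) = ∅` is connected (`Conn`); glue with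
`R \ S` (there are no joining edges: `union_goodM`, `glue_switch`; nonempty: take `b1 ∈ L1`,
`b2 ∈ L2` and `b' = b1` on `Legs S`, `b2` elsewhere). -/

namespace Pool.Agent.Helper37.IE

open Finset Pool.Agent.Helper49.CDC Pool.Agent.Helper37.GRT
open scoped Classical

universe u v

variable {V : Type v} {E : Type u}

private theorem sc_legs_single (ends : E → Sym2 V) (hl : ∀ e, ¬ (ends e).IsDiag) (v : V) (e : E) :
    e ∈ Legs ends {v} ↔ v ∈ ends e := by
  obtain ⟨a, b, hab⟩ := exists_ends ends e
  have hne : a ≠ b := by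
    have := hl e
    rw [hab] at this
    simpa using this
  rw [mem_legs_iff ends {v} e a b hab, hab, Sym2.mem_iff]
  simp only [Set.mem_singleton_iff]
  constructor
  · rintro (⟨h1, _⟩ | ⟨_, h2⟩)
    · exact Or.inl h1.symm
    · exact Or.inr h2.symm
  · rintro (h1 | h2)
    · subst h1
      exact Or.inl ⟨rfl, fun h => hne h.symm⟩
    · subst h2
      exact Or.inr ⟨hne, rfl⟩

theorem fine_vertex [Fintype V] [Fintype E] (ends : E → Sym2 V) (hl : ∀ e, ¬ (ends e).IsDiag)
    (v : V) (h3 : (univ.filter (fun e => v ∈ ends e)).card = 3) : Fine ends {v} := by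
  refine ⟨AllL ends {v}, ?_, allL_switch ends {v}, fun b hb => vertex_good ends hl v b hb⟩
  obtain ⟨e1, e2, e3, h12, h13, h23, hE⟩ := Finset.card_eq_three.1 h3
  have hF : univ.filter (fun e => e ∈ Legs ends {v}) = {e1, e2, e3} := by
    rw [← hE]
    apply Finset.filter_congr
    intro e _
    exact sc_legs_single ends hl v e
  refine ⟨fun e => if e = e1 then (1, 0) else if e = e2 then (0, 1) else (1, 1), ?_, ?_⟩
  · intro e _
    show (if e = e1 then ((1, 0) : W) else if e = e2 then (0, 1) else (1, 1)) ≠ 0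
    split_ifs <;> decide
  · rw [hF, Finset.sum_insert, Finset.sum_insert, Finset.sum_singleton]
    · rw [if_pos rfl, if_neg h12.symm, if_pos rfl, if_neg h13.symm, if_neg h23.symm]
      decide
    · simpa using h23
    · simp only [Finset.mem_insert, Finset.mem_singleton, not_or]
      exact ⟨h12, h13⟩

private theorem sc_memf {α : Type*} {s : Finset α} {p : α → Prop} {i : DecidablePred p} {a : α}
    (h : a ∈ @Finset.filter α p i s) : p a := ((@Finset.mem_filter α p i s a).1 h).2

private theorem sc_empty [Fintype V] [Fintype E] (ends : E → Sym2 V) : FineM ends ∅ := by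
  have hlegs : ∀ e, e ∉ Legs ends ∅ := by
    rintro e ⟨⟨w, _, hw⟩, _⟩
    exact hw
  refine ⟨Set.univ, ⟨fun _ => 0, Set.mem_univ _⟩, ?_, ?_⟩
  · refine ⟨fun _ _ b' _ => Set.mem_univ b', fun b _ e he => absurd he (hlegs e),
      fun b _ k => Set.mem_univ _, fun b _ w _ => ⟨id, fun e he => absurd he (hlegs e),
      fun S _ => Set.mem_univ _⟩⟩
  · intro b _
    refine ⟨PUnit.{u + 1}, inferInstance, ∅, fun _ => PUnit.unit, b, ?_, fun _ _ => rfl⟩
    refine ⟨Set.empty_subset _, fun w => Or.inl ?_, fun _ _ _ _ _ _ => rfl, ?_, ?_, ?_⟩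
    · rw [Finset.card_eq_zero]
      apply Finset.eq_empty_of_forall_notMem
      intro e he
      exact (sc_memf he).2
    · rintro e ⟨w, _, hw⟩ _
      exact absurd hw (Set.notMem_empty w)
    · intro y _ p
      apply Finset.sum_eq_zero
      intro w hw
      exact absurd (sc_memf hw).1 (Set.notMem_empty w)
    · intro z x _ _ w hw
      exact absurd hw (Set.notMem_empty w)

private theorem sc_minimal [Fintype V] (ends : E → Sym2 V) (R : Set V) (hR : R.Nonempty) :
    ∃ S, S ⊆ R ∧ S.Nonempty ∧ Between ends S (R \ S) = ∅ ∧ Conn ends S := by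
  have hex : ∃ n : ℕ, ∃ S, S ⊆ R ∧ S.Nonempty ∧ Between ends S (R \ S) = ∅ ∧ S.ncard = n := by
    refine ⟨R.ncard, R, subset_rfl, hR, ?_, rfl⟩
    rw [Set.sdiff_self]
    apply Set.eq_empty_of_forall_notMem
    rintro e ⟨a, _, c, hc, _⟩
    exact hc
  obtain ⟨S, hSR, hS, hB, hn⟩ := Nat.find_spec hex
  refine ⟨S, hSR, hS, hB, ?_⟩
  intro T hTS hT hne
  by_contra hem
  have hem' : Between ends T (S \ T) = ∅ := Set.not_nonempty_iff_eq_empty.1 hem
  have hTR : Between ends T (R \ T) = ∅ := by
    apply Set.eq_empty_of_forall_notMem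
    rintro e ⟨a, ha, c, hc, hac⟩
    by_cases hcS : c ∈ S
    · have : e ∈ Between ends T (S \ T) := ⟨a, ha, c, ⟨hcS, hc.2⟩, hac⟩
      rw [hem'] at this
      exact this
    · have : e ∈ Between ends S (R \ S) := ⟨a, hTS ha, c, ⟨hc.1, hcS⟩, hac⟩
      rw [hB] at this
      exact this
  have hlt : T.ncard < S.ncard :=
    Set.ncard_lt_ncard (Set.ssubset_iff_subset_ne.2 ⟨hTS, hne⟩) (Set.toFinite S)
  rw [hn] at hlt
  exact Nat.find_min hex hlt ⟨T, hTS.trans hSR, hT, hTR, rfl⟩

private theorem sc_congr [Fintype V] [Fintype E] (ends : E → Sym2 V) (K : Set V) (b b' : E → W)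
    (h : ∀ e ∈ Legs ends K, b' e = b e) (hg : GoodM ends K b') : GoodM ends K b := by
  obtain ⟨P, i, X, comp, f, h1, h2⟩ := hg
  exact ⟨P, i, X, comp, f, h1, fun e he => (h2 e he).trans (h e he)⟩

private theorem sc_main [Fintype V] [Fintype E] (ends : E → Sym2 V)
    (hl : ∀ e, ¬ (ends e).IsDiag) (n : ℕ) : ∀ R : Set V, R.ncard = n →
    (∀ K', K' ⊆ R → K'.Nonempty → Conn ends K' → Fine ends K') → FineM ends R := by
  induction n using Nat.strong_induction_on with
  | _ n ih =>
    intro R hRn h
    rcases Set.eq_empty_or_nonempty R with hR | hR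
    · subst hR
      exact sc_empty ends
    · obtain ⟨S, hSR, hS, hB, hC⟩ := sc_minimal ends R hR
      obtain ⟨L1, ⟨b1, hb1⟩, hs1, hg1⟩ := h S hSR hS hC
      have hlt : (R \ S).ncard < n := by
        rw [← hRn]
        apply Set.ncard_lt_ncard _ (Set.toFinite R)
        refine ⟨Set.sdiff_subset, fun hsub => ?_⟩
        obtain ⟨a, ha⟩ := hS
        exact (hsub (hSR ha)).2 ha
      obtain ⟨L2, ⟨b2, hb2⟩, hs2, hg2⟩ := ih _ hlt (R \ S) rfl
        (fun K' hK' => h K' (hK'.trans Set.sdiff_subset))
      have hd : Disjoint S (R \ S) := Set.disjoint_sdiff_right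
      have hU : S ∪ (R \ S) = R := Set.union_sdiff_cancel hSR
      refine ⟨Gl ends S (R \ S) L1 L2, ?_, ?_, ?_⟩
      · have key : (fun e => if e ∈ Legs ends S then b1 e else b2 e) ∈
            Gl ends S (R \ S) L1 L2 := by
          refine ⟨fun e => if e ∈ Legs ends S then b1 e else b2 e, ?_, ?_, fun _ _ => rfl⟩
          · apply hs1.congr b1 hb1
            intro e he
            exact (if_pos he).symm
          · apply hs2.congr b2 hb2
            intro e he
            refine (if_neg ?_).symm
            intro heS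
            obtain ⟨a, c, hac⟩ := exists_ends ends e
            rw [mem_legs_iff ends _ e a c hac] at he heS
            have hno : e ∉ Between ends S (R \ S) := by
              rw [hB]
              exact Set.notMem_empty e
            rw [mem_between_iff ends S (R \ S) e a c hac] at hno
            have ha : a ∈ R \ S → a ∉ S := fun h => h.2
            have hc : c ∈ R \ S → c ∉ S := fun h => h.2
            tauto
        exact ⟨_, key⟩
      · have := glue_switch ends S (R \ S) hd L1 L2 hs1 hs2
        rw [hU] at this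
        exact this
      · rintro b ⟨b', hb'1, hb'2, hb'⟩
        have := union_goodM ends hl S (R \ S) hd hB b' (hg1 b' hb'1).toM (hg2 b' hb'2)
        have h2 := sc_congr ends _ b b' hb' this
        rw [hU] at h2
        exact h2

theorem fineM_of_conn [Fintype V] [Fintype E] (ends : E → Sym2 V)
    (hl : ∀ e, ¬ (ends e).IsDiag) (R : Set V)
    (h : ∀ K', K' ⊆ R → K'.Nonempty → Conn ends K' → Fine ends K') : FineM ends R :=
  sc_main ends hl R.ncard R rfl h

end Pool.Agent.Helper37.IE
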