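import Mathlib
import Pool.Agent.Helper37.IE.Defs
import Pool.Agent.Helper37.IE.St.Glue
import Pool.Agent.Helper37.IE.St.AllL
import Pool.Agent.Helper37.IE.St.VertexGood
import Pool.Agent.Helper37.IE.St.UnionGood
import Pool.Agent.Helper37.IE.St.GlueGood

/-! MP_7cf8d2, piece IE-7c.
`L` = the language of `K'` glued with `AllL {n1}`, `AllL {v}`, `AllL {n2}`; good by `glue_good` three
times and `vertex_good`.  Nonempty: values `p` at `e1`, `p + b' g3` at `e2`, `p ∉ {0, b' g3}`; third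
edges of `n1`, `n2`: `p + b' g1`, `p + b' g3 + b' g2`, must be `≠ 0`. This fails for both `p` iff
`b' g1 = b' g2 ≠ b' g3`; in this case switch `b' ∈ L'` with `w = b' g1 + b' g3` along the pair
`S = {g1, π g1}` (the partner may be `g2`, `g3` or another leg); in all three cases the new vector
is fine. -/

namespace Pool.Agent.Helper37.IE.StepTwoAux

open Pool.Agent.Helper49.CDC

/-- the value at the first edge -/
def pp (a d c : W) : W := if a = c then (if d = a then rot a else d) else a + c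

theorem decW0 : ∀ a d c : W, a ≠ 0 → d ≠ 0 → c ≠ 0 → (a = d → a = c) → pp a d c ≠ 0 := by decide
theorem decW00 : ∀ a d c : W, a ≠ 0 → d ≠ 0 → c ≠ 0 → (a = d → a = c) →
    pp a d c + c ≠ 0 := by decide
theorem decW01 : ∀ a d c : W, a ≠ 0 → d ≠ 0 → c ≠ 0 → (a = d → a = c) →
    pp a d c + a ≠ 0 := by decide
theorem decW02 : ∀ a d c : W, a ≠ 0 → d ≠ 0 → c ≠ 0 → (a = d → a = c) →
    pp a d c + c + d ≠ 0 := by decide

theorem decW1 (a d c : W) (ha : a ≠ 0) (hd : d ≠ 0) (hc : c ≠ 0) (h : ¬ (a = d ∧ a ≠ c)) :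
    ∃ p : W, p ≠ 0 ∧ p + c ≠ 0 ∧ p + a ≠ 0 ∧ p + c + d ≠ 0 := by
  have h' : a = d → a = c := fun h1 => by by_contra h2; exact h ⟨h1, h2⟩
  exact ⟨_, decW0 a d c ha hd hc h', decW00 a d c ha hd hc h', decW01 a d c ha hd hc h',
    decW02 a d c ha hd hc h'⟩

end Pool.Agent.Helper37.IE.StepTwoAux

namespace Pool.Agent.Helper37.IE

open Finset Pool.Agent.Helper49.CDC Pool.Agent.Helper37.GRT
open scoped Classical

universe u v

variable {V : Type v} {E : Type u}

namespace StepTwoAux

theorem good_congr [Fintype V] [Fintype E] {ends : E → Sym2 V} {K : Set V} {b b' : E → W}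
    (h : Good ends K b) (hb : ∀ e ∈ Legs ends K, b e = b' e) : Good ends K b' := by
  obtain ⟨P, i, X, comp, h, h1, h2, h3⟩ := h
  exact ⟨P, i, X, comp, h, h1, h2, fun e he => (h3 e he).trans (hb e he)⟩

theorem gl_good [Fintype V] [Fintype E] (ends : E → Sym2 V) (hl : ∀ e, ¬ (ends e).IsDiag)
    (K1 K2 : Set V) (hd : Disjoint K1 K2) (hne : (Between ends K1 K2).Nonempty)
    (L1 L2 : Set (E → W)) (h1 : ∀ b ∈ L1, Good ends K1 b) (h2 : ∀ b ∈ L2, Good ends K2 b)
    (b : E → W) (hb : b ∈ Gl ends K1 K2 L1 L2) : Good ends (K1 ∪ K2) b := by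
  obtain ⟨b', hb1, hb2, hbb⟩ := hb
  exact good_congr (glue_good ends hl K1 K2 hd hne b' (h1 b' hb1) (h2 b' hb2)) hbb

theorem mem_gl {ends : E → Sym2 V} {K1 K2 : Set V} {L1 L2 : Set (E → W)} {b : E → W}
    (h1 : b ∈ L1) (h2 : b ∈ L2) : b ∈ Gl ends K1 K2 L1 L2 := ⟨b, h1, h2, fun _ _ => rfl⟩

theorem mem_legs_single (ends : E → Sym2 V) (hl : ∀ e, ¬ (ends e).IsDiag) (x : V) (e : E) :
    e ∈ Legs ends {x} ↔ x ∈ ends e := by
  obtain ⟨a, b, hab⟩ := exists_ends ends e
  have hne : a ≠ b := by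
    have := hl e
    rw [hab] at this
    simpa using this
  rw [mem_legs_iff ends {x} e a b hab, hab, Sym2.mem_iff]
  simp only [Set.mem_singleton_iff]
  constructor
  · rintro (⟨h1, h2⟩ | ⟨h1, h2⟩)
    · exact Or.inl h1.symm
    · exact Or.inr h2.symm
  · rintro (rfl | rfl)
    · exact Or.inl ⟨rfl, fun h => hne h.symm⟩
    · exact Or.inr ⟨hne, rfl⟩

/-- edges at a vertex with three known distinct edges -/
theorem edges_three [Fintype E] (ends : E → Sym2 V) (x : V)
    (h3 : (univ.filter (fun e => x ∈ ends e)).card = 3) (a b c : E) (ha : x ∈ ends a)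
    (hb : x ∈ ends b) (hc : x ∈ ends c) (hab : a ≠ b) (hac : a ≠ c) (hbc : b ≠ c) :
    univ.filter (fun e => x ∈ ends e) = {a, b, c} := by
  symm
  apply Finset.eq_of_subset_of_card_le
  · intro e he
    simp only [Finset.mem_insert, Finset.mem_singleton] at he
    rcases he with rfl | rfl | rfl <;> simp [ha, hb, hc]
  · rw [h3, Finset.card_eq_three.2 ⟨a, b, c, hab, hac, hbc, rfl⟩]

/-- the third edge -/
theorem third_edge [Fintype E] (ends : E → Sym2 V) (x : V)
    (h3 : (univ.filter (fun e => x ∈ ends e)).card = 3) (a b : E) (ha : x ∈ ends a)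
    (hb : x ∈ ends b) (hab : a ≠ b) : ∃ c, x ∈ ends c ∧ a ≠ c ∧ b ≠ c := by
  have hsub : ({a, b} : Finset E) ⊂ univ.filter (fun e => x ∈ ends e) := by
    apply Finset.ssubset_iff_subset_ne.2
    refine ⟨?_, ?_⟩
    · intro e he
      simp only [Finset.mem_insert, Finset.mem_singleton] at he
      rcases he with rfl | rfl <;> simp [ha, hb]
    · intro h
      rw [← h, Finset.card_pair hab] at h3
      omega
  obtain ⟨c, hc, hc'⟩ := Finset.exists_of_ssubset hsub
  simp only [Finset.mem_insert, Finset.mem_singleton, not_or] at hc'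
  exact ⟨c, (Finset.mem_filter.1 hc).2, fun h => hc'.1 h.symm, fun h => hc'.2 h.symm⟩

theorem allL_three [Fintype E] (ends : E → Sym2 V) (hl : ∀ e, ¬ (ends e).IsDiag) (x : V)
    (h3 : (univ.filter (fun e => x ∈ ends e)).card = 3) (a b c : E) (ha : x ∈ ends a)
    (hb : x ∈ ends b) (hc : x ∈ ends c) (hab : a ≠ b) (hac : a ≠ c) (hbc : b ≠ c) (F : E → W)
    (h1 : F a ≠ 0) (h2 : F b ≠ 0) (h4 : F c ≠ 0) (hs : F a + (F b + F c) = 0) :
    F ∈ AllL ends {x} := by
  have hE := edges_three ends x h3 a b c ha hb hc hab hac hbc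
  have hL : univ.filter (fun e => e ∈ Legs ends {x}) = {a, b, c} := by
    rw [← hE]
    ext e
    simp only [Finset.mem_filter, Finset.mem_univ, true_and]
    exact mem_legs_single ends hl x e
  refine ⟨?_, ?_⟩
  · intro e he
    have he' : e ∈ univ.filter (fun e => e ∈ Legs ends {x}) := by simpa using he
    rw [hL] at he'
    simp only [Finset.mem_insert, Finset.mem_singleton] at he'
    rcases he' with rfl | rfl | rfl
    · exact h1
    · exact h2
    · exact h4
  · rw [hL, Finset.sum_insert (by simp [hab, hac]), Finset.sum_insert (by simp [hbc]),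
      Finset.sum_singleton]
    exact hs

/-- membership in the set of edges between a set and a vertex -/
theorem between_single (ends : E → Sym2 V) (K : Set V) (x : V) (g : E)
    (hg : Between ends K {x} = {g}) : ∃ a ∈ K, ends g = s(a, x) := by
  have : g ∈ Between ends K {x} := by rw [hg]; rfl
  obtain ⟨a, ha, w, hw, h⟩ := this
  rw [Set.mem_singleton_iff] at hw
  subst hw
  exact ⟨a, ha, h⟩

theorem sW1 : ∀ p a : W, p + (a + (p + a)) = 0 := by decide

theorem sW2 : ∀ p a : W, p + (p + a + a) = 0 := by decide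

theorem sW3 : ∀ p a d : W, p + a + (d + (p + a + d)) = 0 := by decide

theorem decW2 : ∀ a c : W, a ≠ 0 → c ≠ 0 → a ≠ c → a + c ≠ 0 ∧ a ≠ a + c ∧ c ≠ a + c ∧
    a + (a + c) = c ∧ c + (a + c) = a := by decide

end StepTwoAux

open StepTwoAux

theorem step_two [Fintype V] [Fintype E] (ends : E → Sym2 V) (hl : ∀ e, ¬ (ends e).IsDiag)
    (K' : Set V) (n1 v n2 : V) (h1 : n1 ∉ K') (hv : v ∉ K') (h2 : n2 ∉ K') (h1v : n1 ≠ v)
    (hv2 : v ≠ n2) (h12 : n1 ≠ n2) (hcub : CubicOn ends {n1, v, n2}) (e1 e2 g1 g2 g3 : E)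
    (he1 : Between ends {n1} {v} = {e1}) (he2 : Between ends {v} {n2} = {e2})
    (hno : Between ends {n1} {n2} = ∅) (hg1 : Between ends K' {n1} = {g1})
    (hg2 : Between ends K' {n2} = {g2}) (hg3 : Between ends K' {v} = {g3}) (h : Fine ends K') :
    Fine ends (K' ∪ {n1} ∪ {v} ∪ {n2}) := by
  obtain ⟨x1, hx1, hE1⟩ := between_single ends _ _ _ he1
  obtain ⟨x2, hx2, hE2⟩ := between_single ends _ _ _ he2
  obtain ⟨y1, hy1, hG1⟩ := between_single ends _ _ _ hg1
  obtain ⟨y2, hy2, hG2⟩ := between_single ends _ _ _ hg2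
  obtain ⟨y3, hy3, hG3⟩ := between_single ends _ _ _ hg3
  rw [Set.mem_singleton_iff] at hx1 hx2
  subst hx1 hx2
  -- degrees
  have c1 := hcub x1 (Or.inl rfl)
  have cv := hcub x2 (Or.inr (Or.inl rfl))
  have c2 := hcub n2 (Or.inr (Or.inr rfl))
  have hy1x : y1 ≠ x1 := fun h => h1 (h ▸ hy1)
  have hy2x : y2 ≠ n2 := fun h => h2 (h ▸ hy2)
  have hy3x : y3 ≠ x2 := fun h => hv (h ▸ hy3)
  have hy1v : y1 ≠ x2 := fun h => hv (h ▸ hy1)
  have hy2v : y2 ≠ x2 := fun h => hv (h ▸ hy2)
  have hy31 : y3 ≠ x1 := fun h => h1 (h ▸ hy3)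
  have hy32 : y3 ≠ n2 := fun h => h2 (h ▸ hy3)
  have hy21 : y2 ≠ x1 := fun h => h1 (h ▸ hy2)
  have hy12 : y1 ≠ n2 := fun h => h2 (h ▸ hy1)
  -- distinct edges
  have m11 : x1 ∈ ends e1 := by rw [hE1]; simp
  have m1v : x2 ∈ ends e1 := by rw [hE1]; simp
  have m2v : x2 ∈ ends e2 := by rw [hE2]; simp
  have m22 : n2 ∈ ends e2 := by rw [hE2]; simp
  have mg1 : x1 ∈ ends g1 := by rw [hG1]; simp
  have mg2 : n2 ∈ ends g2 := by rw [hG2]; simp
  have mg3 : x2 ∈ ends g3 := by rw [hG3]; simp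
  have d12 : e1 ≠ e2 := by
    intro h
    have : n2 ∈ ends e1 := by rw [h]; exact m22
    rw [hE1, Sym2.mem_iff] at this
    rcases this with h | h
    · exact h12 h.symm
    · exact hv2 h.symm
  have d1g : e1 ≠ g1 := by
    intro h
    have : x2 ∈ ends g1 := by rw [← h]; exact m1v
    rw [hG1, Sym2.mem_iff] at this
    rcases this with h | h
    · exact hy1v h.symm
    · exact h1v h.symm
  have d2g : e2 ≠ g2 := by
    intro h
    have : x2 ∈ ends g2 := by rw [← h]; exact m2v
    rw [hG2, Sym2.mem_iff] at this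
    rcases this with h | h
    · exact hy2v h.symm
    · exact hv2 h
  have d13 : e1 ≠ g3 := by
    intro h
    have : x1 ∈ ends g3 := by rw [← h]; exact m11
    rw [hG3, Sym2.mem_iff] at this
    rcases this with h | h
    · exact hy31 h.symm
    · exact h1v h
  have d23 : e2 ≠ g3 := by
    intro h
    have : n2 ∈ ends g3 := by rw [← h]; exact m22
    rw [hG3, Sym2.mem_iff] at this
    rcases this with h | h
    · exact hy32 h.symm
    · exact hv2 h.symm
  have dg12 : g1 ≠ g2 := by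
    intro h
    have : x1 ∈ ends g2 := by rw [← h]; exact mg1
    rw [hG2, Sym2.mem_iff] at this
    rcases this with h | h
    · exact hy21 h.symm
    · exact h12 h
  have dg13 : g1 ≠ g3 := by
    intro h
    have : x1 ∈ ends g3 := by rw [← h]; exact mg1
    rw [hG3, Sym2.mem_iff] at this
    rcases this with h | h
    · exact hy31 h.symm
    · exact h1v h
  have dg23 : g2 ≠ g3 := by
    intro h
    have : n2 ∈ ends g3 := by rw [← h]; exact mg2
    rw [hG3, Sym2.mem_iff] at this
    rcases this with h | h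
    · exact hy32 h.symm
    · exact hv2 h.symm
  obtain ⟨t1, mt1, dt1e, dt1g⟩ := third_edge ends x1 c1 e1 g1 m11 mg1 d1g
  obtain ⟨t2, mt2, dt2e, dt2g⟩ := third_edge ends n2 c2 e2 g2 m22 mg2 d2g
  -- legs of K'
  have lg1 : g1 ∈ Legs ends K' := (mem_legs_iff ends K' g1 y1 x1 hG1).2 (Or.inl ⟨hy1, h1⟩)
  have lg2 : g2 ∈ Legs ends K' := (mem_legs_iff ends K' g2 y2 n2 hG2).2 (Or.inl ⟨hy2, h2⟩)
  have lg3 : g3 ∈ Legs ends K' := (mem_legs_iff ends K' g3 y3 x2 hG3).2 (Or.inl ⟨hy3, hv⟩)
  have le1 : e1 ∉ Legs ends K' := by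
    rw [mem_legs_iff ends K' e1 x1 x2 hE1]; tauto
  have le2 : e2 ∉ Legs ends K' := by
    rw [mem_legs_iff ends K' e2 x2 n2 hE2]; tauto
  have lt1 : t1 ∉ Legs ends K' := by
    intro hL
    obtain ⟨a, b, hab⟩ := exists_ends ends t1
    rw [mem_legs_iff ends K' t1 a b hab] at hL
    rw [hab, Sym2.mem_iff] at mt1
    have : t1 ∈ Between ends K' {x1} := by
      rcases mt1 with h | h
      · rw [mem_between_iff ends K' {x1} t1 a b hab]
        right
        refine ⟨?_, h.symm⟩
        rcases hL with hL | hL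
        · exact absurd (h ▸ hL.1) h1
        · exact hL.2
      · rw [mem_between_iff ends K' {x1} t1 a b hab]
        left
        refine ⟨?_, h.symm⟩
        rcases hL with hL | hL
        · exact hL.1
        · exact absurd (h ▸ hL.2) h1
    rw [hg1] at this
    exact dt1g this.symm
  have lt2 : t2 ∉ Legs ends K' := by
    intro hL
    obtain ⟨a, b, hab⟩ := exists_ends ends t2
    rw [mem_legs_iff ends K' t2 a b hab] at hL
    rw [hab, Sym2.mem_iff] at mt2
    have : t2 ∈ Between ends K' {n2} := by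
      rcases mt2 with h | h
      · rw [mem_between_iff ends K' {n2} t2 a b hab]
        right
        refine ⟨?_, h.symm⟩
        rcases hL with hL | hL
        · exact absurd (h ▸ hL.1) h2
        · exact hL.2
      · rw [mem_between_iff ends K' {n2} t2 a b hab]
        left
        refine ⟨?_, h.symm⟩
        rcases hL with hL | hL
        · exact hL.1
        · exact absurd (h ▸ hL.2) h2
    rw [hg2] at this
    exact dt2g this.symm
  have dt12 : t1 ≠ t2 := by
    intro h
    have h2t : n2 ∈ ends t1 := by rw [h]; exact mt2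
    have : t1 ∈ Between ends {x1} {n2} := by
      obtain ⟨a, b, hab⟩ := exists_ends ends t1
      rw [mem_between_iff ends {x1} {n2} t1 a b hab]
      rw [hab, Sym2.mem_iff] at h2t mt1
      rcases h2t with h2t | h2t <;> rcases mt1 with mt1 | mt1
      · exact absurd (mt1.trans h2t.symm) h12
      · exact Or.inr ⟨mt1.symm, h2t.symm⟩
      · exact Or.inl ⟨mt1.symm, h2t.symm⟩
      · exact absurd (mt1.trans h2t.symm) h12
    rw [hno] at this
    exact this
  have dt1e2 : t1 ≠ e2 := by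
    intro h
    rw [h, hE2, Sym2.mem_iff] at mt1
    rcases mt1 with h | h
    · exact h1v h
    · exact h12 h
  have dt2e1 : t2 ≠ e1 := by
    intro h
    rw [h, hE1, Sym2.mem_iff] at mt2
    rcases mt2 with h | h
    · exact h12 h.symm
    · exact hv2 h.symm
  obtain ⟨L', hne, hsw, hgood⟩ := h
  -- the choice of the vector on K'
  have hchoice : ∃ b ∈ L', ∃ p : W, p ≠ 0 ∧ p + b g3 ≠ 0 ∧ p + b g1 ≠ 0 ∧
      p + b g3 + b g2 ≠ 0 := by
    obtain ⟨b, hb⟩ := hne
    have n1' := hsw.nz b hb g1 lg1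
    have n2' := hsw.nz b hb g2 lg2
    have n3' := hsw.nz b hb g3 lg3
    by_cases hbad : b g1 = b g2 ∧ b g1 ≠ b g3
    · obtain ⟨w0, wa, wc, wac, wca⟩ := decW2 (b g1) (b g3) n1' n3' hbad.2
      obtain ⟨π, hπ, hS⟩ := hsw.sw b hb (b g1 + b g3) w0
      obtain ⟨q1, q2, q3, q4⟩ := hπ g1 lg1 wa
      have hmem := hS {g1, π g1} (by
        intro e he
        rcases he with rfl | he
        · exact ⟨lg1, wa, Or.inr rfl⟩
        · rw [Set.mem_singleton_iff] at he
          subst he
          exact ⟨q1, q2, by rw [q4]; exact Or.inl rfl⟩)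
      obtain ⟨b2, hb2, hin, hout⟩ : ∃ b2 ∈ L', (∀ e, (e = g1 ∨ e = π g1) →
          b2 e = b e + (b g1 + b g3)) ∧ (∀ e, ¬ (e = g1 ∨ e = π g1) → b2 e = b e) :=
        ⟨_, hmem, fun e h => if_pos h, fun e h => if_neg h⟩
      refine ⟨b2, hb2, ?_⟩
      have v1 : b2 g1 = b g3 := by
        rw [hin g1 (Or.inl rfl)]; exact wac
      by_cases k2 : g2 = π g1
      · have k3 : g3 ≠ π g1 := fun h => dg23 (k2.trans h.symm)
        have v2 : b2 g2 = b g3 := by
          rw [hin g2 (Or.inr k2), ← hbad.1]; exact wac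
        have v3 : b2 g3 = b g3 := by
          apply hout
          rintro (h | h)
          · exact dg13 h.symm
          · exact k3 h
        rw [v1, v2, v3]
        exact decW1 (b g3) (b g3) (b g3) n3' n3' n3' (fun h => h.2 rfl)
      · have v2 : b2 g2 = b g1 := by
          rw [hout, ← hbad.1]
          rintro (h | h)
          · exact dg12 h.symm
          · exact k2 h
        by_cases k3 : g3 = π g1
        · have v3 : b2 g3 = b g1 := by
            rw [hin g3 (Or.inr k3)]; exact wca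
          rw [v1, v2, v3]
          exact decW1 (b g3) (b g1) (b g1) n3' n1' n1' (fun h => hbad.2 h.1.symm)
        · have v3 : b2 g3 = b g3 := by
            apply hout
            rintro (h | h)
            · exact dg13 h.symm
            · exact k3 h
          rw [v1, v2, v3]
          exact decW1 (b g3) (b g1) (b g3) n3' n1' n3' (fun h => h.2 rfl)
    · exact ⟨b, hb, decW1 _ _ _ n1' n2' n3' hbad⟩
  obtain ⟨b, hb, p, hp0, hp3, hp1, hp2⟩ := hchoice
  have nz1 := hsw.nz b hb g1 lg1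
  have nz2 := hsw.nz b hb g2 lg2
  have nz3 := hsw.nz b hb g3 lg3
  let F : E → W := fun e => if e ∈ Legs ends K' then b e else if e = e1 then p else
    if e = e2 then p + b g3 else if e = t1 then p + b g1 else if e = t2 then p + b g3 + b g2 else 0
  have Fg1 : F g1 = b g1 := by simp only [F, if_pos lg1]
  have Fg2 : F g2 = b g2 := by simp only [F, if_pos lg2]
  have Fg3 : F g3 = b g3 := by simp only [F, if_pos lg3]
  have Fe1 : F e1 = p := by simp only [F, if_neg le1, if_true]
  have Fe2 : F e2 = p + b g3 := by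
    simp only [F, if_neg le2, if_neg d12.symm, if_true]
  have Ft1 : F t1 = p + b g1 := by
    simp only [F, if_neg lt1, if_neg dt1e.symm, if_neg dt1e2, if_true]
  have Ft2 : F t2 = p + b g3 + b g2 := by
    simp only [F, if_neg lt2, if_neg dt2e1, if_neg dt2e.symm, if_neg dt12.symm, if_true]
  have hFL : F ∈ L' := by
    apply hsw.congr b hb
    intro e he
    simp only [F, if_pos he]
  have hF1 : F ∈ AllL ends {x1} := by
    apply allL_three ends hl x1 c1 e1 g1 t1 m11 mg1 mt1 d1g dt1e dt1g F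
    · rw [Fe1]; exact hp0
    · rw [Fg1]; exact nz1
    · rw [Ft1]; exact hp1
    · rw [Fe1, Fg1, Ft1]
      exact sW1 _ _
  have hFv : F ∈ AllL ends {x2} := by
    apply allL_three ends hl x2 cv e1 e2 g3 m1v m2v mg3 d12 d13 d23 F
    · rw [Fe1]; exact hp0
    · rw [Fe2]; exact hp3
    · rw [Fg3]; exact nz3
    · rw [Fe1, Fe2, Fg3]
      exact sW2 _ _
  have hF2 : F ∈ AllL ends {n2} := by
    apply allL_three ends hl n2 c2 e2 g2 t2 m22 mg2 mt2 d2g dt2e dt2g F
    · rw [Fe2]; exact hp3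
    · rw [Fg2]; exact nz2
    · rw [Ft2]; exact hp2
    · rw [Fe2, Fg2, Ft2]
      exact sW3 _ _ _
  -- assembly
  have D1 : Disjoint K' {x1} := Set.disjoint_singleton_right.2 h1
  have Dv : Disjoint (K' ∪ {x1}) {x2} := by
    rw [Set.disjoint_singleton_right]
    rintro (h | h)
    · exact hv h
    · exact h1v h.symm
  have D2 : Disjoint (K' ∪ {x1} ∪ {x2}) {n2} := by
    rw [Set.disjoint_singleton_right]
    rintro ((h | h) | h)
    · exact h2 h
    · exact h12 h.symm
    · exact hv2 h.symm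
  have B1 : (Between ends K' {x1}).Nonempty := by rw [hg1]; exact ⟨g1, rfl⟩
  have Bv : (Between ends (K' ∪ {x1}) {x2}).Nonempty :=
    ⟨g3, (mem_between_iff ends _ _ g3 y3 x2 hG3).2 (Or.inl ⟨Or.inl hy3, rfl⟩)⟩
  have B2 : (Between ends (K' ∪ {x1} ∪ {x2}) {n2}).Nonempty :=
    ⟨g2, (mem_between_iff ends _ _ g2 y2 n2 hG2).2 (Or.inl ⟨Or.inl (Or.inl hy2), rfl⟩)⟩
  refine ⟨Gl ends (K' ∪ {x1} ∪ {x2}) {n2} (Gl ends (K' ∪ {x1}) {x2}
    (Gl ends K' {x1} L' (AllL ends {x1})) (AllL ends {x2})) (AllL ends {n2}), ?_, ?_, ?_⟩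
  · exact ⟨F, mem_gl (mem_gl (mem_gl hFL hF1) hFv) hF2⟩
  · exact glue_switch ends _ _ D2 _ _ (glue_switch ends _ _ Dv _ _
      (glue_switch ends _ _ D1 _ _ hsw (allL_switch ends _)) (allL_switch ends _))
      (allL_switch ends _)
  · exact gl_good ends hl _ _ D2 B2 _ _ (gl_good ends hl _ _ Dv Bv _ _
      (gl_good ends hl _ _ D1 B1 _ _ hgood (fun b hb => vertex_good ends hl _ b hb))
      (fun b hb => vertex_good ends hl _ b hb)) (fun b hb => vertex_good ends hl _ b hb)

end Pool.Agent.Helper37.IE
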