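import Mathlib
import Pool.Agent.Helper37.IE.Defs

/-! MP_7cf8d2, piece IE-6a: from a robust flow to a 5-CDC. All edges are inner edges of `K`; apply `groupCDC` with
`Z = X`, groups `P ⊕ V` (a vertex `v` off `K` is isolated and forms its own group `inr v`; `P` and
`V` may be replaced by any finite type, e.g. `Option P` does NOT work because two isolated vertices
need different groups), `g = h` off `X`. -/

namespace Pool.Agent.Helper37.IE

open Finset Pool.Agent.Helper49.CDC Pool.Agent.Helper37.GRT
open scoped Classical

universe u v

variable {V : Type v} {E : Type u}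

theorem closed [Fintype V] [Fintype E] (ends : E → Sym2 V) (hl : ∀ e, ¬ (ends e).IsDiag)
    (K : Set V) (hK : ∀ e, e ∈ Inner ends K) {P : Type u} [Fintype P] (X : Set E) (comp : V → P)
    (h : E → W) (hr : Robust ends K X comp h) :
    ∃ D : Fin 5 → Set E, D 0 = X ∧ IsFiveCDC ends D := by
  have hin : ∀ e u w, ends e = s(u, w) → u ∈ K ∧ w ∈ K := fun e u w hew =>
    (mem_inner_iff ends K e u w hew).1 (hK e)
  have h0 : ∀ v, v ∉ K → bd ends (rs Xᶜ h) v = 0 := by
    intro v hv
    unfold bd
    apply Finset.sum_eq_zero
    intro e he
    exact absurd (hK e v (Finset.mem_filter.1 he).2) hv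
  let comp' : V → P ⊕ V := fun v => if v ∈ K then Sum.inl (comp v) else Sum.inr v
  have hcK : ∀ v, v ∈ K → comp' v = Sum.inl (comp v) := by
    intro v hv
    exact if_pos hv
  have hcN : ∀ v, v ∉ K → comp' v = Sum.inr v := by
    intro v hv
    exact if_neg hv
  refine groupCDC ends hl X hr.deg comp' ?_ h ?_ ?_ ?_
  · intro e he u w hew
    obtain ⟨hu, hw⟩ := hin e u w hew
    rw [hcK u hu, hcK w hw, hr.inner e (hK e) he u w hew]
  · intro e he
    apply hr.nz e _ he
    rw [touch_eq]
    exact Or.inl (hK e)
  · intro y hy k
    rcases k with p | v0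
    · refine Eq.trans ?_ (hr.bal y hy p)
      rw [Finset.sum_filter, Finset.sum_filter]
      apply Finset.sum_congr rfl
      intro v _
      have hiff : comp' v = Sum.inl p ↔ v ∈ K ∧ comp v = p := by
        by_cases hv : v ∈ K
        · rw [hcK v hv]
          constructor
          · intro h1
            exact ⟨hv, Sum.inl_injective h1⟩
          · rintro ⟨_, h1⟩
            rw [h1]
        · rw [hcN v hv]
          constructor
          · intro h1
            exact absurd h1 (by simp)
          · rintro ⟨h1, _⟩
            exact absurd h1 hv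
      by_cases hc : comp' v = Sum.inl p
      · rw [if_pos hc, if_pos (hiff.1 hc)]
      · rw [if_neg hc, if_neg (fun h => hc (hiff.2 h))]
    · rw [Finset.sum_filter]
      apply Finset.sum_eq_zero
      intro v _
      by_cases h1 : comp' v = Sum.inr v0
      · have hvK : v ∉ K := by
          intro h2
          rw [hcK v h2] at h1
          exact absurd h1 (by simp)
        rw [if_pos h1, h0 v hvK, smul_zero]
      · rw [if_neg h1]
  · intro z x hx hs u w huw
    have key := hr.rob (fun p => z (Sum.inl p)) x (fun e _ he u w hew => hx e he u w hew) (by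
      intro y hy
      refine Eq.trans ?_ (hs y hy)
      rw [Finset.sum_filter]
      apply Finset.sum_congr rfl
      intro v _
      by_cases hv : v ∈ K
      · rw [if_pos hv, hcK v hv]
      · rw [if_neg hv, h0 v hv, map_zero, smul_zero])
    by_cases hu : u ∈ K
    · by_cases hw : w ∈ K
      · rw [hcK u hu, hcK w hw] at huw
        exact key u hu w hw (Sum.inl_injective huw)
      · rw [hcK u hu, hcN w hw] at huw
        exact absurd huw (by simp)
    · by_cases hw : w ∈ K
      · rw [hcN u hu, hcK w hw] at huw
        exact absurd huw (by simp)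
      · rw [hcN u hu, hcN w hw] at huw
        rw [Sum.inr_injective huw]

end Pool.Agent.Helper37.IE
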