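import Mathlib
import Pool.Agent.Helper37.IE.Defs
import Pool.Agent.Helper37.IE.St.Hub
import Pool.Agent.Helper37.IE.St.VertexGood
import Pool.Agent.Helper37.IE.St.Closed

/-! MP_7cf8d2, piece IE-10: the closed case. `S = verts C`, `B = ∅` (`Good ∅ b` with `X = ∅`,
`P = PUnit`), `R` = the cubic vertices off `C`.  Every vertex of `C` has degree 3 (`cycle_two` gives
degree at least 2), every edge has both ends in `S ∪ R`, so there are no legs of `S ∪ ∅ ∪ R`, and
`Legs S = Legs R` (edges between `S` and `R`). Take `b ∈ L_R`; it is in `AllL S` by `Switchable.nz`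
and `good_sum_zero`. Apply `hub_good` and `closed`. -/

namespace Pool.Agent.Helper37.IE

open Finset Pool.Agent.Helper49.CDC Pool.Agent.Helper37.GRT
open scoped Classical

universe u v

variable {V : Type v} {E : Type u}

theorem robust_empty [Fintype V] [Fintype E] (ends : E → Sym2 V) (K : Set V) (hK : ∀ v, v ∉ K)
    (X : Set E) (hX : ∀ e, e ∉ X) {P : Type u} (comp : V → P) (b : E → W) :
    Robust ends K X comp b := by
  constructor
  · intro e he
    exact absurd he (hX e)
  · intro v
    left
    rw [Finset.card_eq_zero, Finset.filter_eq_empty_iff]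
    intro e _ h
    exact hX e h.2
  · intro e he _ u w huw
    exact absurd ((mem_inner_iff ends K e u w huw).1 he).1 (hK u)
  · rintro e ⟨v, _, hv⟩ _
    exact absurd hv (hK v)
  · intro y _ p
    apply Finset.sum_eq_zero
    intro v hv
    exact absurd (Finset.mem_filter.1 hv).2.1 (hK v)
  · intro z x _ _ u hu
    exact absurd hu (hK u)

theorem good_empty [Fintype V] [Fintype E] (ends : E → Sym2 V) (b : E → W) :
    Good ends (∅ : Set V) b :=
  ⟨PUnit, inferInstance, ∅, fun _ => PUnit.unit, b,
    robust_empty ends ∅ (fun v => Set.notMem_empty v) ∅ (fun e => Set.notMem_empty e) _ b,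
    ⟨PUnit.unit, fun _ _ _ _ _ => rfl⟩, fun _ _ => rfl⟩

/-- The closed case: if the set of cubic vertices off `C` has good leg vectors, there is a 5-CDC
with `C` in its first class. -/
theorem fiveCDC_of_fine [Fintype V] [Fintype E] (ends : E → Sym2 V) (hc : Cub ends) (C : Set E)
    (hC : IsCycle ends C)
    (hR : FineM ends {v | v ∉ verts ends C ∧ (univ.filter (fun e => v ∈ ends e)).card = 3}) :
    ∃ D : Fin 5 → Set E, C ⊆ D 0 ∧ IsFiveCDC ends D := by
  obtain ⟨L, ⟨b, hbL⟩, hsw, hgood⟩ := hR
  have hl := hc.loop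
  -- every vertex on an edge is cubic
  have hdeg3 : ∀ (e : E) (v : V), v ∈ ends e → (univ.filter (fun e => v ∈ ends e)).card = 3 := by
    intro e v hv
    rcases hc.deg v with h | h
    · exfalso
      rw [Finset.card_eq_zero, Finset.filter_eq_empty_iff] at h
      exact h (Finset.mem_univ e) hv
    · exact h
  set S : Set V := verts ends C with hSdef
  set R : Set V := {v | v ∉ verts ends C ∧ (univ.filter (fun e => v ∈ ends e)).card = 3} with hRdef
  have hSR : Disjoint S R := by
    rw [Set.disjoint_left]
    intro v hv hv'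
    exact hv'.1 hv
  have hcov : ∀ (e : E) (v : V), v ∈ ends e → v ∈ S ∨ v ∈ R := by
    intro e v hv
    by_cases h : v ∈ verts ends C
    · exact Or.inl h
    · exact Or.inr ⟨h, hdeg3 e v hv⟩
  have hK : ∀ e, e ∈ Inner ends (S ∪ ∅ ∪ R) := by
    intro e v hv
    rcases hcov e v hv with h | h
    · exact Or.inl (Or.inl h)
    · exact Or.inr h
  have hnoleg : ∀ e, e ∉ Legs ends (S ∪ ∅ ∪ R) := by
    intro e he
    exact not_inner_of_legs ends _ e he (hK e)
  have hlegs : ∀ e, e ∈ Legs ends S ↔ e ∈ Legs ends R := by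
    intro e
    obtain ⟨a, c, hac⟩ := exists_ends ends e
    have ha : a ∈ ends e := by rw [hac]; exact Sym2.mem_mk_left a c
    have hc' : c ∈ ends e := by rw [hac]; exact Sym2.mem_mk_right a c
    have h1 := hcov e a ha
    have h2 := hcov e c hc'
    have h3 : ∀ v, v ∈ S → v ∉ R := fun v hv => Set.disjoint_left.1 hSR hv
    have h3a := h3 a
    have h3c := h3 c
    rw [mem_legs_iff ends S e a c hac, mem_legs_iff ends R e a c hac]
    tauto
  have hgb := hgood b hbL
  have hbS : b ∈ AllL ends S := by
    constructor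
    · intro e he
      exact hsw.nz b hbL e ((hlegs e).1 he)
    · have h1 := good_sum_zero ends hl R b hgb
      rw [← h1]
      apply Finset.sum_congr _ (fun _ _ => rfl)
      ext e
      rw [Finset.mem_filter, Finset.mem_filter, hlegs e]
  obtain ⟨P, iP, X, comp, h, hX, hrob, _, _⟩ := hub_good ends hl C hC S ∅ R rfl
    (fun v hv => by
      obtain ⟨e, _, he⟩ := hv
      exact hdeg3 e v he)
    (Set.disjoint_empty _) hSR (Set.empty_disjoint _)
    (by
      rw [Set.eq_empty_iff_forall_notMem]
      rintro e ⟨u, hu, _⟩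
      exact hu)
    (fun e he => absurd he (hnoleg e))
    (fun e he => absurd he (hnoleg e))
    b hbS (good_empty ends b) hgb
  obtain ⟨D, hD0, hD⟩ := closed ends hl (S ∪ ∅ ∪ R) hK X comp h hrob
  exact ⟨D, by rw [hD0]; exact hX, hD⟩

end Pool.Agent.Helper37.IE
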