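import Mathlib
import Pool.Agent.Helper37.IE.Defs

/-! MP_7cf8d2, piece IE-6b: extension of a labelling of the legs.

Repeat the proof of `groupCDC` (Helper37/GRT/Group.lean) on the finite graph with one more vertex:
first apply `rotGroups` to the multigraph `ends' : E → Sym2 (Option V)`, `ends' e` = the ends of `e`,
with `none` for an end outside `K` when `e` is a leg (loopless), with `Z = X`, groups in `P`: `comp` on
`K`, the leg group `p0` elsewhere.  (hz at the group `p0`: the sum over the legs is
zero, from `bal` with `y = 1` and `sum_bd_set`.)  This gives `σ` and a rotation `z`; compose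
everything with `rotk (- z p0)`, so that `σ = h` on the legs (`nn`, `om` are invariant under a global
rotation).  Then solve the linear system for `(c, F)` exactly as in `groupCDC`, but only at the
vertices of `K` and with `F` supported on the inner edges of `K` off `X`; the prescribed `τ0` on the
legs goes to the right side.  A functional `x` killing the image is constant on the groups by `rob`
(with the rotation `z`), and the right side of the group `p` is
`LL_p (nn σ) + (sum of τ0 over the legs if p = p0) = 0`. -/

namespace Pool.Agent.Helper37.IE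

open Finset Pool.Agent.Helper49.CDC Pool.Agent.Helper37.GRT
open scoped Classical

universe u v

variable {V : Type v} {E : Type u}

/-- `V` with one more point -/
inductive OeV (V : Type v) : Type v
  | pt : V → OeV V
  | inf : OeV V

/-- `OeV` is `Option` -/
def OeV.equiv : OeV V ≃ Option V where
  toFun := fun x => match x with
    | .pt v => some v
    | .inf => none
  invFun := fun x => match x with
    | some v => .pt v
    | none => .inf
  left_inv := by intro x; cases x <;> rfl
  right_inv := by intro x; cases x <;> rfl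

noncomputable instance OeV.fintype [Fintype V] : Fintype (OeV V) :=
  Fintype.ofEquiv (Option V) OeV.equiv.symm

theorem OeV.sum_eq {M : Type*} [AddCommMonoid M] [Fintype V] (f : OeV V → M) :
    ∑ v', f v' = f .inf + ∑ v, f (.pt v) := by
  rw [← Equiv.sum_comp OeV.equiv.symm f, Fintype.sum_option]
  rfl

/-- the vertex of the contracted graph -/
noncomputable def oeCap (K : Set V) (v : V) : OeV V := if v ∈ K then .pt v else .inf

/-- the groups of the contracted graph -/
noncomputable def oeComp (K : Set V) {P : Type*} (comp : V → P) (p0 : P) (x : OeV V) : P :=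
  match x with
    | .pt v => if v ∈ K then comp v else p0
    | .inf => p0

/-- the graph with the outer ends of the legs of `K` identified -/
noncomputable def oeEnds (ends : E → Sym2 V) (K : Set V) (e : E) : Sym2 (OeV V) :=
  if e ∈ Legs ends K then (ends e).map (oeCap K) else (ends e).map OeV.pt

theorem oe_mem_some (ends : E → Sym2 V) (K : Set V) (e : E) (v : V) :
    OeV.pt v ∈ oeEnds ends K e ↔ v ∈ ends e ∧ (e ∈ Legs ends K → v ∈ K) := by
  unfold oeEnds
  by_cases he : e ∈ Legs ends K
  · rw [if_pos he, Sym2.mem_map]
    constructor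
    · rintro ⟨a, ha, hav⟩
      unfold oeCap at hav
      by_cases haK : a ∈ K
      · rw [if_pos haK] at hav
        have : a = v := OeV.pt.inj hav
        subst this
        exact ⟨ha, fun _ => haK⟩
      · rw [if_neg haK] at hav
        exact absurd hav (by simp)
    · rintro ⟨h1, h2⟩
      refine ⟨v, h1, ?_⟩
      unfold oeCap
      rw [if_pos (h2 he)]
  · rw [if_neg he, Sym2.mem_map]
    constructor
    · rintro ⟨a, ha, hav⟩
      have : a = v := OeV.pt.inj hav
      subst this
      exact ⟨ha, fun h => absurd h he⟩
    · rintro ⟨h1, _⟩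
      exact ⟨v, h1, rfl⟩

theorem oe_mem_none (ends : E → Sym2 V) (K : Set V) (e : E) :
    OeV.inf ∈ oeEnds ends K e ↔ e ∈ Legs ends K := by
  unfold oeEnds
  by_cases he : e ∈ Legs ends K
  · rw [if_pos he, Sym2.mem_map]
    have he' := he
    obtain ⟨_, b, hb, hbK⟩ := he'
    refine ⟨fun _ => he, fun _ => ⟨b, hb, ?_⟩⟩
    unfold oeCap
    rw [if_neg hbK]
  · rw [if_neg he, Sym2.mem_map]
    constructor
    · rintro ⟨a, _, h⟩
      exact absurd h (by simp)
    · intro h
      exact absurd h he

theorem oe_loopless (ends : E → Sym2 V) (hl : ∀ e, ¬ (ends e).IsDiag) (K : Set V) (e : E) :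
    ¬ (oeEnds ends K e).IsDiag := by
  obtain ⟨a, b, hab⟩ := exists_ends ends e
  have hne : a ≠ b := by
    have := hl e
    rw [hab] at this
    simpa using this
  unfold oeEnds
  by_cases he : e ∈ Legs ends K
  · rw [if_pos he, hab, Sym2.map_mk]
    rw [mem_legs_iff ends K e a b hab] at he
    unfold oeCap
    rcases he with ⟨h1, h2⟩ | ⟨h1, h2⟩
    · rw [if_pos h1, if_neg h2]
      simp
    · rw [if_neg h1, if_pos h2]
      simp
  · rw [if_neg he, hab, Sym2.map_mk]
    simpa using hne

theorem oe_rotk_rotk (k l : ZMod 3) (x : W) : rotk k (rotk l x) = rotk (k + l) x := by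
  revert k l x; decide

theorem oe_sum_bd_set [Fintype V] [Fintype E] (ends : E → Sym2 V) (hl : ∀ e, ¬ (ends e).IsDiag)
    (K : Set V) (F : E → ZMod 2) :
    ∑ v ∈ univ.filter (fun v => v ∈ K), bd ends F v =
      ∑ e ∈ univ.filter (fun e => e ∈ Legs ends K), F e := by
  have h := congrArg Prod.fst (sum_bd_set ends hl K (fun e => ((F e, 0) : W)))
  rw [Prod.fst_sum, Prod.fst_sum] at h
  rw [← h]
  apply Finset.sum_congr rfl
  intro v _
  unfold bd
  rw [Prod.fst_sum]

/-- boundaries at vertices of `K` in the contracted graph -/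
theorem oe_bd_some {M : Type*} [AddCommMonoid M] [Fintype E] (ends : E → Sym2 V) (K : Set V)
    (F : E → M) (v : V) (hv : v ∈ K) : bd (oeEnds ends K) F (.pt v) = bd ends F v := by
  unfold bd
  apply Finset.sum_congr _ (fun _ _ => rfl)
  ext e
  simp only [Finset.mem_filter, Finset.mem_univ, true_and, oe_mem_some]
  exact ⟨fun h => h.1, fun h => ⟨h, fun _ => hv⟩⟩

/-- boundaries at vertices off `K` in the contracted graph -/
theorem oe_bd_off {M : Type*} [AddCommMonoid M] [Fintype E] (ends : E → Sym2 V) (K : Set V)
    (F : E → M) (hF : ∀ e, e ∉ Touch ends K → F e = 0) (v : V) (hv : v ∉ K) :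
    bd (oeEnds ends K) F (.pt v) = 0 := by
  unfold bd
  apply Finset.sum_eq_zero
  intro e he
  simp only [Finset.mem_filter, Finset.mem_univ, true_and, oe_mem_some] at he
  apply hF
  intro ht
  apply hv
  apply he.2
  exact ⟨ht, v, he.1, hv⟩

theorem oe_bd_none {M : Type*} [AddCommMonoid M] [Fintype E] (ends : E → Sym2 V) (K : Set V)
    (F : E → M) : bd (oeEnds ends K) F .inf = ∑ e ∈ univ.filter (fun e => e ∈ Legs ends K), F e := by
  unfold bd
  apply Finset.sum_congr _ (fun _ _ => rfl)
  ext e
  simp only [Finset.mem_filter, Finset.mem_univ, true_and, oe_mem_none]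

/-- sum over a group of the contracted graph -/
theorem oe_sum_group {M : Type*} [AddCommMonoid M] [Fintype V] {P : Type*} (K : Set V)
    (comp : V → P) (p0 p : P) (G : OeV V → M) (hG : ∀ v, v ∉ K → G (.pt v) = 0)
    (hN : p = p0 → G .inf = 0) :
    ∑ v' ∈ univ.filter (fun v' : OeV V => oeComp K comp p0 v' = p), G v' =
      ∑ v ∈ univ.filter (fun v => v ∈ K ∧ comp v = p), G (.pt v) := by
  rw [Finset.sum_filter, OeV.sum_eq, Finset.sum_filter]
  have h1 : (if oeComp K comp p0 .inf = p then G .inf else 0) = 0 := by
    split_ifs with h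
    · exact hN h.symm
    · rfl
  rw [h1, zero_add]
  apply Finset.sum_congr rfl
  intro v _
  by_cases hv : v ∈ K
  · have h2 : oeComp K comp p0 (.pt v) = comp v := if_pos hv
    rw [h2]
    by_cases hc : comp v = p
    · rw [if_pos hc, if_pos ⟨hv, hc⟩]
    · rw [if_neg hc, if_neg (fun h => hc h.2)]
  · rw [if_neg (fun h : v ∈ K ∧ comp v = p => hv h.1), hG v hv]
    split_ifs <;> rfl

theorem open_ext [Fintype V] [Fintype E] (ends : E → Sym2 V) (hl : ∀ e, ¬ (ends e).IsDiag)
    (K : Set V) {P : Type u} [Fintype P] (X : Set E) (comp : V → P) (h : E → W)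
    (hr : Robust ends K X comp h) (hleg : OneLeg ends K comp) (τ0 : E → ZMod 2)
    (hτ : ∑ e ∈ univ.filter (fun e => e ∈ Legs ends K), τ0 e = 0) :
    ∃ (σ : E → W) (τ : E → ZMod 2), (∀ v ∈ K, bd ends σ v = 0) ∧ (∀ v ∈ K, bd ends τ v = 0) ∧
      (∀ e ∈ Touch ends K, e ∉ X → σ e ≠ 0) ∧ (∀ e ∈ X, τ e = nn (σ e)) ∧
      ∀ e ∈ Legs ends K, σ e = h e ∧ τ e = τ0 e := by
  classical
  obtain ⟨p0, hp0⟩ := hleg
  -- edges of X
  have hXleg : ∀ e ∈ X, e ∉ Legs ends K := fun e he hle =>
    not_inner_of_legs ends K e hle (hr.sub he)
  have hXoff : ∀ e ∈ X, ∀ v ∈ ends e, v ∈ K := fun e he => hr.sub he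
  let comp' : OeV V → P := oeComp K comp p0
  have hc_some : ∀ v, v ∈ K → comp' (.pt v) = comp v := fun v hv => if_pos hv
  have hc_off : ∀ v, v ∉ K → comp' (.pt v) = p0 := fun v hv => if_neg hv
  let g : E → W := fun e => if e ∈ Touch ends K then h e else 0
  have hg_on : ∀ e ∈ Touch ends K, g e = h e := fun e he => if_pos he
  have hg_off : ∀ e, e ∉ Touch ends K → g e = 0 := fun e he => if_neg he
  have htouch : ∀ e v, v ∈ ends e → v ∈ K → e ∈ Touch ends K := fun e v h1 h2 => ⟨v, h1, h2⟩
  have hlegtouch : ∀ e ∈ Legs ends K, e ∈ Touch ends K := fun e he => he.1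
  -- degree condition
  have hdeg' : ∀ v', Deg02 (oeEnds ends K) X v' := by
    intro v'
    cases v' with
    | inf =>
      left
      rw [Finset.card_eq_zero, Finset.filter_eq_empty_iff]
      rintro e _ ⟨h1, h2⟩
      rw [oe_mem_none] at h1
      exact hXleg e h2 h1
    | pt v =>
      have h1 : univ.filter (fun e => .pt v ∈ oeEnds ends K e ∧ e ∈ X) =
          univ.filter (fun e => v ∈ ends e ∧ e ∈ X) := by
        ext e
        simp only [Finset.mem_filter, Finset.mem_univ, true_and, oe_mem_some]
        constructor
        · rintro ⟨⟨h1, _⟩, h2⟩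
          exact ⟨h1, h2⟩
        · rintro ⟨h1, h2⟩
          exact ⟨⟨h1, fun hle => absurd hle (hXleg e h2)⟩, h2⟩
      have h2 := hr.deg v
      unfold Deg02 at h2 ⊢
      rw [h1]
      exact h2
  -- components
  have hcomp' : ∀ e, e ∉ X → ∀ u w, oeEnds ends K e = s(u, w) → comp' u = comp' w := by
    intro e heX u w huw
    obtain ⟨a, b, hab⟩ := exists_ends ends e
    by_cases hle : e ∈ Legs ends K
    · have hall : ∀ v', v' ∈ oeEnds ends K e → comp' v' = p0 := by
        intro v' hv'
        cases v' with
        | inf => rfl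
        | pt v =>
          rw [oe_mem_some] at hv'
          rw [hc_some v (hv'.2 hle)]
          exact hp0 e hle v hv'.1 (hv'.2 hle)
      rw [hall u (by rw [huw]; simp), hall w (by rw [huw]; simp)]
    · have hab' : oeEnds ends K e = s(OeV.pt a, OeV.pt b) := by
        unfold oeEnds
        rw [if_neg hle, hab, Sym2.map_mk]
      have key : comp' (.pt a) = comp' (.pt b) := by
        rw [mem_legs_iff ends K e a b hab] at hle
        by_cases haK : a ∈ K
        · have hbK : b ∈ K := by
            by_contra hbK
            exact hle (Or.inl ⟨haK, hbK⟩)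
          rw [hc_some a haK, hc_some b hbK]
          exact hr.inner e ((mem_inner_iff ends K e a b hab).2 ⟨haK, hbK⟩) heX a b hab
        · have hbK : b ∉ K := fun hbK => hle (Or.inr ⟨haK, hbK⟩)
          rw [hc_off a haK, hc_off b hbK]
      rw [hab'] at huw
      rcases Sym2.eq_iff.1 huw with ⟨rfl, rfl⟩ | ⟨rfl, rfl⟩
      · exact key
      · exact key.symm
  -- boundaries of g
  have hgb : ∀ v ∈ K, bd (oeEnds ends K) (rs Xᶜ g) (.pt v) = bd ends (rs Xᶜ h) v := by
    intro v hv
    rw [oe_bd_some ends K _ v hv]
    unfold bd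
    apply Finset.sum_congr rfl
    intro e he
    have hve := (Finset.mem_filter.1 he).2
    unfold rs
    rw [hg_on e (htouch e v hve hv)]
  have hgb_off : ∀ v, v ∉ K → bd (oeEnds ends K) (rs Xᶜ g) (.pt v) = 0 := by
    intro v hv
    apply oe_bd_off ends K _ _ v hv
    intro e he
    unfold rs
    rw [hg_off e he]
    split_ifs <;> rfl
  have hlegsum : ∑ e ∈ univ.filter (fun e => e ∈ Legs ends K), rs Xᶜ h e = 0 := by
    rw [← sum_bd_set ends hl K]
    rw [← Finset.sum_fiberwise (univ.filter (fun v => v ∈ K)) comp]
    apply Finset.sum_eq_zero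
    intro p _
    have h1 := hr.bal (fun _ => 1) (fun e _ u w _ => rfl) p
    simp only [one_smul] at h1
    rw [Finset.filter_filter]
    exact h1
  have hgb_none : bd (oeEnds ends K) (rs Xᶜ g) .inf = 0 := by
    rw [oe_bd_none, ← hlegsum]
    apply Finset.sum_congr rfl
    intro e he
    have hle := (Finset.mem_filter.1 he).2
    unfold rs
    rw [hg_on e (hlegtouch e hle)]
  -- condition hz
  have hz' : ∀ y : OeV V → ZMod 2,
      (∀ e ∈ X, ∀ u w, oeEnds ends K e = s(u, w) → y u = y w) →
      ∀ p, ∑ v' ∈ univ.filter (fun v' => comp' v' = p),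
        y v' • bd (oeEnds ends K) (rs Xᶜ g) v' = 0 := by
    intro y hy p
    have h1 := oe_sum_group K comp p0 p (fun v' => y v' • bd (oeEnds ends K) (rs Xᶜ g) v')
      (by
        intro v hv
        change y (.pt v) • bd (oeEnds ends K) (rs Xᶜ g) (.pt v) = 0
        rw [hgb_off v hv, smul_zero])
      (by
        intro _
        change y .inf • bd (oeEnds ends K) (rs Xᶜ g) .inf = 0
        rw [hgb_none, smul_zero])
    refine Eq.trans h1 ?_
    have h2 := hr.bal (fun v => y (.pt v)) (by
      intro e he u w huw
      apply hy e he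
      unfold oeEnds
      rw [if_neg (hXleg e he), huw, Sym2.map_mk]) p
    refine Eq.trans (Finset.sum_congr rfl ?_) h2
    intro v hv
    have hv' := (Finset.mem_filter.1 hv).2
    change y (.pt v) • bd (oeEnds ends K) (rs Xᶜ g) (.pt v) = _
    rw [hgb v hv'.1]
  obtain ⟨σ', z, hσ', hoff', hcond'⟩ :=
    rotGroups (oeEnds ends K) (oe_loopless ends hl K) X hdeg' comp' hcomp' g hz'
  -- global rotation
  let σ : E → W := fun e => rotk (- z p0) (σ' e)
  let z1 : P → ZMod 3 := fun p => - z p0 + z p
  have hnn : ∀ e, nn (σ e) = nn (σ' e) := fun e => nn_rotk _ _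
  have hσ : ∀ v ∈ K, bd ends σ v = 0 := by
    intro v hv
    change bd ends (fun e => rotk (- z p0) (σ' e)) v = 0
    rw [bd_map, ← oe_bd_some ends K σ' v hv, hσ', map_zero]
  have hoff : ∀ e, e ∉ X → ∀ v ∈ K, v ∈ ends e → σ e = rotk (z1 (comp v)) (h e) := by
    intro e he v hv hve
    change rotk (- z p0) (σ' e) = _
    rw [hoff' e he (.pt v) ((oe_mem_some ends K e v).2 ⟨hve, fun _ => hv⟩), hc_some v hv,
      hg_on e (htouch e v hve hv), oe_rotk_rotk]
  have hσleg : ∀ e ∈ Legs ends K, σ e = h e := by
    intro e he
    obtain ⟨v, hve, hvK⟩ := he.1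
    rw [hoff e (fun hX => hXleg e hX he) v hvK hve, hp0 e he v hve hvK]
    change rotk (- z p0 + z p0) (h e) = h e
    rw [neg_add_cancel]
    rfl
  have hcond : ∀ p, ∑ v ∈ univ.filter (fun v => v ∈ K ∧ comp v = p),
      bd ends (rs X (fun e => nn (σ e))) v = 0 := by
    intro p
    have h0 : (fun e => nn (σ e)) = fun e => nn (σ' e) := funext hnn
    rw [h0]
    have h1 := hcond' p
    unfold LL at h1
    have h2 := oe_sum_group K comp p0 p (fun v' => bd (oeEnds ends K) (rs X (fun e => nn (σ' e))) v')
      (by
        intro v hv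
        apply oe_bd_off ends K _ _ v hv
        intro e he
        unfold rs
        rw [if_neg]
        intro hX
        apply he
        obtain ⟨a, b, hab⟩ := exists_ends ends e
        exact htouch e a (by rw [hab]; simp) (hXoff e hX a (by rw [hab]; simp)))
      (by
        intro _
        change bd (oeEnds ends K) (rs X (fun e => nn (σ' e))) .inf = 0
        rw [oe_bd_none]
        apply Finset.sum_eq_zero
        intro e he
        have hle := (Finset.mem_filter.1 he).2
        unfold rs
        rw [if_neg (fun hX => hXleg e hX hle)])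
    have h3 := h2.symm.trans h1
    refine Eq.trans (Finset.sum_congr rfl ?_) h3
    intro v hv
    have hv' := (Finset.mem_filter.1 hv).2
    exact (oe_bd_some ends K _ v hv'.1).symm
  -- vertex functions constant along X
  let Y : Submodule (ZMod 2) (V → W) :=
    { carrier := {c | ∀ e ∈ X, ∀ u w, ends e = s(u, w) → c u = c w}
      add_mem' := by
        intro a b ha hb e he u w h
        change a u + b u = a w + b w
        rw [ha e he u w h, hb e he u w h]
      zero_mem' := by intro e he u w h; rfl
      smul_mem' := by
        intro t a ha e he u w h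
        change t • a u = t • a w
        rw [ha e he u w h] }
  have hab := exists_ends ends
  choose pa pb hpab using hab
  -- boundary of sigma on X
  have hbs_off : ∀ {M : Type} [AddCommMonoid M] (F : E → M) (v : V), v ∉ K →
      bd ends (rs X F) v = 0 := by
    intro M _ F v hv
    rw [bd_rs]
    apply Finset.sum_eq_zero
    intro e he
    simp only [Finset.mem_filter, Finset.mem_univ, true_and] at he
    exact absurd (hXoff e he.2 v he.1) hv
  have hbs : ∀ v ∈ K, bd ends (rs X σ) v = rotk (z1 (comp v)) (bd ends (rs Xᶜ h) v) := by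
    intro v hv
    have h1 : bd ends (rs X σ) v + bd ends (rs Xᶜ σ) v = 0 := by
      rw [← bd_add, ← hσ v hv]
      congr 1
      ext e
      · unfold rs
        by_cases he : e ∈ X <;> simp [he]
      · unfold rs
        by_cases he : e ∈ X <;> simp [he]
    have h2 : bd ends (rs Xᶜ σ) v = rotk (z1 (comp v)) (bd ends (rs Xᶜ h) v) := by
      rw [← bd_map]
      unfold bd
      apply Finset.sum_congr rfl
      intro e he
      have hve := (Finset.mem_filter.1 he).2
      by_cases heX : e ∈ X
      · simp [rs, heX]
      · simp only [rs, Set.mem_compl_iff, heX, not_false_eq_true, if_true]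
        exact hoff e heX v hv hve
    rw [← h2]
    exact W_eq_of_add _ _ h1
  -- the linear map
  let I : Set E := Inner ends K \ X
  let A1 : Y →ₗ[ZMod 2] (V → ZMod 2) :=
    { toFun := fun c v => om (bd ends (rs X σ) v) (c.1 v)
      map_add' := by
        intro c c'
        ext v
        exact om_add_right _ _ _
      map_smul' := by
        intro t c
        ext v
        change om _ (t • c.1 v) = t * om _ (c.1 v)
        exact om_smul _ _ _ }
  let A2 : (E → ZMod 2) →ₗ[ZMod 2] (V → ZMod 2) :=
    { toFun := fun F v => bd ends (rs I F) v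
      map_add' := by
        intro F G
        ext v
        change bd ends (rs I (F + G)) v = bd ends (rs I F) v + bd ends (rs I G) v
        rw [← bd_add]
        congr 1
        ext e
        unfold rs
        split_ifs <;> simp
      map_smul' := by
        intro c F
        ext v
        change bd ends (rs I (c • F)) v = c * bd ends (rs I F) v
        unfold bd
        rw [Finset.mul_sum]
        apply Finset.sum_congr rfl
        intro e _
        unfold rs
        split_ifs <;> simp }
  -- the leg term
  have hleg1 : ∀ v ∈ K, comp v ≠ p0 → bd ends (rs (Legs ends K) τ0) v = 0 := by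
    intro v hv hne
    rw [bd_rs]
    apply Finset.sum_eq_zero
    intro e he
    simp only [Finset.mem_filter, Finset.mem_univ, true_and] at he
    exact absurd (hp0 e he.2 v he.1 hv) hne
  have hleg2 : ∑ v ∈ univ.filter (fun v => v ∈ K), bd ends (rs (Legs ends K) τ0) v = 0 := by
    rw [oe_sum_bd_set ends hl K, ← hτ]
    apply Finset.sum_congr rfl
    intro e he
    unfold rs
    rw [if_pos (Finset.mem_filter.1 he).2]
  have hleg3 : ∀ p, ∑ v ∈ univ.filter (fun v => v ∈ K ∧ comp v = p),
      bd ends (rs (Legs ends K) τ0) v = 0 := by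
    intro p
    by_cases hp : p = p0
    · subst hp
      rw [← hleg2, ← Finset.filter_filter, Finset.sum_filter _ (fun v => bd ends (rs (Legs ends K) τ0) v)]
      apply Finset.sum_congr rfl
      intro v hv
      split_ifs with hc
      · rfl
      · exact (hleg1 v (Finset.mem_filter.1 hv).2 hc).symm
    · apply Finset.sum_eq_zero
      intro v hv
      have hv' := (Finset.mem_filter.1 hv).2
      exact hleg1 v hv'.1 (by rw [hv'.2]; exact hp)
  obtain ⟨⟨c, F⟩, hcF⟩ := mem_range_of_dual (LinearMap.coprod A1 A2)
    (fun v => if v ∈ K then bd ends (rs X (fun e => nn (σ e))) v +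
      bd ends (rs (Legs ends K) τ0) v else 0) (by
    intro x hx
    -- x is constant along inner edges off X
    have hx2 : ∀ e ∈ Inner ends K, e ∉ X → ∀ u w, ends e = s(u, w) → x u = x w := by
      intro e heI heX u w hew
      have huw : u ≠ w := by
        have := hl e
        rw [hew] at this
        simpa using this
      have h1 := hx (0, Pi.single e 1)
      have h2 : ∀ v, (LinearMap.coprod A1 A2) (0, Pi.single e 1) v =
          (Pi.single u 1 + Pi.single w 1 : V → ZMod 2) v := by
        intro v
        rw [LinearMap.coprod_apply, map_zero, zero_add]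
        change bd ends (rs I (Pi.single e 1)) v = _
        have heI' : e ∈ I := ⟨heI, heX⟩
        unfold bd
        rw [Finset.sum_filter, Finset.sum_eq_single e]
        · rw [hew]
          simp only [Sym2.mem_iff, rs, heI', if_true,
            Pi.single_eq_same, Pi.add_apply, Pi.single_apply]
          by_cases hvu : v = u
          · subst hvu; simp [huw]
          · by_cases hvw : v = w
            · subst hvw; simp [hvu]
            · simp [hvu, hvw]
        · intro e' _ hne
          simp [rs, hne]
        · simp
      simp only [h2] at h1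
      simp only [Pi.add_apply, mul_add, Finset.sum_add_distrib, Pi.single_apply, mul_ite, mul_one,
        mul_zero, Finset.sum_ite_eq', Finset.mem_univ, if_true] at h1
      generalize x u = a at h1
      generalize x w = b at h1
      revert a b; decide
    have hx1 : ∀ u ∈ K, ∀ w ∈ K, comp u = comp w → x u = x w := by
      apply hr.rob z1 x hx2
      intro y hy
      apply om_nondeg
      intro w
      have h1 := hx (⟨fun v => y v • w, by
        intro e he u w' h
        change y u • w = y w' • w
        rw [hy e he u w' h]⟩, 0)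
      rw [om_sum_left, Finset.sum_filter]
      refine Eq.trans (Finset.sum_congr rfl ?_) h1
      intro v _
      rw [LinearMap.coprod_apply, map_zero, add_zero]
      change (if v ∈ K then om ((y v * x v) • rotk (z1 (comp v)) (bd ends (rs Xᶜ h) v)) w else 0) =
        x v * om (bd ends (rs X σ) v) (y v • w)
      by_cases hv : v ∈ K
      · rw [if_pos hv, ← hbs v hv, smul_om, om_smul]
        ring
      · rw [if_neg hv, hbs_off σ v hv, om_zero_left, mul_zero]
    -- x factors through comp on K
    have hstep : ∀ v, x v * (if v ∈ K then bd ends (rs X (fun e => nn (σ e))) v +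
        bd ends (rs (Legs ends K) τ0) v else 0) =
        if v ∈ K then x v * (bd ends (rs X (fun e => nn (σ e))) v +
        bd ends (rs (Legs ends K) τ0) v) else 0 := by
      intro v
      split_ifs
      · rfl
      · exact mul_zero _
    simp only [hstep]
    rw [← Finset.sum_filter, ← Finset.sum_fiberwise (univ.filter (fun v => v ∈ K)) comp]
    apply Finset.sum_eq_zero
    intro p _
    rw [Finset.filter_filter]
    by_cases hK : ∃ v, v ∈ K ∧ comp v = p
    · obtain ⟨v0, hv0, hv0p⟩ := hK
      have h1 : ∑ v ∈ univ.filter (fun v => v ∈ K ∧ comp v = p),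
          x v * (bd ends (rs X (fun e => nn (σ e))) v + bd ends (rs (Legs ends K) τ0) v) =
          x v0 * (∑ v ∈ univ.filter (fun v => v ∈ K ∧ comp v = p),
            bd ends (rs X (fun e => nn (σ e))) v +
            ∑ v ∈ univ.filter (fun v => v ∈ K ∧ comp v = p),
            bd ends (rs (Legs ends K) τ0) v) := by
        rw [← Finset.sum_add_distrib, Finset.mul_sum]
        apply Finset.sum_congr rfl
        intro v hv
        have hv' := (Finset.mem_filter.1 hv).2
        rw [hx1 v hv'.1 v0 hv0 (by rw [hv'.2, hv0p])]
      rw [h1, hcond, hleg3, add_zero, mul_zero]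
    · rw [Finset.filter_false_of_mem (fun v _ hv => hK ⟨v, hv⟩), Finset.sum_empty])
  -- the new flow
  let ce : E → W := fun e => if e ∈ X then c.1 (pa e) else 0
  have hce : ∀ v, ∀ e ∈ X, v ∈ ends e → ce e = c.1 v := by
    intro v e he hv
    change (if e ∈ X then c.1 (pa e) else 0) = _
    rw [if_pos he]
    rw [hpab e, Sym2.mem_iff] at hv
    rcases hv with rfl | rfl
    · rfl
    · exact c.2 e he _ _ (hpab e)
  have hce0 : ∀ e, e ∉ X → ce e = 0 := by
    intro e he
    change (if e ∈ X then c.1 (pa e) else 0) = _
    rw [if_neg he]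
  have hceflow : ∀ v, bd ends ce v = 0 := by
    intro v
    have h1 : bd ends ce v = bd ends (rs X ce) v := by
      congr 1
      ext e : 1
      unfold rs
      split_ifs with h
      · rfl
      · exact hce0 e h
    rw [h1, bd_rs]
    rcases hr.deg v with h0 | h2
    · rw [Finset.card_eq_zero] at h0
      rw [h0, Finset.sum_empty]
    · obtain ⟨a, b, hab, hs⟩ := Finset.card_eq_two.1 h2
      rw [hs, Finset.sum_pair hab]
      have ha : a ∈ univ.filter (fun e => v ∈ ends e ∧ e ∈ X) := by rw [hs]; simp
      have hb : b ∈ univ.filter (fun e => v ∈ ends e ∧ e ∈ X) := by rw [hs]; simp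
      simp only [Finset.mem_filter, Finset.mem_univ, true_and] at ha hb
      rw [hce v a ha.2 ha.1, hce v b hb.2 hb.1]
      exact W_add_self _
  let σ2 : E → W := fun e => σ e + ce e
  have hbt : ∀ v ∈ K, bd ends (rs X (fun e => nn (σ2 e))) v + bd ends (rs (Legs ends K) τ0) v =
      bd ends (rs I F) v := by
    intro v hv
    have h1 : bd ends (rs X (fun e => nn (σ2 e))) v =
        bd ends (rs X (fun e => nn (σ e))) v + bd ends (rs X (fun e => om (σ e) (ce e))) v := by
      have h2 : bd ends (rs X (fun e => nn (ce e))) v = 0 := by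
        apply bd_rs_eq_zero ends X v (hr.deg v)
        intro e he e' he' h h'
        rw [hce v e he h, hce v e' he' h']
      rw [← add_zero (bd ends (rs X (fun e => nn (σ e))) v + _), ← h2, ← bd_add, ← bd_add]
      congr 1
      ext e
      unfold rs
      by_cases he : e ∈ X
      · simp only [he, if_true]
        change nn (σ e + ce e) = _
        rw [nn_add]
        ring
      · simp [he]
    rw [h1, bd_om ends X σ ce v (c.1 v) (hce v)]
    have h3 := congrFun hcF v
    rw [LinearMap.coprod_apply] at h3
    change om (bd ends (rs X σ) v) (c.1 v) + bd ends (rs I F) v =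
      (if v ∈ K then bd ends (rs X (fun e => nn (σ e))) v +
        bd ends (rs (Legs ends K) τ0) v else 0) at h3
    rw [if_pos hv] at h3
    generalize om (bd ends (rs X σ) v) (c.1 v) = a at h3 ⊢
    generalize bd ends (rs I F) v = b at h3 ⊢
    generalize bd ends (rs X (fun e => nn (σ e))) v = c at h3 ⊢
    generalize bd ends (rs (Legs ends K) τ0) v = d at h3 ⊢
    revert a b c d; decide
  refine ⟨σ2, fun e => (rs X (fun e => nn (σ2 e)) e + rs (Legs ends K) τ0 e) + rs I F e,
    ?_, ?_, ?_, ?_, ?_⟩
  · intro v hv
    change bd ends (fun e => σ e + ce e) v = 0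
    rw [bd_add, hσ v hv, hceflow, add_zero]
  · intro v hv
    rw [bd_add, bd_add, hbt v hv]
    exact Z_add_self _
  · intro e he heX
    obtain ⟨v, hve, hvK⟩ := he
    change σ e + ce e ≠ 0
    rw [hce0 e heX, add_zero, hoff e heX v hvK hve]
    exact rotk_ne_zero _ _ (hr.nz e ⟨v, hve, hvK⟩ heX)
  · intro e he
    have h1 : e ∉ Legs ends K := hXleg e he
    have h2 : e ∉ I := fun h => h.2 he
    change (rs X (fun e => nn (σ2 e)) e + rs (Legs ends K) τ0 e) + rs I F e = _
    unfold rs
    rw [if_pos he, if_neg h1, if_neg h2, add_zero, add_zero]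
  · intro e he
    have h1 : e ∉ X := fun h => hXleg e h he
    have h2 : e ∉ I := fun h => not_inner_of_legs ends K e he h.1
    constructor
    · change σ e + ce e = _
      rw [hce0 e h1, add_zero, hσleg e he]
    · change (rs X (fun e => nn (σ2 e)) e + rs (Legs ends K) τ0 e) + rs I F e = _
      unfold rs
      rw [if_neg h1, if_pos he, if_neg h2, add_zero, zero_add]

end Pool.Agent.Helper37.IE
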